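import Mathlib

set_option autoImplicit false

namespace Pool.Agent.H97Z.Cone

/-- `ℂ^n` with the Euclidean norm. -/
abbrev Cn (n : ℕ) : Type := EuclideanSpace ℂ (Fin n)

/-- A closed cone: a closed set `K` with `t K ⊆ K` for every real `t > 0`. -/
def IsClosedCone {n : ℕ} (K : Set (Cn n)) : Prop :=
  IsClosed K ∧ ∀ t : ℝ, 0 < t → ∀ z ∈ K, t • z ∈ K

/-- An algebraic variety: the common zero set of finitely many polynomials. -/
def IsVariety {n : ℕ} (V : Set (Cn n)) : Prop :=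
  ∃ F : Finset (MvPolynomial (Fin n) ℂ),
    V = {z : Cn n | ∀ P ∈ F, MvPolynomial.eval (fun i => z i) P = 0}

/-- An algebraic hypersurface: the zero set of one nonconstant polynomial. -/
def IsHypersurface {n : ℕ} (S : Set (Cn n)) : Prop :=
  ∃ P : MvPolynomial (Fin n) ℂ, 0 < P.totalDegree ∧
    S = {z : Cn n | MvPolynomial.eval (fun i => z i) P = 0}

/-- `A` stays polynomially away from `K` with exponent `N`:
`dist(z, K) (1 + |z|) ^ N ≥ c > 0` on `A`. -/
def StaysAway {n : ℕ} (A K : Set (Cn n)) (N : ℝ) : Prop :=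
  ∃ c : ℝ, 0 < c ∧ ∀ z ∈ A, c ≤ Metric.infDist z K * (1 + ‖z‖) ^ N

/-- `S` separates `V` from `K`: `V ⊆ S` and `S ∩ K = ∅`. -/
def Separates {n : ℕ} (S V K : Set (Cn n)) : Prop :=
  V ⊆ S ∧ S ∩ K = ∅

end Pool.Agent.H97Z.Cone
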