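import Pool.Agent.H97Z.ConeDefs

set_option autoImplicit false

namespace Pool.Agent.H97Z.Cone

open Complex

/-- the cone `ℂ × ℝ × ℝ` -/
def K0 : Set (Cn 3) := {z | (z 1).im = 0 ∧ (z 2).im = 0}

/-- a point of `ℂ^3` -/
noncomputable def pt (a b c : ℂ) : Cn 3 := WithLp.toLp 2 ![a, b, c]

@[simp] theorem pt0 (a b c : ℂ) : pt a b c 0 = a := rfl
@[simp] theorem pt1 (a b c : ℂ) : pt a b c 1 = b := rfl
@[simp] theorem pt2 (a b c : ℂ) : pt a b c 2 = c := rfl

theorem pt_fun (a b c : ℂ) : (fun i => pt a b c i) = ![a, b, c] := rfl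

theorem K0_nonempty : K0.Nonempty := ⟨0, by simp [K0]⟩

theorem K0_cone : IsClosedCone K0 := by
  refine ⟨?_, ?_⟩
  · have h1 : Continuous fun z : Cn 3 => (z 1).im := by fun_prop
    have h2 : Continuous fun z : Cn 3 => (z 2).im := by fun_prop
    exact (isClosed_eq h1 continuous_const).inter (isClosed_eq h2 continuous_const)
  · rintro t - z ⟨h1, h2⟩
    simp [K0, h1, h2]

theorem K0_add : ∀ z ∈ K0, ∀ w ∈ K0, z + w ∈ K0 := by
  rintro z ⟨h1, h2⟩ w ⟨h3, h4⟩
  simp [K0, h1, h2, h3, h4]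

theorem K0_smul : ∀ t : ℝ, ∀ z ∈ K0, t • z ∈ K0 := by
  rintro t z ⟨h1, h2⟩
  simp [K0, h1, h2]

theorem K0_convex : Convex ℝ K0 := by
  intro z hz w hw a b _ _ _
  exact K0_add _ (K0_smul a z hz) _ (K0_smul b w hw)

theorem eval_aeval (P : MvPolynomial (Fin 3) ℂ) (g : Fin 3 → Polynomial ℂ) (a : ℂ) :
    (MvPolynomial.aeval g P).eval a = MvPolynomial.eval (fun i => (g i).eval a) P := by
  induction P using MvPolynomial.induction_on with
  | C c => simp
  | add p q hp hq => simp [hp, hq]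
  | mul_X p i hp => simp [hp]

/-- a univariate polynomial function vanishing on an infinite set vanishes -/
theorem poly_zero (p : Polynomial ℂ) (s : Set ℂ) (hs : s.Infinite) (h : ∀ a ∈ s, p.eval a = 0)
    (a : ℂ) : p.eval a = 0 := by
  have : p = 0 := Polynomial.eq_zero_of_infinite_isRoot p (hs.mono fun x hx => h x hx)
  simp [this]

theorem real_infinite : (Set.range (fun x : ℝ => (x : ℂ))).Infinite :=
  Set.infinite_range_of_injective Complex.ofReal_injective

/-- A polynomial without zeros on `ℂ × ℝ × ℝ` does not depend on the first variable. -/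
theorem indep (P : MvPolynomial (Fin 3) ℂ)
    (hP : ∀ (a : ℂ) (x y : ℝ), MvPolynomial.eval ![a, (x : ℂ), (y : ℂ)] P ≠ 0) (a b u v : ℂ) :
    MvPolynomial.eval ![a, u, v] P = MvPolynomial.eval ![b, u, v] P := by
  have step1 : ∀ x y : ℝ,
      MvPolynomial.eval ![a, (x : ℂ), (y : ℂ)] P = MvPolynomial.eval ![b, (x : ℂ), (y : ℂ)] P := by
    intro x y
    set q : Polynomial ℂ := MvPolynomial.aeval
      ![Polynomial.X, Polynomial.C (x : ℂ), Polynomial.C (y : ℂ)] P with hq
    have he : ∀ c : ℂ, q.eval c = MvPolynomial.eval ![c, (x : ℂ), (y : ℂ)] P := by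
      intro c
      rw [hq, eval_aeval]
      congr 2
      funext i
      fin_cases i <;> simp
    have hdeg : q.degree ≤ 0 := by
      by_contra hd
      push Not at hd
      obtain ⟨c, hc⟩ := Complex.exists_root hd
      exact hP c x y (by rw [← he]; exact hc)
    rw [← he, ← he, Polynomial.eq_C_of_degree_le_zero hdeg]
    simp
  have step2 : ∀ y : ℝ,
      MvPolynomial.eval ![a, u, (y : ℂ)] P = MvPolynomial.eval ![b, u, (y : ℂ)] P := by
    intro y
    set q : Polynomial ℂ := MvPolynomial.aeval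
      ![Polynomial.C a, Polynomial.X, Polynomial.C (y : ℂ)] P - MvPolynomial.aeval
      ![Polynomial.C b, Polynomial.X, Polynomial.C (y : ℂ)] P with hq
    have he : ∀ c : ℂ, q.eval c = MvPolynomial.eval ![a, c, (y : ℂ)] P -
        MvPolynomial.eval ![b, c, (y : ℂ)] P := by
      intro c
      rw [hq, Polynomial.eval_sub, eval_aeval, eval_aeval]
      congr 3 <;> funext i <;> fin_cases i <;> simp
    have := poly_zero q _ real_infinite (by
      rintro _ ⟨x, rfl⟩
      rw [he, step1, sub_self]) u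
    rw [he] at this
    exact sub_eq_zero.1 this
  set q : Polynomial ℂ := MvPolynomial.aeval
    ![Polynomial.C a, Polynomial.C u, Polynomial.X] P - MvPolynomial.aeval
    ![Polynomial.C b, Polynomial.C u, Polynomial.X] P with hq
  have he : ∀ c : ℂ, q.eval c = MvPolynomial.eval ![a, u, c] P -
      MvPolynomial.eval ![b, u, c] P := by
    intro c
    rw [hq, Polynomial.eval_sub, eval_aeval, eval_aeval]
    congr 3 <;> funext i <;> fin_cases i <;> simp
  have := poly_zero q _ real_infinite (by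
    rintro _ ⟨x, rfl⟩
    rw [he, step2, sub_self]) v
  rw [he] at this
  exact sub_eq_zero.1 this

theorem no_zero_of_disjoint (P : MvPolynomial (Fin 3) ℂ)
    (h : {z : Cn 3 | MvPolynomial.eval (fun i => z i) P = 0} ∩ K0 = ∅) (a : ℂ) (x y : ℝ) :
    MvPolynomial.eval ![a, (x : ℂ), (y : ℂ)] P ≠ 0 := by
  intro h0
  have : pt a x y ∈ {z : Cn 3 | MvPolynomial.eval (fun i => z i) P = 0} ∩ K0 :=
    ⟨by simpa [pt_fun] using h0, by simp [K0]⟩
  rw [h] at this
  exact this

theorem coord_le_norm (z : Cn 3) (i : Fin 3) : ‖z i‖ ≤ ‖z‖ := PiLp.norm_apply_le z i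

theorem dist_sq_ge (z w : Cn 3) (hw : w ∈ K0) :
    (z 1).im ^ 2 + (z 2).im ^ 2 ≤ dist z w ^ 2 := by
  rw [EuclideanSpace.dist_eq, Real.sq_sqrt (by positivity), Fin.sum_univ_three]
  have h1 : (z 1).im ^ 2 ≤ dist (z 1) (w 1) ^ 2 := by
    rw [dist_eq_norm, ← sq_abs]
    have := Complex.abs_im_le_norm (z 1 - w 1)
    rw [Complex.sub_im, hw.1, sub_zero] at this
    exact pow_le_pow_left₀ (abs_nonneg _) this 2
  have h2 : (z 2).im ^ 2 ≤ dist (z 2) (w 2) ^ 2 := by
    rw [dist_eq_norm, ← sq_abs]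
    have := Complex.abs_im_le_norm (z 2 - w 2)
    rw [Complex.sub_im, hw.2, sub_zero] at this
    exact pow_le_pow_left₀ (abs_nonneg _) this 2
  have h0 : 0 ≤ dist (z 0) (w 0) ^ 2 := by positivity
  linarith

theorem le_infDist_K0 (z : Cn 3) (d : ℝ) (h : d ^ 2 ≤ (z 1).im ^ 2 + (z 2).im ^ 2) :
    d ≤ Metric.infDist z K0 := by
  rw [Metric.le_infDist K0_nonempty]
  intro w hw
  exact le_of_sq_le_sq_of_nonneg (h.trans (dist_sq_ge z w hw))
where
  le_of_sq_le_sq_of_nonneg {a : ℝ} {z w : Cn 3} (h : a ^ 2 ≤ dist z w ^ 2) : a ≤ dist z w :=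
    (abs_le_of_sq_le_sq' h dist_nonneg).2

/-- the curve `z₀ z₁ = 1`, `z₂ = i z₁` -/
def V1 : Set (Cn 3) := {z | z 0 * z 1 = 1 ∧ z 2 = I * z 1}

theorem V1_variety : IsVariety V1 := by
  classical
  refine ⟨{MvPolynomial.X 0 * MvPolynomial.X 1 - 1,
    MvPolynomial.X 2 - MvPolynomial.C I * MvPolynomial.X 1}, ?_⟩
  ext z
  simp [V1, sub_eq_zero]

theorem V1_nonempty : V1.Nonempty := ⟨pt 1 1 I, by simp [V1]⟩

theorem V1_ne_univ : V1 ≠ Set.univ := by
  intro h
  have : (0 : Cn 3) ∈ V1 := by rw [h]; trivial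
  simp [V1] at this

theorem V1_away : StaysAway V1 K0 1 := by
  refine ⟨1, one_pos, ?_⟩
  rintro z ⟨h1, h2⟩
  have hd : ‖z 1‖ ≤ Metric.infDist z K0 := by
    apply le_infDist_K0
    rw [h2, Complex.sq_norm, Complex.normSq_apply]
    simp
    nlinarith
  have hn : ‖z 0‖ * ‖z 1‖ = 1 := by rw [← norm_mul, h1, norm_one]
  have h0 := coord_le_norm z 0
  rw [Real.rpow_one]
  have : ‖z 1‖ * ‖z 0‖ ≤ Metric.infDist z K0 * (1 + ‖z‖) :=
    mul_le_mul hd (by linarith) (norm_nonneg _) Metric.infDist_nonneg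
  linarith

theorem V1_not_sep : ¬ ∃ S : Set (Cn 3), IsHypersurface S ∧ Separates S V1 K0 := by
  rintro ⟨S, ⟨P, -, rfl⟩, hV, hK⟩
  have hP := no_zero_of_disjoint P hK
  set q : Polynomial ℂ := MvPolynomial.aeval
    ![Polynomial.C 0, Polynomial.X, Polynomial.C I * Polynomial.X] P with hq
  have he : ∀ c : ℂ, q.eval c = MvPolynomial.eval ![0, c, I * c] P := by
    intro c
    rw [hq, eval_aeval]
    congr 2
    funext i
    fin_cases i <;> simp
  have hinf : ({0}ᶜ : Set ℂ).Infinite := (Set.finite_singleton 0).infinite_compl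
  have := poly_zero q _ hinf (by
    intro t ht
    have ht : t ≠ 0 := ht
    have hm : pt t⁻¹ t (I * t) ∈ V1 := by simp [V1, ht]
    have := hV hm
    rw [he, indep P hP 0 t⁻¹]
    simpa [pt_fun] using this) 0
  rw [he] at this
  exact hP 0 0 0 (by simpa using this)

/-- the curve `z₀ = z₁²`, `z₁² z₂ = i` -/
def V2 : Set (Cn 3) := {z | z 0 = z 1 ^ 2 ∧ z 1 ^ 2 * z 2 = I}

theorem V2_variety : IsVariety V2 := by
  classical
  refine ⟨{MvPolynomial.X 0 - MvPolynomial.X 1 ^ 2,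
    MvPolynomial.X 1 ^ 2 * MvPolynomial.X 2 - MvPolynomial.C I}, ?_⟩
  ext z
  simp [V2, sub_eq_zero]

theorem V2_nonempty : V2.Nonempty := ⟨pt 1 1 I, by simp [V2]⟩

theorem V2_ne_univ : V2 ≠ Set.univ := by
  intro h
  have : (0 : Cn 3) ∈ V2 := by rw [h]; trivial
  simp [V2] at this
  exact I_ne_zero this.symm

theorem V2_away : StaysAway V2 K0 1 := by
  refine ⟨1 / 2, by norm_num, ?_⟩
  rintro z ⟨h1, h2⟩
  rw [Real.rpow_one]
  set s := z 1 with hs
  set w := z 2 with hw
  have hs0 : s ≠ 0 := by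
    intro h
    rw [h] at h2
    simp at h2
    exact I_ne_zero h2.symm
  set r := ‖s‖ with hr
  have hr0 : 0 < r := norm_pos_iff.2 hs0
  have hr2 : r ^ 2 = s.re ^ 2 + s.im ^ 2 := by
    rw [hr, Complex.sq_norm, Complex.normSq_apply]; ring
  have hz0 : r ^ 2 ≤ ‖z‖ := by
    have := coord_le_norm z 0
    rw [h1, norm_pow] at this
    exact this
  have hwn : r ^ 2 * ‖w‖ = 1 := by
    rw [hr, ← norm_pow, ← norm_mul, h2, Complex.norm_I]
  have hz2 : ‖w‖ ≤ ‖z‖ := coord_le_norm z 2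
  have hzn : 0 ≤ ‖z‖ := norm_nonneg _
  have hD : 0 ≤ Metric.infDist z K0 := Metric.infDist_nonneg
  -- the imaginary part of `w`
  have hre := congrArg Complex.re h2
  have him := congrArg Complex.im h2
  simp [pow_two] at hre him
  have hwim : (r ^ 2) ^ 2 * w.im = s.re ^ 2 - s.im ^ 2 := by
    rw [hr2]
    linear_combination (s.re ^ 2 - s.im ^ 2) * him - (2 * s.re * s.im) * hre
  by_cases hc : r ^ 2 ≤ 4 * s.im ^ 2
  · have hd : r / 2 ≤ Metric.infDist z K0 := by
      apply le_infDist_K0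
      rw [← hs, ← hw]
      nlinarith [sq_nonneg w.im]
    by_cases h1r : 1 ≤ r
    · nlinarith
    · push Not at h1r
      have h3 : r ^ 2 ≤ r := by nlinarith
      have h4 : 1 ≤ r * ‖z‖ := by
        calc (1 : ℝ) = r ^ 2 * ‖w‖ := hwn.symm
          _ ≤ r * ‖z‖ := mul_le_mul h3 hz2 (norm_nonneg _) hr0.le
      nlinarith
  · push Not at hc
    have hr20 : 0 < r ^ 2 := by positivity
    have h5 : 1 / 2 ≤ r ^ 2 * w.im := by
      have : r ^ 2 * (1 / 2) ≤ r ^ 2 * (r ^ 2 * w.im) := by nlinarith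
      exact le_of_mul_le_mul_left this hr20
    have hwpos : 0 ≤ w.im := by
      by_contra hneg
      push Not at hneg
      nlinarith
    have hd : w.im ≤ Metric.infDist z K0 := by
      apply le_infDist_K0
      rw [← hs, ← hw]
      nlinarith [sq_nonneg s.im]
    have : r ^ 2 * w.im ≤ (1 + ‖z‖) * Metric.infDist z K0 :=
      mul_le_mul (by linarith) hd hwpos (by linarith)
    linarith

theorem V2_sep : ∃ S : Set (Cn 3), IsHypersurface S ∧ Separates S V2 K0 := by
  refine ⟨_, ⟨MvPolynomial.X 1 ^ 2 * MvPolynomial.X 2 - MvPolynomial.C I, ?_, rfl⟩, ?_, ?_⟩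
  · by_contra h
    push Not at h
    have h0 := MvPolynomial.totalDegree_eq_zero_iff_eq_C.1 (Nat.le_zero.1 h)
    have e1 := congrArg (MvPolynomial.eval ![0, 0, 0]) h0
    have e2 := congrArg (MvPolynomial.eval ![0, 1, 1]) h0
    simp only [MvPolynomial.eval_C] at e1 e2
    have := congrArg Complex.re (e1.trans e2.symm)
    simp at this
  · rintro z ⟨-, h2⟩
    simp [h2]
  · ext z
    simp only [Set.mem_inter_iff, Set.mem_ofPred_eq, Set.mem_empty_iff_false, iff_false, not_and]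
    rintro h ⟨h1, h2⟩
    simp [sub_eq_zero] at h
    have := congrArg Complex.im h
    simp [pow_two, h1, h2] at this

theorem V2_not_away (S : Set (Cn 3)) (hS : IsHypersurface S) (hsep : Separates S V2 K0) :
    ¬ StaysAway S K0 1 := by
  obtain ⟨P, -, rfl⟩ := hS
  obtain ⟨hV, hK⟩ := hsep
  have hP := no_zero_of_disjoint P hK
  rintro ⟨c, hc, hA⟩
  set s : ℝ := 3 / c + 1 with hs
  have hs1 : 1 ≤ s := by
    have : 0 < 3 / c := by positivity
    linarith
  have hs0 : 0 < s := by linarith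
  have hsC : (s : ℂ) ≠ 0 := by exact_mod_cast hs0.ne'
  have hm : pt ((s : ℂ) ^ 2) s (I / (s : ℂ) ^ 2) ∈ V2 := by
    refine ⟨by simp, ?_⟩
    simp only [pt1, pt2]
    field_simp
  have h0 : MvPolynomial.eval ![0, (s : ℂ), I / (s : ℂ) ^ 2] P = 0 := by
    rw [indep P hP 0 ((s : ℂ) ^ 2)]
    simpa [pt_fun] using hV hm
  have h1 := hA (pt 0 s (I / (s : ℂ) ^ 2)) (by simpa [pt_fun] using h0)
  rw [Real.rpow_one] at h1
  have hnI : ‖I / (s : ℂ) ^ 2‖ = 1 / s ^ 2 := by
    rw [norm_div, norm_pow, Complex.norm_I, Complex.norm_real, Real.norm_of_nonneg hs0.le]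
  have hd : Metric.infDist (pt 0 s (I / (s : ℂ) ^ 2)) K0 ≤ 1 / s ^ 2 := by
    refine (Metric.infDist_le_dist_of_mem (y := pt 0 s 0) (by simp [K0])).trans ?_
    rw [EuclideanSpace.dist_eq, Fin.sum_univ_three]
    simp only [pt0, pt1, pt2, dist_self, dist_zero_right, hnI]
    rw [Real.sqrt_le_left (by positivity)]
    simp
  have hs2 : 1 / s ^ 2 ≤ 1 := by
    rw [div_le_one (by positivity)]
    nlinarith
  have hn : ‖pt 0 s (I / (s : ℂ) ^ 2)‖ ≤ s + 1 := by
    rw [EuclideanSpace.norm_eq, Fin.sum_univ_three]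
    simp only [pt0, pt1, pt2, hnI, norm_zero, Complex.norm_real, Real.norm_of_nonneg hs0.le]
    rw [Real.sqrt_le_left (by positivity)]
    have : 0 ≤ 1 / s ^ 2 := by positivity
    nlinarith
  have h2 : c ≤ 1 / s ^ 2 * (3 * s) := by
    refine h1.trans (mul_le_mul hd (by linarith) (by positivity) (by positivity))
  have h3 : 1 / s ^ 2 * (3 * s) = 3 / s := by field_simp
  rw [h3, le_div_iff₀ hs0, hs] at h2
  have : c * (3 / c + 1) = 3 + c := by field_simp
  linarith

end Pool.Agent.H97Z.Cone
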