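import Mathlib

set_option autoImplicit false
set_option linter.unusedSectionVars false

open Finset Module

noncomputable section

namespace Pool.Agent.H97Z.Kak

open scoped Classical

variable {F : Type} [Field F] [Fintype F] {P : Type} [AddCommGroup P] [Module F P] [Fintype P]

/-- mass of the flat `y + J` -/
def mass (φ : P → ℝ) (y : P) (J : Submodule F P) : ℝ := ∑ u with u ∈ J, φ (y + u)

/-- independent tuples inside `J` -/
def tup (J : Submodule F P) (i : ℕ) : Finset (Fin i → P) :=
  {c | LinearIndependent F c ∧ ∀ l, c l ∈ J}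

/-- simplex sum -/
def spx (F : Type) [Field F] [Module F P] (j : ℕ) (Φ : P → ℝ) : ℝ :=
  ∑ y, ∑ c : Fin j → P with LinearIndependent F c, Φ y * ∏ l, Φ (y + c l)

theorem mass_add (φ : P → ℝ) (y : P) (J : Submodule F P) {u : P} (hu : u ∈ J) :
    mass φ (y + u) J = mass φ y J :=
  sum_equiv (Equiv.addLeft u) (fun x => by simp [J.add_mem_iff_right hu])
    fun x _ => by simp [add_assoc]

theorem tup_bound (φ : P → ℝ) (h0 : ∀ x, 0 ≤ φ x) (y : P) (J : Submodule F P) {ν : ℝ}
    (hν : 0 ≤ ν) (hJ : ∀ J' < J, mass φ y J' + ν ≤ mass φ y J) (i : ℕ) (hi : i ≤ finrank F J) :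
    ν ^ i ≤ ∑ c ∈ tup J i, ∏ l, φ (y + c l) := by
  induction i with
  | zero => simp [tup]
  | succ i ih =>
    have h1 := ih (by omega)
    rw [tup, sum_filter, ← (Fin.consEquiv fun _ => P).sum_comp, Fintype.sum_prod_type_right]
    refine le_trans ?_ (sum_le_sum_of_subset_of_nonneg (subset_univ (tup J i)) fun c _ _ =>
      sum_nonneg fun x _ => ?_)
    · rw [pow_succ]
      refine (mul_le_mul_of_nonneg_right h1 hν).trans ?_
      rw [sum_mul]
      refine sum_le_sum fun c hc => ?_
      obtain ⟨hc1, hc2⟩ := (mem_filter.1 hc).2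
      have hle : Submodule.span F (Set.range c) ≤ J :=
        Submodule.span_le.2 (Set.range_subset_iff.2 hc2)
      have hlt : Submodule.span F (Set.range c) < J := by
        refine lt_of_le_of_ne hle fun h => ?_
        have := finrank_span_eq_card hc1
        rw [h, Fintype.card_fin] at this
        omega
      have h2 := hJ _ hlt
      have h3 : mass φ y J = mass φ y (Submodule.span F (Set.range c)) +
          ∑ x, if x ∉ Submodule.span F (Set.range c) ∧ x ∈ J then φ (y + x) else 0 := by
        simp only [mass, sum_filter, ← sum_add_distrib]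
        refine sum_congr rfl fun x _ => ?_
        by_cases hx : x ∈ Submodule.span F (Set.range c)
        · simp [hx, hle hx]
        · simp [hx]
      refine (mul_le_mul_of_nonneg_left (show ν ≤ _ by linarith) (prod_nonneg fun _ _ => h0 _)).trans
        (le_of_eq ?_)
      rw [mul_sum]
      refine sum_congr rfl fun x _ => ?_
      have h4 : LinearIndependent F ((Fin.consEquiv fun _ => P) (x, c)) ↔
          x ∉ Submodule.span F (Set.range c) := linearIndependent_finCons.trans (and_iff_right hc1)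
      simp [h4, Fin.forall_fin_succ, Fin.prod_univ_succ, hc2, mul_comm]
    · split_ifs
      · exact prod_nonneg fun _ _ => h0 _
      · exact le_rfl

theorem card_sub (J : Submodule F P) :
    #{u : P | u ∈ J} = Fintype.card F ^ finrank F J := by
  rw [← Module.card_eq_pow_finrank, Fintype.card_subtype]

theorem leaf_bound (φ : P → ℝ) (h0 : ∀ x, 0 ≤ φ x) {k d : ℕ} (hk : finrank F P = k) {p : ℝ}
    (hp : p * (k + 1 : ℕ) = (k + 1 + d : ℕ)) :
    ∃ j r, j + r = k ∧ (∑ x, φ x) ^ (k + 1 + d) ≤ (2 ^ (k + 1)) ^ (k + 1 + d) *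
      (Fintype.card F : ℝ) ^ (j * d) * spx F j (fun x => φ x ^ p) * (∑ x, φ x ^ p) ^ r := by
  have hk0 : (0 : ℝ) < (k + 1 : ℕ) := by positivity
  have hp2 : (p - 1) * (k + 1 : ℕ) = d := by
    rw [sub_mul, hp]; push_cast; ring
  have hp1 : 0 ≤ p - 1 := nonneg_of_mul_nonneg_left (by rw [hp2]; positivity) hk0
  have hp0 : 1 ≤ p := by linarith
  have : Finite (Submodule F P) := Finite.of_injective _ SetLike.coe_injective
  obtain ⟨⟨y, J⟩, hJ⟩ := Finite.exists_max fun z : P × Submodule F P =>
    mass φ z.1 z.2 * (1 / 2) ^ finrank F z.2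
  set j := finrank F J with hj
  have hjk : j ≤ k := hk ▸ J.finrank_le
  obtain ⟨r, hr⟩ := Nat.exists_eq_add_of_le hjk
  refine ⟨j, r, hr.symm, ?_⟩
  have hm : ∀ x (J' : Submodule F P), 0 ≤ mass φ x J' := fun x J' => sum_nonneg fun _ _ => h0 _
  set ν := mass φ y J / 2 with hν
  have hν0 : 0 ≤ ν := by have := hm y J; positivity
  have h1 : ∑ x, φ x ≤ 2 ^ (k + 1) * ν := by
    have := hJ (0, ⊤)
    simp only [finrank_top, hk] at this
    have h2 : mass φ 0 (⊤ : Submodule F P) = ∑ x, φ x := by simp [mass]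
    rw [h2, one_div_pow, mul_one_div, div_le_iff₀ (by positivity)] at this
    refine this.trans ?_
    have h3 : mass φ y J * (1 / 2) ^ j ≤ mass φ y J :=
      mul_le_of_le_one_right (hm _ _) (pow_le_one₀ (by norm_num) (by norm_num))
    calc _ ≤ mass φ y J * 2 ^ k := mul_le_mul_of_nonneg_right h3 (by positivity)
      _ = _ := by rw [hν]; ring
  have h2 : ∀ u ∈ J, ν ^ j ≤ ∑ c ∈ tup J j, ∏ l, φ (y + u + c l) := fun u hu => by
    refine tup_bound φ h0 _ J hν0 (fun J' hJ' => ?_) j le_rfl
    obtain ⟨e, he⟩ := Nat.exists_eq_add_of_lt (Submodule.finrank_lt_finrank_of_lt hJ')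
    have := hJ (y + u, J')
    simp only [← hj] at this he
    rw [he, add_assoc, pow_add, mul_left_comm, mul_comm] at this
    have h3 := le_of_mul_le_mul_left this (by positivity)
    have h4 : mass φ y J * (1 / 2) ^ (e + 1) ≤ mass φ y J * (1 / 2) ^ 1 :=
      mul_le_mul_of_nonneg_left (pow_le_pow_of_le_one (by norm_num) (by norm_num) (by omega))
        (hm _ _)
    rw [mass_add φ y J hu]
    linarith
  set Q : ℝ := (Fintype.card F : ℝ) ^ j with hQ
  have hQ0 : 0 ≤ Q := by positivity
  have hc : (#{u : P | u ∈ J} : ℝ) = Q := by rw [card_sub]; push_cast; rfl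
  have hΦ : ∀ x, 0 ≤ φ x ^ p := fun x => Real.rpow_nonneg (h0 x) _
  have h3 : ν ^ p ≤ Q ^ (p - 1) * ∑ x, φ x ^ p := by
    have := Real.rpow_sum_le_const_mul_sum_rpow_of_nonneg {u : P | u ∈ J} (f := fun u => φ (y + u))
      hp0 fun _ _ => h0 _
    rw [hc] at this
    refine (Real.rpow_le_rpow hν0 (by have := hm y J; simp only [mass] at *; linarith)
      (by linarith)).trans (this.trans (mul_le_mul_of_nonneg_left ?_ (by positivity)))
    rw [← Equiv.sum_comp (Equiv.addLeft y) fun x => φ x ^ p]
    exact sum_le_sum_of_subset_of_nonneg (subset_univ _) fun _ _ _ => hΦ _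
  have h4 : (ν ^ p) ^ (j + 1) ≤ (Q ^ (p - 1)) ^ (j + 1) * spx F j (fun x => φ x ^ p) := by
    have hf : ∀ z : P × (Fin j → P), 0 ≤ φ (y + z.1) * ∏ l, φ (y + z.1 + z.2 l) := fun z =>
      mul_nonneg (h0 _) (prod_nonneg fun _ _ => h0 _)
    have := Real.rpow_sum_le_const_mul_sum_rpow_of_nonneg (({u : P | u ∈ J} : Finset P) ×ˢ tup J j)
      (f := fun z => φ (y + z.1) * ∏ l, φ (y + z.1 + z.2 l)) hp0 fun z _ => hf z
    rw [Real.rpow_pow_comm hν0, Real.rpow_pow_comm hQ0]
    refine (Real.rpow_le_rpow (by positivity) ?_ (by linarith)).trans (this.trans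
      (mul_le_mul (Real.rpow_le_rpow (by positivity) ?_ hp1) ?_
      (sum_nonneg fun z _ => Real.rpow_nonneg (hf z) _) (by positivity)))
    · rw [sum_product]
      calc _ ≤ mass φ y J * ν ^ j := by
            rw [pow_succ']
            exact mul_le_mul_of_nonneg_right (by have := hm y J; linarith) (by positivity)
        _ ≤ _ := by
            rw [mass, sum_mul]
            refine sum_le_sum fun u hu => ?_
            simp only [← mul_sum]
            exact mul_le_mul_of_nonneg_left (h2 u (mem_filter.1 hu).2) (h0 _)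
    · have : #(tup J j) ≤ #{u : P | u ∈ J} ^ j := by
        refine (card_le_card (t := Fintype.piFinset fun _ : Fin j => {u : P | u ∈ J})
          fun c hc => ?_).trans (by simp)
        simpa using (mem_filter.1 hc).2.2
      rw [card_product, pow_succ', ← hc]
      exact_mod_cast Nat.mul_le_mul_left _ this
    · rw [spx, ← Equiv.sum_comp (Equiv.addLeft y), sum_product]
      refine le_trans (sum_le_sum fun u _ => ?_) (sum_le_sum_of_subset_of_nonneg
        (subset_univ ({u : P | u ∈ J} : Finset P)) fun _ _ _ => sum_nonneg fun _ _ =>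
        mul_nonneg (hΦ _) (prod_nonneg fun _ _ => hΦ _))
      refine le_trans (sum_le_sum fun c _ => le_of_eq ?_) (sum_le_sum_of_subset_of_nonneg
        (s := tup J j) (fun c hc => by simpa using (mem_filter.1 hc).2.1) fun _ _ _ =>
        mul_nonneg (hΦ _) (prod_nonneg fun _ _ => hΦ _))
      rw [Real.mul_rpow (h0 _) (prod_nonneg fun _ _ => h0 _), ← Real.finsetProd_rpow _ _ fun _ _ => h0 _]
      rfl
  have h5 := mul_le_mul h4 (pow_le_pow_left₀ (by positivity) h3 r) (by positivity)
    ((by positivity : (0 : ℝ) ≤ _).trans h4)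
  have h6 : j + 1 + r = k + 1 := by omega
  rw [← pow_add, h6, ← Real.rpow_mul_natCast hν0, hp, Real.rpow_natCast, mul_pow, mul_mul_mul_comm,
    ← pow_add, h6, ← Real.rpow_mul_natCast hQ0, hp2, Real.rpow_natCast, hQ, ← pow_mul] at h5
  refine (pow_le_pow_left₀ (sum_nonneg fun _ _ => h0 _) h1 _).trans ?_
  rw [mul_pow, mul_assoc, mul_assoc]
  exact mul_le_mul_of_nonneg_left h5 (by positivity)

end Pool.Agent.H97Z.Kak
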