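import Pool.Agent.H97Z.KakPoly

set_option autoImplicit false
set_option linter.unusedSectionVars false

open Finset

noncomputable section

namespace Pool.Agent.H97Z.Kak

variable {F : Type} [Field F] [Fintype F] [DecidableEq F]

theorem chart_bound {σ : Type} [Fintype σ] [DecidableEq σ] (h : (Option σ → F) → ℝ)
    (h0 : ∀ x, 0 ≤ h x) (b : (σ → F) → σ → F) {N : ℕ} (hN : Fintype.card (Option σ) = N) :
    (Fintype.card F : ℝ) * ∑ u, (∑ τ, h (pt (b u) u τ)) ^ N ≤
      2 * (10 * N) ^ N * (Fintype.card F : ℝ) ^ N * ∑ x, h x ^ N := by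
  have hN1 : N = Fintype.card σ + 1 := by rw [← hN, Fintype.card_option]
  have hN0 : N ≠ 0 := by omega
  set q := Fintype.card F with hq
  have hq0 : (0 : ℝ) < q := by exact_mod_cast Fintype.card_pos
  set S := ∑ x, h x ^ N with hS
  have hS0 : 0 ≤ S := sum_nonneg fun x _ => pow_nonneg (h0 x) _
  rcases hS0.eq_or_lt with hS1 | hS1
  · have : ∀ x, h x = 0 := fun x => pow_eq_zero_iff hN0 |>.1
      ((sum_eq_zero_iff_of_nonneg fun x _ => pow_nonneg (h0 x) _).1 hS1.symm x (mem_univ _))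
    simp [this, hN0, ← hS1]
  set l : ℝ := q / S ^ (N : ℝ)⁻¹ with hl
  have hl0 : 0 < l := by positivity
  have hlN : l ^ N * S = q ^ N := by
    rw [hl, div_pow, Real.rpow_inv_natCast_pow hS0 hN0]
    field_simp
  let g : (Option σ → F) → ℕ := fun x => ⌊l * h x⌋₊
  have h1 := nat_bound g b
  rw [hN, ← hq] at h1
  have h2 : ((∑ x, g x ^ N : ℕ) : ℝ) ≤ q ^ N := by
    rw [← hlN, hS, mul_sum]
    push_cast
    refine sum_le_sum fun x _ => ?_
    rw [← mul_pow]
    exact pow_le_pow_left₀ (Nat.cast_nonneg _) (Nat.floor_le (mul_nonneg hl0.le (h0 x))) _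
  have h3 : (q : ℝ) * ∑ u, (((∑ τ, g (pt (b u) u τ)) / (4 * (N * q)) : ℕ) : ℝ) ^ N ≤ q ^ N := by
    refine le_trans ?_ h2
    exact_mod_cast h1
  have h4 : ∀ u, l ^ N * (∑ τ, h (pt (b u) u τ)) ^ N ≤
      (10 * N * q) ^ N * ((((∑ τ, g (pt (b u) u τ)) / (4 * (N * q)) : ℕ) : ℝ) ^ N + 1) := by
    intro u
    set m := ∑ τ, g (pt (b u) u τ) with hm
    set j := m / (4 * (N * q)) with hj
    have a1 : l * ∑ τ, h (pt (b u) u τ) ≤ m + q := by
      rw [mul_sum]
      refine (sum_le_sum fun τ _ => (Nat.lt_floor_add_one _).le).trans (le_of_eq ?_)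
      rw [sum_add_distrib, hm]
      simp [g, hq]
    have a2 : m < 4 * (N * q) * (j + 1) :=
      Nat.lt_mul_div_succ m (by have : 0 < q := Fintype.card_pos; positivity)
    have a3 : (m : ℝ) ≤ 4 * (N * q) * (j + 1) := by exact_mod_cast a2.le
    have a4 : (1 : ℝ) ≤ N := by exact_mod_cast Nat.one_le_iff_ne_zero.2 hN0
    have a5 : (q : ℝ) ≤ N * q * (j + 1) := by
      have : (0 : ℝ) ≤ j := Nat.cast_nonneg _
      nlinarith [mul_nonneg (mul_nonneg (zero_le_one.trans a4) hq0.le) this]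
    rw [← mul_pow]
    calc _ ≤ (5 * N * q * (j + 1) : ℝ) ^ N :=
          pow_le_pow_left₀ (mul_nonneg hl0.le (sum_nonneg fun _ _ => h0 _)) (by linarith) _
      _ ≤ (5 * N * q) ^ N * (2 ^ N * (j ^ N + 1 ^ N)) := by
          rw [mul_pow]
          refine mul_le_mul_of_nonneg_left ((add_pow_le (Nat.cast_nonneg _) zero_le_one N).trans
            (mul_le_mul_of_nonneg_right (pow_le_pow_right₀ one_le_two (Nat.sub_le _ _))
            (by positivity))) (by positivity)
      _ = _ := by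
          rw [← mul_assoc, ← mul_pow, one_pow]
          congr 2
          ring
  have h5 := sum_le_sum fun u (_ : u ∈ univ) => h4 u
  rw [← mul_sum, ← mul_sum, sum_add_distrib, sum_const, card_univ, Fintype.card_fun, ← hq,
    nsmul_eq_mul, mul_one] at h5
  have h6 : (q : ℝ) * ((q ^ Fintype.card σ : ℕ) : ℝ) = q ^ N := by
    rw [hN1]; push_cast; ring
  have h7 := mul_le_mul_of_nonneg_left h5 hq0.le
  refine le_of_mul_le_mul_left ?_ (pow_pos hl0 N)
  calc _ = q * (l ^ N * ∑ u, (∑ τ, h (pt (b u) u τ)) ^ N) := by ring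
    _ ≤ (10 * N * q) ^ N * (q ^ N + q ^ N) := by
        refine h7.trans ?_
        rw [mul_left_comm, mul_add, h6]
        exact mul_le_mul_of_nonneg_left (by linarith) (by positivity)
    _ = _ := by
        rw [mul_pow (10 * N : ℝ), show l ^ N * (2 * (10 * N) ^ N * q ^ N * S) =
          2 * (10 * N) ^ N * q ^ N * (l ^ N * S) by ring, hlN]
        ring

variable {W : Type} [AddCommGroup W] [Module F W] [Fintype W] [DecidableEq W]

theorem dir_bound {σ : Type} [Fintype σ] [DecidableEq σ] (e : W ≃ₗ[F] (Option σ → F)) (h : W → ℝ)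
    (h0 : ∀ x, 0 ≤ h x) (a : W → W) {N : ℕ} (hN : Fintype.card (Option σ) = N) :
    ∑ w ∈ univ.filter (fun w => e w none ≠ 0), (∑ t : F, h (a w + t • w)) ^ N ≤
      2 * (10 * N) ^ N * (Fintype.card F : ℝ) ^ N * ∑ x, h x ^ N := by
  let d : F → (σ → F) → W := fun s u => e.symm fun o => o.elim s fun i => s * u i
  have h1 : ∑ w ∈ univ.filter (fun w => e w none ≠ 0), (∑ t : F, h (a w + t • w)) ^ N =
      ∑ z ∈ (univ.erase (0 : F)) ×ˢ (univ : Finset (σ → F)),
        (∑ t : F, h (a (d z.1 z.2) + t • d z.1 z.2)) ^ N := by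
    symm
    refine sum_nbij' (fun z => d z.1 z.2) (fun w => (e w none, fun i => e w (some i) / e w none))
      ?_ ?_ ?_ ?_ fun _ _ => rfl
    · intro z hz
      simpa [d] using hz
    · intro w hw
      simpa using hw
    · intro z hz
      have : z.1 ≠ 0 := by simpa using hz
      simp [d, this]
    · intro w hw
      have : e w none ≠ 0 := by simpa using hw
      refine e.injective (funext fun o => ?_)
      rcases o with _ | i
      · simp [d]
      · simp [d, mul_div_cancel₀ _ this]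
  have hq0 : (0 : ℝ) < Fintype.card F := by exact_mod_cast Fintype.card_pos
  rw [h1, sum_product]
  refine le_of_mul_le_mul_left ?_ hq0
  rw [mul_sum]
  refine (sum_le_card_nsmul _ _ (2 * (10 * N) ^ N * (Fintype.card F : ℝ) ^ N * ∑ x, h x ^ N)
    fun s hs => ?_).trans ?_
  · have hs0 : s ≠ 0 := (mem_erase.1 hs).1
    have h2 := chart_bound (fun x => h (e.symm x)) (fun x => h0 _)
      (fun u i => e (a (d s u)) (some i) - e (a (d s u)) none * u i) hN
    rw [show ∑ x, h (e.symm x) ^ N = ∑ x, h x ^ N from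
      e.symm.toEquiv.sum_comp fun x => h x ^ N] at h2
    refine le_of_eq_of_le (congrArg _ (sum_congr rfl fun u _ => congrArg (· ^ N) ?_)) h2
    refine Fintype.sum_equiv ((Equiv.mulRight₀ s hs0).trans (Equiv.addLeft (e (a (d s u)) none)))
      _ _ fun t => congrArg h (e.injective (funext fun o => ?_))
    rcases o with _ | i
    · simp [d, pt]
    · simp [d, pt]
      ring
  · rw [nsmul_eq_mul]
    refine mul_le_mul_of_nonneg_right ?_ (mul_nonneg (by positivity)
      (sum_nonneg fun x _ => pow_nonneg (h0 x) _))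
    exact_mod_cast card_le_univ _

theorem kakeya {d : ℕ} (hW : Module.finrank F W = d + 1) (h : W → ℝ) (h0 : ∀ x, 0 ≤ h x)
    (a : W → W) :
    ∑ w ∈ univ.erase 0, (∑ t : F, h (a w + t • w)) ^ (d + 1) ≤
      (d + 1) * (2 * (10 * (d + 1 : ℕ)) ^ (d + 1) * (Fintype.card F : ℝ) ^ (d + 1) *
        ∑ x, h x ^ (d + 1)) := by
  have hc : Fintype.card (Option (Fin d)) = d + 1 := by simp
  let e : W ≃ₗ[F] (Option (Fin d) → F) :=
    LinearEquiv.ofFinrankEq _ _ (by rw [hW, Module.finrank_fintype_fun_eq_card, hc])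
  have h1 : ∀ o : Option (Fin d), ∑ w ∈ univ.filter (fun w => e w o ≠ 0),
      (∑ t : F, h (a w + t • w)) ^ (d + 1) ≤ _ := fun o => by
    have := dir_bound (e.trans (LinearEquiv.funCongrLeft F F (Equiv.swap none o))) h h0 a hc
    simpa only [LinearEquiv.trans_apply, LinearEquiv.funCongrLeft_apply, LinearMap.funLeft_apply,
      Equiv.swap_apply_left] using this
  have h2 := sum_le_card_nsmul univ _ _ fun o _ => h1 o
  rw [card_univ, hc, nsmul_eq_mul] at h2
  push_cast at h2 ⊢
  refine le_trans ?_ h2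
  simp only [sum_filter]
  rw [sum_comm, ← sum_erase_add _ _ (mem_univ 0)]
  have hp : ∀ w, 0 ≤ (∑ t : F, h (a w + t • w)) ^ (d + 1) := fun w =>
    pow_nonneg (sum_nonneg fun _ _ => h0 _) _
  refine le_add_of_le_of_nonneg (sum_le_sum fun w hw => ?_) (by simp)
  obtain ⟨o, ho⟩ := Function.ne_iff.1 (e.map_ne_zero_iff.2 (mem_erase.1 hw).1)
  refine le_trans (le_of_eq (if_pos ho).symm) (single_le_sum
    (f := fun o => if e w o ≠ 0 then (∑ t : F, h (a w + t • w)) ^ (d + 1) else 0)
    (fun o _ => ?_) (mem_univ o))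
  split_ifs
  · exact hp w
  · exact le_rfl

end Pool.Agent.H97Z.Kak
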