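import Pool.Agent.H97Z.KakProd

set_option autoImplicit false
set_option linter.unusedSectionVars false

open Finset Module

noncomputable section

namespace Pool.Agent.H97Z.Kak

open scoped Classical

variable {F : Type} [Field F] [Fintype F] {P : Type} [AddCommGroup P] [Module F P] [Fintype P]
  {W : Type} [AddCommGroup W] [Module F W] [Fintype W]
  {E : Type} [AddCommGroup E] [Module F E] [Fintype E]

theorem split_bound (e : (W × P) ≃ₗ[F] E) (f : E → ℝ) (h0 : ∀ x, 0 ≤ f x) {k d : ℕ}
    (hk : finrank F P = k) (hW : finrank F W = d + 1) {p : ℝ}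
    (hp : p * (k + 1 : ℕ) = (k + 1 + d : ℕ)) {S : ℝ} (hS : 0 < S) (hfS : ∑ x, f x ^ p ≤ S)
    (a : E → E) :
    ∑ v with (e.symm v).1 ≠ 0, (∑ t : F, ∑ y, f (a v + t • v + e (0, y))) ^ (k + 1 + d) ≤
      (Fintype.card F : ℝ) ^ k * (cst k d * ∑ j ∈ range (k + 1),
        (Fintype.card F : ℝ) ^ (j * d + j + (d + 1)) * S ^ (k - j) *
        ∑ x, ∑ c : Fin j → P with LinearIndependent F c, f x ^ p * ∏ l, f (x + e (0, c l)) ^ p) := by
  have hs : ∀ G : E → ℝ, ∑ x, G x = ∑ z, ∑ y, G (e (z, y)) := fun G => by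
    rw [← Equiv.sum_comp e.toEquiv, Fintype.sum_prod_type]
    rfl
  have h1 : ∀ δ : P, ∑ w ∈ univ.erase 0, (∑ t : F, ∑ y,
      f (a (e (w, δ)) + t • e (w, δ) + e (0, y))) ^ (k + 1 + d) ≤ _ := fun δ => by
    refine le_of_eq_of_le (sum_congr rfl fun w _ => congrArg (· ^ (k + 1 + d))
      (sum_congr rfl fun t _ => ?_)) (prod_bound (fun z y => f (e (z, y))) (fun _ _ => h0 _) hk hW
      hp hS (by rwa [hs] at hfS) fun w => (e.symm (a (e (w, δ)))).1)
    refine Fintype.sum_equiv (Equiv.addLeft ((e.symm (a (e (w, δ)))).2 + t • δ)) _ _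
      fun y => congrArg f (e.symm.injective ?_)
    simp [Prod.ext_iff, add_assoc]
  have h2 := sum_le_card_nsmul univ _ _ fun δ _ => h1 δ
  rw [card_univ, Module.card_eq_pow_finrank (K := F), hk, nsmul_eq_mul, Nat.cast_pow] at h2
  refine le_of_eq_of_le ?_ (h2.trans (le_of_eq ?_))
  · rw [sum_filter, hs, sum_comm]
    refine sum_congr rfl fun δ _ => ?_
    rw [← filter_ne' univ (0 : W), sum_filter]
    simp only [LinearEquiv.symm_apply_apply]
  · congr 2
    refine sum_congr rfl fun j _ => congrArg _ ?_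
    rw [hs]
    refine sum_congr rfl fun z _ => sum_congr rfl fun y _ => sum_congr rfl fun c _ => ?_
    simp only [← map_add, Prod.mk_add_mk, add_zero]

theorem sum_surj {U V : Type} [AddCommGroup U] [AddCommGroup V] [Fintype U] [Fintype V]
    (T : V → U) (hT : ∀ x y, T (x + y) = T x + T y) (hs : Function.Surjective T) (G : U → ℝ) :
    (Fintype.card U : ℝ) * ∑ v, G (T v) = Fintype.card V * ∑ u, G u := by
  choose s hs using hs
  have h1 : ∀ u, ∑ v, G (T v) = ∑ v, G (T v + u) := fun u => by
    rw [← Equiv.sum_comp (Equiv.addRight (s u))]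
    simp [hT, hs]
  rw [← nsmul_eq_mul, ← card_univ, ← sum_const, sum_congr rfl fun u _ => h1 u, sum_comm,
    ← nsmul_eq_mul, ← card_univ, ← sum_const]
  exact sum_congr rfl fun v _ => Equiv.sum_comp (Equiv.addLeft (T v)) G

theorem tuple_sum {k j r : ℕ} (hk : j + r = k) (c : Fin j → Fin k → F) (hc : LinearIndependent F c)
    (Φ : E → ℝ) (x : E) :
    ∑ v : Fin k → E, ∏ l, Φ (x + Fintype.linearCombination F v (c l)) =
      (Fintype.card E : ℝ) ^ r * (∑ y, Φ y) ^ j := by
  obtain ⟨R, hR⟩ := (Fintype.linearCombination F c).exists_leftInverse_of_injective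
    (LinearMap.ker_eq_bot.2 hc.fintypeLinearCombination_injective)
  have h1 := sum_surj (fun (v : Fin k → E) (l : Fin j) => Fintype.linearCombination F v (c l))
    (fun v w => funext fun l => by simp [Fintype.linearCombination_apply, sum_add_distrib])
    (fun u => ⟨fun i => (Fintype.linearCombination F u ∘ₗ R) fun m => if i = m then 1 else 0,
      funext fun l => by
        have := LinearMap.congr_fun hR (Pi.single l 1)
        simp only [LinearMap.comp_apply, Fintype.linearCombination_apply_single, one_smul] at this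
        simp only [Fintype.linearCombination_apply F (fun i => _) (c l),
          ← LinearMap.pi_apply_eq_sum_univ]
        simp [this]⟩) fun u => ∏ l, Φ (x + u l)
  rw [← Fintype.sum_pow fun y => Φ (x + y), show ∑ y, Φ (x + y) = ∑ y, Φ y from
    Equiv.sum_comp (Equiv.addLeft x) Φ] at h1
  have h2 : (0 : ℝ) < (Fintype.card E : ℝ) ^ j := pow_pos (by exact_mod_cast Fintype.card_pos) _
  simp only [Fintype.card_fun, Fintype.card_fin, Nat.cast_pow] at h1
  refine mul_left_cancel₀ h2.ne' (h1.trans ?_)
  rw [← hk]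
  ring

theorem mass_span {k : ℕ} (f : E → ℝ) (a : E) (v : Fin k → E) (hv : LinearIndependent F v) :
    mass f a (Submodule.span F (Set.range v)) =
      ∑ c, f (a + Fintype.linearCombination F v c) := by
  symm
  refine sum_nbij (Fintype.linearCombination F v) (fun c _ => ?_)
    hv.fintypeLinearCombination_injective.injOn (fun x hx => ?_) fun _ _ => rfl
  · simp [← Fintype.range_linearCombination]
  · simpa [← Fintype.range_linearCombination] using hx

theorem tuples_bound (f : E → ℝ) (h0 : ∀ x, 0 ≤ f x) {k d : ℕ} (hE : finrank F E = k + 1 + d)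
    {p : ℝ} (hp : p * (k + 1 : ℕ) = (k + 1 + d : ℕ)) (hS : 0 < ∑ x, f x ^ p)
    (a : (Fin (k + 1) → E) → E) :
    ∑ v : Fin (k + 1) → E with LinearIndependent F v,
      mass f (a v) (Submodule.span F (Set.range v)) ^ (k + 1 + d) ≤ cst k d * (k + 1) *
        ((Fintype.card F : ℝ) ^ (k + 1 + d)) ^ (k + 1) * (∑ x, f x ^ p) ^ (k + 1) := by
  set S := ∑ x, f x ^ p with hSd
  set q : ℝ := (Fintype.card F : ℝ) with hq
  have hq0 : 0 ≤ q := Nat.cast_nonneg _
  have hc := cst_pos k d
  have hΦ : ∀ x, 0 ≤ f x ^ p := fun x => Real.rpow_nonneg (h0 x) _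
  have h1 : ∀ u : Fin k → E, (∑ x : E, if LinearIndependent F (Fin.cons x u : Fin (k + 1) → E) then
      mass f (a (Fin.cons x u)) (Submodule.span F (Set.range (Fin.cons x u : Fin (k + 1) → E))) ^
        (k + 1 + d) else 0) ≤ q ^ k * (cst k d * ∑ j ∈ range (k + 1),
        q ^ (j * d + j + (d + 1)) * S ^ (k - j) *
        ∑ x, ∑ c : Fin j → Fin k → F with LinearIndependent F c,
          f x ^ p * ∏ l, f (x + Fintype.linearCombination F u (c l)) ^ p) := fun u => by
    by_cases hu : LinearIndependent F u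
    · obtain ⟨W, hW⟩ := (LinearMap.range (Fintype.linearCombination F u)).exists_isCompl
      let e : (W × (Fin k → F)) ≃ₗ[F] E := ((LinearEquiv.refl F W).prodCongr
        (LinearEquiv.ofInjective _ hu.fintypeLinearCombination_injective)).trans
        (Submodule.prodEquivOfIsCompl _ _ hW.symm)
      have he : ∀ y, e (0, y) = Fintype.linearCombination F u y := fun y => by simp [e]
      have hd : finrank F W = d + 1 := by
        have := e.finrank_eq
        rw [Module.finrank_prod, Module.finrank_fin_fun, hE] at this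
        omega
      have h2 := split_bound e f h0 (Module.finrank_fin_fun F) hd hp hS le_rfl
        fun x => a (Fin.cons x u)
      simp only [he] at h2
      refine le_trans ?_ h2
      rw [sum_filter]
      refine sum_le_sum fun x _ => ?_
      split_ifs with h3 h4
      · rw [mass_span _ _ _ h3, ← Equiv.sum_comp (Fin.consEquiv fun _ => F), Fintype.sum_prod_type]
        simp [Fintype.linearCombination_apply, Fin.sum_univ_succ, add_assoc]
      · refine absurd ?_ (linearIndependent_finCons.1 h3).2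
        rw [← Fintype.range_linearCombination]
        refine ⟨(e.symm x).2, ?_⟩
        rw [← he, ← not_not.1 h4]
        exact e.apply_symm_apply x
      · exact pow_nonneg (sum_nonneg fun _ _ => sum_nonneg fun _ _ => h0 _) _
      · exact le_rfl
    · rw [sum_eq_zero fun x _ => if_neg fun h => hu (linearIndependent_finCons.1 h).1]
      exact mul_nonneg (by positivity) (mul_nonneg hc.le (sum_nonneg fun _ _ =>
        mul_nonneg (by positivity) (sum_nonneg fun _ _ => sum_nonneg fun _ _ =>
        mul_nonneg (hΦ _) (prod_nonneg fun _ _ => hΦ _))))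
  rw [sum_filter, ← Equiv.sum_comp (Fin.consEquiv fun _ => E), Fintype.sum_prod_type_right]
  refine (sum_le_sum fun u _ => h1 u).trans ?_
  rw [← mul_sum, ← mul_sum, sum_comm, mul_left_comm, mul_assoc, mul_assoc]
  refine mul_le_mul_of_nonneg_left ?_ hc.le
  rw [mul_sum]
  refine (sum_le_card_nsmul _ _ ((q ^ (k + 1 + d)) ^ (k + 1) * S ^ (k + 1))
    fun j hj => ?_).trans (by simp)
  obtain ⟨r, hr⟩ := Nat.exists_eq_add_of_le (Nat.lt_succ_iff.1 (mem_range.1 hj))
  have hcE : (Fintype.card E : ℝ) = q ^ (k + 1 + d) := by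
    rw [Module.card_eq_pow_finrank (K := F), hE, Nat.cast_pow]
  have h2 : ∑ u : Fin k → E, ∑ x, ∑ c : Fin j → Fin k → F with LinearIndependent F c,
      f x ^ p * ∏ l, f (x + Fintype.linearCombination F u (c l)) ^ p ≤
      S * ((q ^ k) ^ j * ((q ^ (k + 1 + d)) ^ r * S ^ j)) := by
    rw [sum_comm, hSd, sum_mul]
    refine sum_le_sum fun x _ => ?_
    rw [sum_comm, sum_congr rfl fun c hc => by
      rw [← mul_sum, tuple_sum hr.symm c (mem_filter.1 hc).2 (fun x => f x ^ p) x, hcE],
      sum_const, nsmul_eq_mul, mul_left_comm]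
    refine mul_le_mul_of_nonneg_left (mul_le_mul_of_nonneg_right ?_ (by positivity)) (hΦ _)
    have := card_le_univ ({c | LinearIndependent F c} : Finset (Fin j → Fin k → F))
    simp only [Fintype.card_fun, Fintype.card_fin] at this
    rw [hq]
    exact_mod_cast this
  rw [← mul_sum, show k - j = r by omega]
  refine (mul_le_mul_of_nonneg_left (mul_le_mul_of_nonneg_left h2 (by positivity))
    (by positivity)).trans (le_of_eq ?_)
  subst hr
  ring

theorem card_tup (J : Submodule F E) (i : ℕ) (hi : i ≤ finrank F J) :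
    ((Fintype.card F : ℝ) ^ finrank F J / 2) ^ i ≤ #(tup J i) ∧
      (#(tup J i) : ℝ) ≤ ((Fintype.card F : ℝ) ^ finrank F J) ^ i := by
  constructor
  · have hm : ∀ J' : Submodule F E, mass (fun _ => 1) 0 J' = (Fintype.card F : ℝ) ^ finrank F J' :=
      fun J' => by simp [mass, card_sub]
    have := tup_bound (fun _ => 1) (fun _ => zero_le_one) 0 J
      (ν := (Fintype.card F : ℝ) ^ finrank F J / 2) (by positivity) (fun J' hJ => by
        have h2 : (2 : ℝ) ≤ Fintype.card F := by exact_mod_cast Fintype.one_lt_card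
        have h3 := pow_le_pow_right₀ (one_le_two.trans h2)
          (Nat.succ_le_of_lt (Submodule.finrank_lt_finrank_of_lt hJ))
        rw [pow_succ] at h3
        have h4 := mul_le_mul_of_nonneg_left h2
          (show 0 ≤ (Fintype.card F : ℝ) ^ finrank F J' by positivity)
        rw [hm, hm]
        linarith) i hi
    simpa using this
  · have : #(tup J i) ≤ #{u : E | u ∈ J} ^ i := by
      refine (card_le_card (t := Fintype.piFinset fun _ : Fin i => {u : E | u ∈ J})
        fun c hc => ?_).trans (by simp)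
      simpa using (mem_filter.1 hc).2.2
    rw [card_sub] at this
    exact_mod_cast this

/-- the Grassmannian -/
def grs (F E : Type) [Field F] [AddCommGroup E] [Module F E] [Fintype (Submodule F E)] (k : ℕ) :
    Finset (Submodule F E) := univ.filter fun J : Submodule F E => finrank F J = k

theorem fiber_sum [Fintype (Submodule F E)] (k : ℕ) (G : Submodule F E → ℝ) :
    ∑ v : Fin k → E with LinearIndependent F v, G (Submodule.span F (Set.range v)) =
      ∑ J ∈ grs F E k, #(tup J k) * G J := by
  rw [← sum_fiberwise_of_maps_to (g := fun v => Submodule.span F (Set.range v))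
    (t := grs F E k) fun v hv => by
      simpa [grs] using finrank_span_eq_card (mem_filter.1 hv).2]
  refine sum_congr rfl fun J hJ => ?_
  rw [sum_congr rfl fun v hv => by rw [(mem_filter.1 hv).2], sum_const, nsmul_eq_mul]
  congr 3
  ext v
  simp only [tup, mem_filter, mem_univ, true_and, and_congr_right_iff]
  refine fun hv => ⟨fun h l => h ▸ Submodule.subset_span ⟨l, rfl⟩, fun h =>
    Submodule.eq_of_le_of_finrank_eq (Submodule.span_le.2 (Set.range_subset_iff.2 h)) ?_⟩
  rw [finrank_span_eq_card hv, (mem_filter.1 hJ).2, Fintype.card_fin]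

theorem plane_bound [Fintype (Submodule F E)] (f : E → ℝ) (h0 : ∀ x, 0 ≤ f x) {k d : ℕ}
    (hE : finrank F E = k + 1 + d) {p : ℝ} (hp : p * (k + 1 : ℕ) = (k + 1 + d : ℕ))
    (a : Submodule F E → E) :
    ∑ J ∈ grs F E (k + 1), mass f (a J) J ^ (k + 1 + d) ≤
      cst k d * (k + 1) * 4 ^ (k + 1) * #(grs F E (k + 1)) *
        (∑ x, f x ^ p) ^ (k + 1) := by
  have hΦ : ∀ x, 0 ≤ f x ^ p := fun x => Real.rpow_nonneg (h0 x) _
  have hc := cst_pos k d
  rcases (show 0 ≤ ∑ x, f x ^ p from sum_nonneg fun _ _ => hΦ _).eq_or_lt with hS | hS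
  · have : ∀ x, f x = 0 := fun x => ((Real.rpow_eq_zero_iff_of_nonneg (h0 x)).1
      ((sum_eq_zero_iff_of_nonneg fun _ _ => hΦ _).1 hS.symm x (mem_univ _))).1
    rw [← hS]
    simp [mass, this]
  have h1 := tuples_bound f h0 hE hp hS fun v => a (Submodule.span F (Set.range v))
  rw [fiber_sum (k + 1) fun J => mass f (a J) J ^ (k + 1 + d)] at h1
  have h2 := fiber_sum (F := F) (E := E) (k + 1) fun _ => 1
  have h3 := (card_tup (⊤ : Submodule F E) (k + 1) (by rw [finrank_top, hE]; omega)).1
  set q : ℝ := (Fintype.card F : ℝ) with hq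
  have hq0 : 0 < q := by rw [hq]; exact_mod_cast Fintype.card_pos
  have h4 : (q ^ (k + 1 + d) / 2) ^ (k + 1) ≤
      #(grs F E (k + 1)) * (q ^ (k + 1)) ^ (k + 1) := by
    rw [finrank_top, hE] at h3
    rw [← nsmul_eq_mul]
    refine h3.trans (le_of_eq_of_le (Eq.trans (by simp [tup]) h2) (sum_le_card_nsmul _ _ _
      fun J hJ => ?_))
    have := (card_tup J (k + 1) (mem_filter.1 hJ).2.ge).2
    rwa [(mem_filter.1 hJ).2, ← mul_one (#(tup J (k + 1)) : ℝ)] at this
  have h5 : (q ^ (k + 1) / 2) ^ (k + 1) * ∑ J ∈ grs F E (k + 1),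
      mass f (a J) J ^ (k + 1 + d) ≤ _ := le_trans (by
    rw [mul_sum]
    refine sum_le_sum fun J hJ => mul_le_mul_of_nonneg_right ?_
      (pow_nonneg (sum_nonneg fun _ _ => h0 _) _)
    have := (card_tup J (k + 1) (mem_filter.1 hJ).2.ge).1
    rwa [(mem_filter.1 hJ).2] at this) h1
  refine le_of_mul_le_mul_left (h5.trans ?_) (by positivity)
  rw [div_pow, div_le_iff₀ (by positivity)] at h4
  refine (mul_le_mul_of_nonneg_right (mul_le_mul_of_nonneg_left h4 (by positivity))
    (by positivity)).trans (le_of_eq ?_)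
  rw [div_pow, show (4 : ℝ) = 2 * 2 by norm_num, mul_pow]
  field_simp

end Pool.Agent.H97Z.Kak
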