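import Mathlib

set_option autoImplicit false

open Finset

noncomputable section

namespace Pool.Agent.H97Z.Kak

section top

open Polynomial

variable {A : Type} [CommRing A]

/-- degree at most `e` with prescribed coefficient in degree `e` -/
def Top (e : ℕ) (p : A[X]) (a : A) : Prop := p.natDegree ≤ e ∧ p.coeff e = a

theorem Top.mul {e e' : ℕ} {p p' : A[X]} {a a' : A} (h : Top e p a) (h' : Top e' p' a') :
    Top (e + e') (p * p') (a * a') :=
  ⟨natDegree_mul_le_of_le h.1 h'.1, by rw [coeff_mul_add_eq_of_natDegree_le h.1 h'.1, h.2, h'.2]⟩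

theorem Top.one : Top 0 (1 : A[X]) 1 := ⟨by simp, by simp⟩

theorem Top.pow {e : ℕ} {p : A[X]} {a : A} (h : Top e p a) (n : ℕ) :
    Top (n * e) (p ^ n) (a ^ n) := by
  induction n with
  | zero => simpa using Top.one
  | succ n ih =>
    rw [Nat.succ_mul, pow_succ, pow_succ]
    exact ih.mul h

theorem Top.prod {ι : Type} (s : Finset ι) {e : ι → ℕ} {p : ι → A[X]} {a : ι → A}
    (h : ∀ i ∈ s, Top (e i) (p i) (a i)) : Top (∑ i ∈ s, e i) (∏ i ∈ s, p i) (∏ i ∈ s, a i) := by
  classical
  induction s using Finset.induction_on with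
  | empty => simpa using Top.one
  | insert i s hi ih =>
    rw [sum_insert hi, prod_insert hi, prod_insert hi]
    exact (h i (mem_insert_self _ _)).mul (ih fun j hj => h j (mem_insert_of_mem hj))

theorem Top.lin (b a : A) : Top 1 (C b + X * C a) a := by
  refine ⟨?_, by simp⟩
  compute_degree

end top

variable {F : Type} [Field F] {σ : Type}

open MvPolynomial in
theorem mem_span_pow {τ : Type} (g : ℕ) (P : MvPolynomial τ F) :
    P ∈ Ideal.span (Set.range fun i => (X i : MvPolynomial τ F) ^ g) ↔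
      ∀ α ∈ P.support, ∃ i, g ≤ α i := by
  have : (Set.range fun i => (X i : MvPolynomial τ F) ^ g) =
      (fun s => monomial s (1 : F)) '' (Set.range fun i => Finsupp.single i g) := by
    rw [← Set.range_comp]
    congr 1
    ext i : 1
    simp [X_pow_eq_monomial]
  rw [this, mem_ideal_span_monomial_image]
  simp [Finsupp.single_le_iff]

/-- truncated polynomial ring -/
abbrev Tr (F : Type) [Field F] (σ : Type) (j : ℕ) : Type :=
  MvPolynomial σ F ⧸ Ideal.span (Set.range fun i => (MvPolynomial.X i : MvPolynomial σ F) ^ j)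

/-- the nilpotent variables -/
def eta (j : ℕ) (i : σ) : Tr F σ j := Ideal.Quotient.mk _ (MvPolynomial.X i)

theorem eta_pow (j : ℕ) (i : σ) : (eta j i : Tr F σ j) ^ j = 0 := by
  rw [eta, ← map_pow, Ideal.Quotient.eq_zero_iff_mem]
  exact Ideal.subset_span ⟨i, rfl⟩

variable [Fintype σ] [DecidableEq σ]

theorem eta_indep (j : ℕ) (c : (σ → Fin j) → F)
    (h : ∑ β, c β • ∏ i, (eta j i : Tr F σ j) ^ (β i : ℕ) = 0) (β : σ → Fin j) : c β = 0 := by
  let ex : (σ → Fin j) → σ →₀ ℕ := fun β => Finsupp.equivFunOnFinite.symm fun i => (β i : ℕ)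
  have hex : Function.Injective ex := fun β γ h => funext fun i =>
    Fin.ext (congrFun (Finsupp.equivFunOnFinite.symm.injective h) i)
  have h1 : ∑ β, c β • ∏ i, (eta j i : Tr F σ j) ^ (β i : ℕ) =
      Ideal.Quotient.mkₐ F _ (∑ β, MvPolynomial.monomial (ex β) (c β)) := by
    rw [map_sum]
    refine sum_congr rfl fun β _ => ?_
    rw [MvPolynomial.monomial_eq, Finsupp.prod_fintype _ _ (by simp), ← MvPolynomial.smul_eq_C_mul,
      map_smul, map_prod]
    simp [ex, eta]
  rw [h1, Ideal.Quotient.mkₐ_eq_mk, Ideal.Quotient.eq_zero_iff_mem, mem_span_pow] at h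
  by_contra hc
  obtain ⟨i, hi⟩ := h (ex β) (by
    rw [MvPolynomial.mem_support_iff, MvPolynomial.coeff_sum, sum_eq_single β]
    · simpa using hc
    · intro γ _ hγ
      rw [MvPolynomial.coeff_monomial, if_neg fun h => hγ (hex h)]
    · simp)
  exact absurd (β i).2 (not_lt.2 hi)

/-- points of a line -/
def pt (b u : σ → F) (τ : F) : Option σ → F := fun o => o.elim τ fun i => b i + τ * u i

variable {A : Type} [CommRing A] [Algebra F A]

/-- substitution along a thickened line -/
def Psi (η : σ → A) (b u : σ → F) : MvPolynomial (Option σ) F →ₐ[F] Polynomial A :=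
  MvPolynomial.aeval fun o : Option σ => o.elim Polynomial.X fun i =>
    Polynomial.C (algebraMap F _ (b i)) + Polynomial.X * Polynomial.C (algebraMap F _ (u i) + η i)

/-- translation -/
def Tl (x : Option σ → F) : MvPolynomial (Option σ) F →ₐ[F] MvPolynomial (Option σ) F :=
  MvPolynomial.aeval fun o => MvPolynomial.X o + MvPolynomial.C (x o)

omit [Fintype σ] [DecidableEq σ] in
theorem psi_dvd (j g : ℕ) (η : σ → A) (hη : ∀ i, η i ^ j = 0) (b u : σ → F) (τ : F) (P : MvPolynomial (Option σ) F)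
    (h : ∀ α ∈ (Tl (pt b u τ) P).support, ∃ o, g ≤ α o) :
    (Polynomial.X - Polynomial.C (algebraMap F A τ)) ^ (g - j) ∣ Psi η b u P := by
  let Φ : MvPolynomial (Option σ) F →ₐ[F] Polynomial A :=
    MvPolynomial.aeval fun o => Psi η b u (MvPolynomial.X o - MvPolynomial.C (pt b u τ o))
  have h1 : Φ.comp (Tl (pt b u τ)) = Psi η b u := by
    refine MvPolynomial.algHom_ext fun o => ?_
    simp [Φ, Tl]
  rw [← h1, AlgHom.comp_apply, ← Ideal.mem_span_singleton]
  have h2 := Ideal.mem_map_of_mem Φ ((mem_span_pow g _).2 h)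
  rw [Ideal.map_span] at h2
  refine Ideal.span_le.2 ?_ h2
  rintro _ ⟨_, ⟨o, rfl⟩, rfl⟩
  rw [SetLike.mem_coe, Ideal.mem_span_singleton, map_pow]
  rcases o with _ | i
  · refine (pow_dvd_pow _ (Nat.sub_le g j)).trans (dvd_of_eq ?_)
    simp [Φ, Psi, pt]
  · have h3 : Φ (MvPolynomial.X (some i)) =
        (Polynomial.X - Polynomial.C (algebraMap F A τ)) *
          Polynomial.C (algebraMap F _ (u i)) + Polynomial.X * Polynomial.C (η i) := by
      simp [Φ, Psi, pt]
      ring
    rw [h3]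
    rcases le_total g j with hg | hg
    · simp [Nat.sub_eq_zero_of_le hg]
    refine (pow_dvd_pow_of_dvd (Dvd.intro _ rfl) _).trans
      ((Commute.all _ _).pow_dvd_add_pow_of_pow_eq_zero_right (n := j) (by omega) ?_)
    rw [mul_pow, ← map_pow, hη, map_zero, mul_zero]

variable [Fintype F] [DecidableEq F]

theorem psi_zero (j e : ℕ) (η : σ → A) (hη : ∀ i, η i ^ j = 0) (g : F → ℕ) (b u : σ → F) (P : MvPolynomial (Option σ) F)
    (h : ∀ τ, ∀ α ∈ (Tl (pt b u τ) P).support, ∃ o, g τ ≤ α o)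
    (he : (Psi η b u P).natDegree ≤ e) (hm : e + Fintype.card F * j < ∑ τ, g τ) :
    Psi η b u P = 0 := by
  rcases subsingleton_or_nontrivial A with h0 | h0
  · exact Subsingleton.elim _ _
  have h1 : ∏ τ, (Polynomial.X - Polynomial.C (algebraMap F A τ)) ^ (g τ - j) ∣
      Psi η b u P := by
    refine Finset.prod_dvd_of_coprime (fun a _ c _ hac => ?_) fun τ _ => psi_dvd j _ η hη b u τ P (h τ)
    refine (Polynomial.isCoprime_X_sub_C_of_isUnit_sub ?_).pow
    rw [← map_sub]
    exact (IsUnit.mk0 _ (sub_ne_zero.2 hac)).map _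
  by_contra h2
  refine (Polynomial.monic_prod_of_monic _ _ fun τ _ =>
    (Polynomial.monic_X_sub_C _).pow _).not_dvd_of_natDegree_lt h2 ?_ h1
  rw [Polynomial.natDegree_prod_of_monic _ _ fun τ _ => (Polynomial.monic_X_sub_C _).pow _]
  simp only [(Polynomial.monic_X_sub_C _).natDegree_pow, Polynomial.natDegree_X_sub_C, mul_one]
  have h3 : ∑ τ, g τ ≤ ∑ τ, (g τ - j + j) := sum_le_sum fun τ _ => le_tsub_add
  rw [sum_add_distrib, sum_const, card_univ, smul_eq_mul] at h3
  omega

/-- linear forms -/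
def lf (i : σ) (c : F) : MvPolynomial (Option σ) F :=
  MvPolynomial.X (some i) - MvPolynomial.C c * MvPolynomial.X none

/-- the test polynomials -/
def Q (e j : ℕ) (u : σ → F) (β : σ → ℕ) : MvPolynomial (Option σ) F :=
  MvPolynomial.X none ^ (e - ∑ i, (β i + ∑ _c ∈ univ.erase (u i), j)) *
    ∏ i, (lf i (u i) ^ β i * ∏ c ∈ univ.erase (u i), lf i c ^ j)

omit [DecidableEq σ] in
theorem top_Q {e j : ℕ} (η : σ → A) (b u₀ u : σ → F) (β : σ → Fin j)
    (he : Fintype.card σ * (Fintype.card F * j) ≤ e) :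
    Top e (Psi η b u₀ (Q e j u fun i => β i))
      (∏ i, ((algebraMap F _ (u₀ i - u i) + η i) ^ (β i : ℕ) *
        ∏ c ∈ univ.erase (u i), (algebraMap F _ (u₀ i - c) + η i) ^ j)) := by
  have h1 : ∀ i c, Top 1 (Psi η b u₀ (lf i c)) (algebraMap F _ (u₀ i - c) + η i) := by
    intro i c
    convert Top.lin (algebraMap F A (b i)) _ using 1
    simp [lf, Psi]
    ring
  have h2 : Top 1 (Psi η b u₀ (MvPolynomial.X none)) 1 := by
    convert Top.lin (0 : A) 1 using 1
    simp [Psi]
  have h3 : ∑ i, ((β i : ℕ) + ∑ _c ∈ univ.erase (u i), j) ≤ e := by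
    refine le_trans (sum_le_card_nsmul _ _ (Fintype.card F * j) fun i _ => ?_) (by simpa using he)
    rw [sum_const, card_erase_of_mem (mem_univ _), card_univ, smul_eq_mul]
    obtain ⟨r, hr⟩ := Nat.exists_eq_succ_of_ne_zero (Fintype.card_ne_zero (α := F))
    have := (β i).2
    rw [hr, Nat.succ_sub_one, Nat.succ_mul]
    omega
  have h4 := (h2.pow (e - ∑ i, ((β i : ℕ) + ∑ _c ∈ univ.erase (u i), j))).mul
    (Top.prod univ fun i _ => ((h1 i (u i)).pow (β i)).mul
      (Top.prod (univ.erase (u i)) fun c _ => (h1 i c).pow j))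
  simp only [mul_one, one_pow, one_mul, Nat.sub_add_cancel h3] at h4
  simpa only [Q, map_mul, map_pow, map_prod] using h4

theorem count_le (g : (Option σ → F) → ℕ) (b : (σ → F) → σ → F) (E : ℕ) (J : ℕ → ℕ)
    (hJ : ∀ e, Fintype.card σ * (Fintype.card F * J e) ≤ e) :
    ∑ e ∈ range E, ∑ _u ∈ univ.filter (fun u : σ → F =>
      e + Fintype.card F * J e < ∑ τ, g (pt (b u) u τ)), J e ^ Fintype.card σ ≤
      ∑ x, g x ^ Fintype.card (Option σ) := by
  classical
  let U : ℕ → Finset (σ → F) := fun e => univ.filter fun u : σ → F =>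
    e + Fintype.card F * J e < ∑ τ, g (pt (b u) u τ)
  let I := Σ e : range E, U e × (σ → Fin (J e))
  let P : (I → F) →ₗ[F] MvPolynomial (Option σ) F :=
    Fintype.linearCombination F fun z => Q z.1 (J z.1) z.2.1 fun i => z.2.2 i
  let L : (I → F) →ₗ[F] ((Σ x : Option σ → F, Option σ → Fin (g x)) → F) :=
    LinearMap.pi fun y => (MvPolynomial.lcoeff F (Finsupp.equivFunOnFinite.symm
      fun o => (y.2 o : ℕ))).comp ((Tl y.1).toLinearMap.comp P)
  have hL : Function.Injective L := by
    rw [injective_iff_map_eq_zero]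
    intro c hc
    by_contra hne
    have hv : ∀ x, ∀ α ∈ (Tl x (P c)).support, ∃ o, g x ≤ α o := by
      intro x α hα
      by_contra hcon
      push Not at hcon
      have := congrFun hc ⟨x, fun o => ⟨α o, hcon o⟩⟩
      refine MvPolynomial.mem_support_iff.1 hα ?_
      simpa [L] using this
    obtain ⟨⟨e₀, u₀, β₀⟩, hz, hmax⟩ := exists_max_image (univ.filter fun z : I => c z ≠ 0)
      (fun z => (z.1 : ℕ)) (by
        obtain ⟨z, hz⟩ := Function.ne_iff.1 hne
        exact ⟨z, by simpa using hz⟩)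
    simp only [mem_filter, mem_univ, true_and] at hz hmax
    have h1 : Psi (eta (F := F) (J e₀)) (b u₀) u₀ (P c) =
        ∑ z : I, c z • Psi (eta (F := F) (J e₀)) (b u₀) u₀ (Q z.1 (J z.1) z.2.1 fun i => z.2.2 i) := by
      simp [P, Fintype.linearCombination_apply]
    have h2 : Psi (eta (F := F) (J e₀)) (b u₀) u₀ (P c) = 0 := by
      refine psi_zero _ e₀ _ (eta_pow _) (fun τ => g (pt (b u₀) u₀ τ)) _ _ _ (fun τ => hv _) ?_
        (mem_filter.1 u₀.2).2
      rw [h1]
      refine Polynomial.natDegree_sum_le_of_forall_le _ _ fun z _ => ?_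
      by_cases h : c z = 0
      · simp [h]
      · exact (Polynomial.natDegree_smul_le _ _).trans
          ((top_Q _ _ _ _ z.2.2 (hJ _)).1.trans (hmax z h))
    have h3 := congrArg (fun p => Polynomial.coeff p e₀) (h1.symm.trans h2)
    simp only [Polynomial.finsetSum_coeff, Polynomial.coeff_smul, Polynomial.coeff_zero] at h3
    rw [Fintype.sum_sigma, sum_eq_single e₀, Fintype.sum_prod_type, sum_eq_single u₀] at h3
    · simp only [(top_Q _ _ _ _ _ (hJ _)).2, sub_self, map_zero, zero_add, prod_mul_distrib,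
        ← smul_mul_assoc, ← sum_mul] at h3
      have hu : IsUnit (∏ i, ∏ c ∈ univ.erase (u₀.1 i),
          (algebraMap F (Tr F σ (J e₀)) (u₀.1 i - c) + eta (J e₀) i) ^ J e₀) := by
        refine IsUnit.prod_iff.2 fun i _ => IsUnit.prod_iff.2 fun c hc => IsUnit.pow _ ?_
        exact IsNilpotent.isUnit_add_left_of_commute ⟨_, eta_pow _ i⟩
          ((IsUnit.mk0 _ (sub_ne_zero.2 (mem_erase.1 hc).1.symm)).map _) (Commute.all _ _)
      exact hz (eta_indep _ (fun β => c ⟨e₀, u₀, β⟩) ((hu.mul_left_eq_zero).1 h3) β₀)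
    · intro u _ hu
      refine sum_eq_zero fun β _ => ?_
      obtain ⟨i, hi⟩ := Function.ne_iff.1 (Subtype.coe_ne_coe.2 hu)
      rw [(top_Q _ _ _ _ _ (hJ _)).2, prod_eq_zero (mem_univ i), smul_zero]
      rw [prod_eq_zero (mem_erase.2 ⟨hi.symm, mem_univ _⟩), mul_zero]
      rw [sub_self, map_zero, zero_add, eta_pow]
    · simp
    · intro e _ he
      refine sum_eq_zero fun z _ => ?_
      by_cases h : c ⟨e, z⟩ = 0
      · simp [h]
      · rw [Polynomial.coeff_eq_zero_of_natDegree_lt, smul_zero]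
        exact (top_Q _ _ _ _ z.2 (hJ _)).1.trans_lt
          (lt_of_le_of_ne (hmax _ h) (Subtype.coe_ne_coe.2 he))
    · simp
  have h := LinearMap.finrank_le_finrank_of_injective hL
  simp only [Module.finrank_fintype_fun_eq_card, I, Fintype.card_sigma, Fintype.card_prod,
    Fintype.card_fun, Fintype.card_fin, Fintype.card_coe] at h
  rw [← sum_coe_sort (range E)]
  simpa only [sum_const, smul_eq_mul] using h

theorem nat_bound (g : (Option σ → F) → ℕ) (b : (σ → F) → σ → F) :
    Fintype.card F * ∑ u, ((∑ τ, g (pt (b u) u τ)) /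
      (4 * (Fintype.card (Option σ) * Fintype.card F))) ^ Fintype.card (Option σ) ≤
      ∑ x, g x ^ Fintype.card (Option σ) := by
  set q := Fintype.card F with hq
  set N := Fintype.card (Option σ) with hN
  have hN1 : N = Fintype.card σ + 1 := Fintype.card_option
  have hJ : ∀ e, N * (q * (e / (N * q))) ≤ e := fun e => by
    rw [← mul_assoc]; exact Nat.mul_div_le _ _
  refine le_trans ?_ (count_le g b (∑ u, ∑ τ, g (pt (b u) u τ)) (fun e => e / (N * q))
    fun e => le_trans (Nat.mul_le_mul_right _ (by omega)) (hJ e))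
  simp only [sum_filter]
  rw [sum_comm, mul_sum]
  refine sum_le_sum fun u _ => ?_
  have h0 : ∑ τ, g (pt (b u) u τ) ≤ ∑ u, ∑ τ, g (pt (b u) u τ) :=
    single_le_sum (f := fun u => ∑ τ, g (pt (b u) u τ)) (fun _ _ => Nat.zero_le _) (mem_univ u)
  set m := ∑ τ, g (pt (b u) u τ) with hm
  set j := m / (4 * (N * q)) with hj
  have hj' : j = m / 4 / (N * q) := by rw [Nat.div_div_eq_div_mul]
  have h1 : Ico (m / 4) (2 * (m / 4)) ⊆ range (∑ u, ∑ τ, g (pt (b u) u τ)) := fun e he => by
    rw [mem_Ico] at he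
    rw [mem_range]
    omega
  refine le_trans ?_ (sum_le_sum_of_subset h1)
  refine le_trans ?_ (card_nsmul_le_sum _ _ (j ^ Fintype.card σ) fun e he => ?_)
  · rw [Nat.card_Ico, smul_eq_mul, hN1, pow_succ', ← mul_assoc]
    refine Nat.mul_le_mul_right _ ?_
    have h2 := hJ (m / 4)
    rw [← hj'] at h2
    have h3 : q * j ≤ N * (q * j) := Nat.le_mul_of_pos_left _ (by omega)
    omega
  · rw [mem_Ico] at he
    have h2 := hJ e
    have h3 : q * (e / (N * q)) ≤ N * (q * (e / (N * q))) := Nat.le_mul_of_pos_left _ (by omega)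
    rw [if_pos (show e + q * (e / (N * q)) < m by omega), hj']
    exact Nat.pow_le_pow_left (Nat.div_le_div_right he.1) _

end Pool.Agent.H97Z.Kak
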