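import Pool.Agent.H97Z.KakMax
import Pool.Agent.H97Z.KakLeaf

set_option autoImplicit false
set_option linter.unusedSectionVars false

open Finset Module

noncomputable section

namespace Pool.Agent.H97Z.Kak

open scoped Classical

theorem amgm3 {u v w : ℝ} (hu : 0 ≤ u) (hv : 0 ≤ v) (hw : 0 ≤ w) {N r j n : ℕ}
    (hn : N + r + j = n) (hn0 : n ≠ 0) :
    u ^ N * v ^ r * w ^ j ≤ (N / n * u + r / n * v + j / n * w) ^ n := by
  have hn1 : (n : ℝ) ≠ 0 := by exact_mod_cast hn0
  have h := Real.geom_mean_le_arith_mean3_weighted (w₁ := N / n) (w₂ := r / n) (w₃ := j / n)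
    (by positivity) (by positivity) (by positivity) hu hv hw
    (by rw [← add_div, ← add_div, div_eq_one_iff_eq hn1]; exact_mod_cast hn)
  have h2 := pow_le_pow_left₀ (by positivity) h n
  rwa [mul_pow, mul_pow, ← Real.rpow_mul_natCast hu, ← Real.rpow_mul_natCast hv,
    ← Real.rpow_mul_natCast hw, div_mul_cancel₀ _ hn1, div_mul_cancel₀ _ hn1,
    div_mul_cancel₀ _ hn1, Real.rpow_natCast, Real.rpow_natCast, Real.rpow_natCast] at h2

theorem holder3 {ι : Type} [Fintype ι] [Nonempty ι] (x a b : ι → ℝ) (hx : ∀ t, 0 ≤ x t)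
    (ha : ∀ t, 0 ≤ a t) (hb : ∀ t, 0 ≤ b t) {K β : ℝ} (hK : 0 ≤ K) (hβ : 0 < β)
    (hbβ : ∑ t, b t ≤ β) {N r j n : ℕ} (hn : N + r + j = n) (hN : N ≠ 0)
    (h : ∀ t, x t ^ n ≤ K * a t ^ N * b t ^ r) :
    (∑ t, x t) ^ n ≤ K * (∑ t, a t) ^ N * β ^ r * (Fintype.card ι : ℝ) ^ j := by
  have hn0 : n ≠ 0 := by omega
  have hn1 : (0 : ℝ) < n := by positivity
  set α := ∑ t, a t with hα
  set m : ℝ := (Fintype.card ι : ℝ) with hm
  have hm0 : 0 < m := by rw [hm]; exact_mod_cast Fintype.card_pos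
  rcases (show 0 ≤ α from sum_nonneg fun t _ => ha t).eq_or_lt with h0 | h0
  · have h1 : ∀ t, a t = 0 := fun t =>
      (sum_eq_zero_iff_of_nonneg fun t _ => ha t).1 h0.symm t (mem_univ _)
    have h2 : ∀ t, x t = 0 := fun t => by
      have := h t
      rw [h1, zero_pow hN, mul_zero, zero_mul] at this
      exact pow_eq_zero_iff hn0 |>.1 (le_antisymm this (pow_nonneg (hx t) _))
    simp [h2, ← h0, hN, hn0]
  set R := K * α ^ N * β ^ r * m ^ j with hR
  have hR0 : 0 ≤ R := by positivity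
  set T := R ^ (n : ℝ)⁻¹ with hT
  have hT0 : 0 ≤ T := by positivity
  have hTn : T ^ n = R := Real.rpow_inv_natCast_pow hR0 hn0
  have h1 : ∀ t, x t ≤ T * (N / n * (a t / α) + r / n * (b t / β) + j / n * (1 / m)) := fun t => by
    have a1 := ha t
    have b1 := hb t
    refine le_of_pow_le_pow_left₀ hn0 (by positivity) ((h t).trans ?_)
    rw [mul_pow, hTn]
    refine le_trans (le_of_eq ?_) (mul_le_mul_of_nonneg_left
      (amgm3 (by positivity) (by positivity) (by positivity) hn hn0) hR0)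
    rw [hR, div_pow, div_pow, div_pow, one_pow]
    field_simp
  rw [← hTn]
  refine pow_le_pow_left₀ (sum_nonneg fun t _ => hx t) ((sum_le_sum fun t _ => h1 t).trans ?_) _
  rw [← mul_sum]
  refine mul_le_of_le_one_right hT0 ?_
  rw [sum_add_distrib, sum_add_distrib, ← mul_sum, ← mul_sum, ← sum_div, ← sum_div, sum_const,
    card_univ, nsmul_eq_mul, ← hm, ← hα, div_self h0.ne']
  have h2 : (∑ t, b t) / β ≤ 1 := (div_le_one hβ).2 hbβ
  have h3 : (N : ℝ) / n + r / n + j / n = 1 := by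
    rw [← add_div, ← add_div, div_eq_one_iff_eq hn1.ne']; exact_mod_cast hn
  have h4 : m * (j / n * (1 / m)) = j / n := by field_simp
  have h5 := mul_le_mul_of_nonneg_left h2 (show (0 : ℝ) ≤ r / n by positivity)
  linarith

variable {F : Type} [Field F] [Fintype F] {P : Type} [AddCommGroup P] [Module F P] [Fintype P]
  {W : Type} [AddCommGroup W] [Module F W] [Fintype W]

theorem spx_nonneg (j : ℕ) {Φ : P → ℝ} (h : ∀ x, 0 ≤ Φ x) : 0 ≤ spx F j Φ :=
  sum_nonneg fun _ _ => sum_nonneg fun _ _ => mul_nonneg (h _) (prod_nonneg fun _ _ => h _)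

/-- the constant -/
def cst (k d : ℕ) : ℝ :=
  (k + 1) ^ (k + d) * ((2 ^ (k + 1)) ^ (k + 1 + d) * ((d + 1) * (2 * (10 * (d + 1 : ℕ)) ^ (d + 1))))

theorem cst_pos (k d : ℕ) : 0 < cst k d := by unfold cst; positivity

theorem prod_bound (G : W → P → ℝ) (h0 : ∀ z y, 0 ≤ G z y) {k d : ℕ} (hk : finrank F P = k)
    (hW : finrank F W = d + 1) {p : ℝ} (hp : p * (k + 1 : ℕ) = (k + 1 + d : ℕ)) {S : ℝ}
    (hS : 0 < S) (hGS : ∑ z, ∑ y, G z y ^ p ≤ S) (a : W → W) :
    ∑ w ∈ univ.erase 0, (∑ t : F, ∑ y, G (a w + t • w) y) ^ (k + 1 + d) ≤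
      cst k d * ∑ j ∈ range (k + 1), (Fintype.card F : ℝ) ^ (j * d + j + (d + 1)) * S ^ (k - j) *
        ∑ z, spx F j fun y => G z y ^ p := by
  choose j r hjr hb using fun z => leaf_bound (G z) (h0 z) hk hp
  have hΦ : ∀ z y, 0 ≤ G z y ^ p := fun z y => Real.rpow_nonneg (h0 z y) _
  have hB : ∀ i z, 0 ≤ spx F i fun y => G z y ^ p := fun i z => spx_nonneg i (hΦ z)
  let g : ℕ → W → ℝ := fun i z => if j z = i then ∑ y, G z y else 0
  have hg0 : ∀ i z, 0 ≤ g i z := fun i z => by
    simp only [g]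
    split_ifs
    · exact sum_nonneg fun _ _ => h0 _ _
    · exact le_rfl
  have hg : ∀ z, ∑ y, G z y = ∑ i ∈ range (k + 1), g i z := fun z => by
    have := hjr z
    simp only [g, sum_ite_eq, mem_range]
    rw [if_pos (by omega)]
  let A : ℕ → W → ℝ := fun i z => (spx F i fun y => G z y ^ p) ^ ((d + 1 : ℕ) : ℝ)⁻¹
  have hA0 : ∀ i z, 0 ≤ A i z := fun i z => Real.rpow_nonneg (hB i z) _
  have hA : ∀ i z, A i z ^ (d + 1) = spx F i fun y => G z y ^ p := fun i z =>
    Real.rpow_inv_natCast_pow (hB i z) (by omega)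
  have h1 : ∀ i ∈ range (k + 1), ∀ w ∈ univ.erase (0 : W),
      (∑ t : F, g i (a w + t • w)) ^ (k + 1 + d) ≤ (2 ^ (k + 1)) ^ (k + 1 + d) *
        (Fintype.card F : ℝ) ^ (i * d) * (∑ t : F, A i (a w + t • w)) ^ (d + 1) * S ^ (k - i) *
        (Fintype.card F : ℝ) ^ i := fun i hi w hw => by
    have hi' := mem_range.1 hi
    refine holder3 _ _ (fun t : F => ∑ y, G (a w + t • w) y ^ p) (fun _ => hg0 _ _)
      (fun _ => hA0 _ _) (fun _ => sum_nonneg fun _ _ => hΦ _ _) (by positivity) hS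
      (le_trans ?_ hGS) (by omega) (by omega) fun t => ?_
    · have hinj : Function.Injective fun t : F => a w + t • w := fun s t h =>
        smul_left_injective F (mem_erase.1 hw).1 (add_left_cancel h)
      exact (sum_map univ ⟨_, hinj⟩ fun z => ∑ y, G z y ^ p).symm.le.trans
        (sum_le_sum_of_subset_of_nonneg (subset_univ _) fun _ _ _ => sum_nonneg fun _ _ => hΦ _ _)
    · rw [hA]
      simp only [g]
      split_ifs with h
      · have h2 := hb (a w + t • w)
        have h3 := hjr (a w + t • w)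
        rwa [h, show r (a w + t • w) = k - i by omega] at h2
      · rw [zero_pow (by omega)]
        exact mul_nonneg (mul_nonneg (by positivity) (hB _ _))
          (pow_nonneg (sum_nonneg fun _ _ => hΦ _ _) _)
  calc _ ≤ ∑ w ∈ univ.erase (0 : W), (k + 1 : ℝ) ^ (k + d) *
        ∑ i ∈ range (k + 1), (∑ t : F, g i (a w + t • w)) ^ (k + 1 + d) := by
        refine sum_le_sum fun w _ => ?_
        simp only [hg]
        rw [sum_comm, show k + 1 + d = k + d + 1 by omega]
        simpa using pow_sum_le_card_mul_sum_pow (s := range (k + 1))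
          (f := fun i => ∑ t : F, g i (a w + t • w)) (fun _ _ => sum_nonneg fun _ _ => hg0 _ _) (k + d)
    _ ≤ _ := by
        rw [← mul_sum, sum_comm, cst, mul_assoc]
        refine mul_le_mul_of_nonneg_left ?_ (by positivity)
        rw [mul_sum]
        refine sum_le_sum fun i hi => (sum_le_sum (h1 i hi)).trans ?_
        have h2 := kakeya hW (A i) (hA0 i) a
        simp only [hA] at h2
        rw [← sum_mul, ← sum_mul, ← mul_sum]
        refine (mul_le_mul_of_nonneg_right (mul_le_mul_of_nonneg_right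
          (mul_le_mul_of_nonneg_left h2 (by positivity)) (by positivity)) (by positivity)).trans
          (le_of_eq ?_)
        ring

end Pool.Agent.H97Z.Kak
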