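import Pool.Agent.H97Z.SecCauchy

set_option autoImplicit false

open Complex Filter Topology MeasureTheory Set

noncomputable section

namespace Pool.Agent.H97Z.Sec

/-- A multiplier system: separating functionals with times, such that sequences of bounded
variation are multipliers. -/
structure MS (X : Type) [NormedAddCommGroup X] [NormedSpace ℂ X] (ι : Type) where
  φ : ι → X →L[ℂ] ℂ
  τ : ι → ℕ
  C : ℝ
  C0 : 0 ≤ C
  sep : ∀ x, (∀ n, φ n x = 0) → x = 0
  mult : ∀ (g : ℕ → ℂ) (S V : ℝ), (∀ k, ‖g k‖ ≤ S) →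
    (∀ N, ∑ k ∈ Finset.range N, ‖g k - g (k + 1)‖ ≤ V) →
    ∃ T : X →L[ℂ] X, ‖T‖ ≤ C * (S + V) ∧ ∀ n x, φ n (T x) = g (τ n) * φ n x
  dense : Dense {x | ∃ N, ∀ n, N ≤ τ n → φ n x = 0}

variable {X : Type} [NormedAddCommGroup X] [NormedSpace ℂ X] {ι : Type} (M : MS X ι)

/-- the eigenvalues -/
def mu (k : ℕ) : ℝ := 2 ^ k

theorem one_le_mu (k : ℕ) : 1 ≤ mu k := one_le_pow₀ (by norm_num)

theorem mu_pos (k : ℕ) : 0 < mu k := lt_of_lt_of_le one_pos (one_le_mu k)

theorem mu_mono : Monotone mu := fun _ _ h => pow_le_pow_right₀ (by norm_num) h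

namespace MS

def IsMult (T : X →L[ℂ] X) (g : ℕ → ℂ) : Prop := ∀ n x, M.φ n (T x) = g (M.τ n) * M.φ n x

theorem ext' {x y : X} (h : ∀ n, M.φ n x = M.φ n y) : x = y :=
  sub_eq_zero.1 (M.sep _ fun n => by rw [map_sub, h, sub_self])

theorem IsMult.unique {M : MS X ι} {T T' : X →L[ℂ] X} {g : ℕ → ℂ} (h : M.IsMult T g)
    (h' : M.IsMult T' g) : T = T' := by
  ext x
  exact M.ext' fun n => by rw [h, h']

theorem mult_fin (g : ℕ → ℂ) (N : ℕ) (hg : ∀ k, N ≤ k → g k = 0) :
    ∃ T : X →L[ℂ] X, ‖T‖ ≤ M.C * (3 * ∑ k ∈ Finset.range N, ‖g k‖) ∧ M.IsMult T g := by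
  set S := ∑ k ∈ Finset.range N, ‖g k‖ with hS
  have h1 : ∀ L, ∑ k ∈ Finset.range L, ‖g k‖ ≤ S := by
    intro L
    rcases le_total L N with h | h
    · exact Finset.sum_le_sum_of_subset_of_nonneg (Finset.range_mono h) fun _ _ _ => norm_nonneg _
    · rw [hS, ← Finset.sum_subset (Finset.range_mono h)]
      intro k _ hk
      rw [hg k (by simpa using hk), norm_zero]
  obtain ⟨T, h2, h3⟩ := M.mult g S (2 * S) (fun k =>
    (Finset.single_le_sum (f := fun k => ‖g k‖) (fun _ _ => norm_nonneg _)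
      (Finset.self_mem_range_succ k)).trans (h1 (k + 1))) (fun L => by
    refine (Finset.sum_le_sum fun k _ => norm_sub_le _ _).trans ?_
    rw [Finset.sum_add_distrib]
    have h4 := h1 (L + 1)
    rw [Finset.sum_range_succ'] at h4
    have := h1 L
    have := norm_nonneg (g 0)
    linarith)
  exact ⟨T, by rw [show 3 * S = S + 2 * S by ring]; exact h2, h3⟩

theorem mult_anti (g : ℕ → ℝ) (hg : Antitone g) (h0 : ∀ k, 0 ≤ g k) (h1 : ∀ k, g k ≤ 1) :
    ∃ T : X →L[ℂ] X, ‖T‖ ≤ M.C * 2 ∧ M.IsMult T (fun k => g k) := by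
  obtain ⟨T, h2, h3⟩ := M.mult (fun k => g k) 1 1 (fun k => by
    rw [Complex.norm_real, Real.norm_of_nonneg (h0 k)]; exact h1 k) (fun L => by
    have : ∀ k, ‖(g k : ℂ) - g (k + 1)‖ = g k - g (k + 1) := fun k => by
      rw [← Complex.ofReal_sub, Complex.norm_real,
        Real.norm_of_nonneg (sub_nonneg.2 (hg (Nat.le_succ k)))]
    simp only [this]
    rw [Finset.sum_range_sub']
    linarith [h0 L, h1 0])
  exact ⟨T, by rw [show (2 : ℝ) = 1 + 1 by norm_num]; exact h2, h3⟩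

theorem strong {α : Type} {l : Filter α} {T : α → X →L[ℂ] X} {g : α → ℕ → ℂ} {T₀ : X →L[ℂ] X}
    {g₀ : ℕ → ℂ} {K : ℝ} (hT : ∀ᶠ a in l, ‖T a‖ ≤ K ∧ M.IsMult (T a) (g a)) (h₀ : M.IsMult T₀ g₀)
    (hg : ∀ k, Tendsto (fun a => g a k) l (𝓝 (g₀ k))) (y : X) :
    Tendsto (fun a => T a y) l (𝓝 (T₀ y)) := by
  have key : ∀ z ∈ {x | ∃ N, ∀ n, N ≤ M.τ n → M.φ n x = 0},
      Tendsto (fun a => T a z) l (𝓝 (T₀ z)) := by
    rintro z ⟨N, hN⟩
    rw [tendsto_iff_norm_sub_tendsto_zero]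
    have t1 : Tendsto (fun a => M.C * (3 * ∑ k ∈ Finset.range N, ‖g a k - g₀ k‖) * ‖z‖) l
        (𝓝 (M.C * (3 * ∑ k ∈ Finset.range N, 0) * ‖z‖)) :=
      (((tendsto_finsetSum _ fun k _ =>
        tendsto_iff_norm_sub_tendsto_zero.1 (hg k)).const_mul 3).const_mul _).mul_const _
    simp only [Finset.sum_const_zero, mul_zero, zero_mul] at t1
    refine squeeze_zero' (Eventually.of_forall fun _ => norm_nonneg _) ?_ t1
    filter_upwards [hT] with a ha
    obtain ⟨U, h1, h2⟩ := M.mult_fin (fun k => if k < N then g a k - g₀ k else 0) N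
      (fun k hk => if_neg (not_lt.2 hk))
    have h3 : T a z - T₀ z = U z := M.ext' fun n => by
      rw [map_sub, ha.2, h₀, h2]
      by_cases h : M.τ n < N
      · simp only [if_pos h]; ring
      · simp [hN n (not_lt.1 h)]
    rw [h3]
    refine (U.le_opNorm z).trans (mul_le_mul_of_nonneg_right (h1.trans (le_of_eq ?_))
      (norm_nonneg _))
    congr 2
    exact Finset.sum_congr rfl fun k hk => by rw [if_pos (Finset.mem_range.1 hk)]
  rw [Metric.tendsto_nhds]
  intro ε hε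
  set L := |K| + ‖T₀‖ + 1 with hL
  have hL0 : 0 < L := by positivity
  obtain ⟨z, hz1, hz2⟩ := Metric.mem_closure_iff.1 (M.dense y) (ε / 2 / L) (by positivity)
  filter_upwards [hT, Metric.tendsto_nhds.1 (key z hz1) (ε / 2) (by positivity)] with a ha hb
  rw [dist_eq_norm] at hz2 hb ⊢
  have e : T a y - T₀ y = T a (y - z) + (T a z - T₀ z) - T₀ (y - z) := by
    simp only [map_sub]; abel
  have h1 : ‖T a (y - z)‖ ≤ |K| * ‖y - z‖ := ((T a).le_opNorm _).trans
    (mul_le_mul_of_nonneg_right (ha.1.trans (le_abs_self K)) (norm_nonneg _))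
  have h2 := T₀.le_opNorm (y - z)
  have h3 : L * ‖y - z‖ ≤ ε / 2 := by
    have := mul_le_mul_of_nonneg_left hz2.le hL0.le
    rwa [mul_div_cancel₀ _ hL0.ne'] at this
  rw [e]
  have h4 := norm_sub_le (T a (y - z) + (T a z - T₀ z)) (T₀ (y - z))
  have h5 := norm_add_le (T a (y - z)) (T a z - T₀ z)
  have h6 := norm_nonneg (y - z)
  nlinarith

/-- the graph relation -/
def Gr (x y : X) : Prop := ∀ n, M.φ n y = mu (M.τ n) * M.φ n x

def dom : Submodule ℂ X where
  carrier := {x | ∃ y, M.Gr x y}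
  add_mem' := by
    rintro a b ⟨y, hy⟩ ⟨z, hz⟩
    exact ⟨y + z, fun n => by rw [map_add, map_add, hy, hz]; ring⟩
  zero_mem' := ⟨0, fun n => by simp⟩
  smul_mem' := by
    rintro c a ⟨y, hy⟩
    exact ⟨c • y, fun n => by rw [map_smul, map_smul, hy]; simp; ring⟩

theorem dom_spec (x : M.dom) : M.Gr x (Exists.choose x.2) := Exists.choose_spec x.2

/-- the operator -/
def A : X →ₗ.[ℂ] X where
  domain := M.dom
  toFun :=
    { toFun := fun x => Exists.choose x.2
      map_add' := fun x y => M.ext' fun n => by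
        rw [map_add, M.dom_spec, M.dom_spec, M.dom_spec, Submodule.coe_add, map_add]; ring
      map_smul' := fun c x => M.ext' fun n => by
        rw [M.dom_spec, RingHom.id_apply, map_smul, M.dom_spec, Submodule.coe_smul, map_smul]
        simp; ring }

theorem A_spec (x : M.A.domain) (n : ι) : M.φ n (M.A x) = mu (M.τ n) * M.φ n x :=
  M.dom_spec x n

theorem res_mult {ω : ℝ} (h0 : 0 < ω) (h1 : ω < Real.pi) {l : ℂ} (hl : l ∉ Sector ω) :
    ∃ T : X →L[ℂ] X, ‖T‖ ≤ M.C * ((cst ω)⁻¹ + (cst ω)⁻¹ ^ 2) / (1 + ‖l‖) ∧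
      M.IsMult T (fun k => (l - mu k)⁻¹) := by
  have hc := cst_pos h0 h1
  have hd : ∀ k, cst ω * (‖l‖ + mu k) ≤ ‖l - mu k‖ := fun k => dist_ge h0 hl (mu_pos k).le
  have hp : ∀ k, 0 < ‖l‖ + mu k := fun k => by have := mu_pos k; positivity
  have hne : ∀ k, l - mu k ≠ 0 := fun k h => by
    have := hd k
    rw [h, norm_zero] at this
    have := mul_pos hc (hp k)
    linarith
  obtain ⟨T, h2, h3⟩ := M.mult (fun k => (l - mu k)⁻¹) ((cst ω)⁻¹ / (1 + ‖l‖))
    ((cst ω)⁻¹ ^ 2 / (1 + ‖l‖)) (fun k => by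
      rw [norm_inv, div_eq_mul_inv, ← mul_inv]
      refine inv_anti₀ (by positivity) (le_trans ?_ (hd k))
      exact mul_le_mul_of_nonneg_left (by linarith [one_le_mu k]) hc.le) (fun L => by
      have h4 : ∀ k, ‖(l - mu k)⁻¹ - (l - mu (k + 1))⁻¹‖ ≤
          (cst ω)⁻¹ ^ 2 * ((‖l‖ + mu k)⁻¹ - (‖l‖ + mu (k + 1))⁻¹) := by
        intro k
        have e1 : (l - mu k)⁻¹ - (l - mu (k + 1))⁻¹ =
            ((mu k - mu (k + 1) : ℝ) : ℂ) * ((l - mu k)⁻¹ * (l - mu (k + 1))⁻¹) := by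
          have := hne k
          have := hne (k + 1)
          push_cast
          field_simp
          ring
        have e2 : (cst ω)⁻¹ ^ 2 * ((‖l‖ + mu k)⁻¹ - (‖l‖ + mu (k + 1))⁻¹) =
            (mu (k + 1) - mu k) * ((cst ω * (‖l‖ + mu k))⁻¹ * (cst ω * (‖l‖ + mu (k + 1)))⁻¹) := by
          have := hp k
          have := hp (k + 1)
          field_simp
          ring
        have hm := mu_mono (Nat.le_succ k)
        rw [e1, e2, norm_mul, norm_mul, norm_inv, norm_inv, Complex.norm_real, Real.norm_eq_abs,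
          abs_sub_comm, abs_of_nonneg (sub_nonneg.2 hm)]
        refine mul_le_mul_of_nonneg_left (mul_le_mul ?_ ?_ (by positivity) ?_) (sub_nonneg.2 hm)
        · exact inv_anti₀ (mul_pos hc (hp k)) (hd k)
        · exact inv_anti₀ (mul_pos hc (hp _)) (hd _)
        · exact (inv_pos.2 (mul_pos hc (hp k))).le
      refine (Finset.sum_le_sum fun k _ => h4 k).trans ?_
      rw [← Finset.mul_sum, Finset.sum_range_sub' (fun k => (‖l‖ + mu k)⁻¹), div_eq_mul_inv]
      refine mul_le_mul_of_nonneg_left ?_ (by positivity)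
      have := inv_pos.2 (hp L)
      have e : ‖l‖ + mu 0 = 1 + ‖l‖ := by simp [mu, add_comm]
      rw [e]
      linarith)
  exact ⟨T, by rw [mul_div_assoc, add_div]; exact h2, h3⟩

theorem sub_mu_ne {ω : ℝ} (h0 : 0 < ω) {l : ℂ} (hl : l ∉ Sector ω) (k : ℕ) : l - mu k ≠ 0 :=
  fun h => hl (by rw [sub_eq_zero.1 h]; exact ofReal_mem_sector h0 (mu_pos k))

theorem isRes_of_mult {l : ℂ} (hl : ∀ k, l - mu k ≠ 0) {T : X →L[ℂ] X}
    (hT : M.IsMult T (fun k => (l - mu k)⁻¹)) : IsResolventAt M.A l T := by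
  refine ⟨fun y => ⟨⟨l • T y - y, fun n => ?_⟩, M.ext' fun n => ?_⟩, fun x => M.ext' fun n => ?_⟩
  · rw [map_sub, map_smul, hT]
    have := hl (M.τ n)
    simp only [smul_eq_mul]
    field_simp
    ring
  · rw [map_sub, map_smul, A_spec, hT]
    have := hl (M.τ n)
    simp only [smul_eq_mul]
    field_simp
  · rw [hT, map_sub, map_smul, A_spec]
    have := hl (M.τ n)
    simp only [smul_eq_mul]
    field_simp

theorem mult_of_isRes {l : ℂ} (hl : ∀ k, l - mu k ≠ 0) {T : X →L[ℂ] X}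
    (hT : IsResolventAt M.A l T) : M.IsMult T (fun k => (l - mu k)⁻¹) := by
  intro n y
  obtain ⟨h1, h2⟩ := hT.1 y
  have h3 := congrArg (M.φ n) h2
  rw [map_sub, map_smul, A_spec] at h3
  have := hl (M.τ n)
  simp only [smul_eq_mul] at h3
  rw [← h3]
  field_simp

theorem resolvent_spec {ω : ℝ} (h0 : 0 < ω) (h1 : ω < Real.pi) {l : ℂ} (hl : l ∉ Sector ω) :
    ‖resolvent M.A l‖ ≤ M.C * ((cst ω)⁻¹ + (cst ω)⁻¹ ^ 2) / (1 + ‖l‖) ∧
      M.IsMult (resolvent M.A l) (fun k => (l - mu k)⁻¹) ∧ l ∈ resolventSet M.A := by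
  obtain ⟨T, h2, h3⟩ := M.res_mult h0 h1 hl
  have h4 : ∃ R, IsResolventAt M.A l R := ⟨T, M.isRes_of_mult (sub_mu_ne h0 hl) h3⟩
  have h5 : resolvent M.A l = T := by
    rw [resolvent, dif_pos h4]
    exact (M.mult_of_isRes (sub_mu_ne h0 hl) h4.choose_spec).unique h3
  rw [h5]
  exact ⟨h2, h3, h4⟩

theorem sectorialOfAngle {ω : ℝ} (h0 : 0 < ω) (h1 : ω < Real.pi) : IsSectorialOfAngle M.A ω := by
  refine ⟨h0, h1, fun l hl => (M.resolvent_spec h0 h1 fun h => hl (subset_closure h)).2.2,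
    fun ε hε => ⟨M.C * ((cst ω)⁻¹ + (cst ω)⁻¹ ^ 2), fun l hl => ?_⟩⟩
  have h2 := (M.resolvent_spec h0 h1 (l := l) fun h =>
    hl (subset_closure (sector_mono (by linarith) h))).1
  rw [norm_smul]
  refine (mul_le_mul_of_nonneg_left h2 (norm_nonneg _)).trans ?_
  have hc := cst_pos h0 h1
  have := M.C0
  rw [mul_div_assoc', div_le_iff₀ (by positivity)]
  have : 0 ≤ M.C * ((cst ω)⁻¹ + (cst ω)⁻¹ ^ 2) := by positivity
  nlinarith

theorem sectAngle_eq : sectAngle M.A = 0 := by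
  have : {ω | IsSectorialOfAngle M.A ω} = Ioo 0 Real.pi := by
    ext ω
    exact ⟨fun h => ⟨h.1, h.2.1⟩, fun h => M.sectorialOfAngle h.1 h.2⟩
  rw [sectAngle, this, csInf_Ioo Real.pi_pos]

theorem isSectorial : IsSectorial M.A := by
  refine ⟨?_, ?_, ?_, 1, M.sectorialOfAngle one_pos (by linarith [Real.pi_gt_three])⟩
  · have : (M.A.graph : Set (X × X)) = ⋂ n, {z : X × X | M.φ n z.2 = mu (M.τ n) * M.φ n z.1} := by
      ext z
      simp only [SetLike.mem_coe, LinearPMap.mem_graph_iff, mem_iInter, mem_ofPred_eq]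
      constructor
      · rintro ⟨y, h1, h2⟩ n
        rw [← h1, ← h2, A_spec]
      · intro h
        exact ⟨⟨z.1, z.2, h⟩, rfl, M.ext' fun n => by rw [A_spec, h]⟩
    rw [LinearPMap.IsClosed, this]
    exact isClosed_iInter fun n => isClosed_eq (by fun_prop) (by fun_prop)
  · refine M.dense.mono ?_
    rintro x ⟨N, hN⟩
    obtain ⟨U, -, h2⟩ := M.mult_fin (fun k => if k < N then mu k else 0) N
      (fun k hk => if_neg (not_lt.2 hk))
    refine ⟨U x, fun n => ?_⟩
    rw [h2]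
    by_cases h : M.τ n < N
    · simp only [if_pos h]
    · simp [hN n (not_lt.1 h)]
  · have h0 : (0 : ℂ) ∉ Sector 1 := fun h => h.1 rfl
    obtain ⟨R, h1, -⟩ := (M.resolvent_spec one_pos (by linarith [Real.pi_gt_three]) h0).2.2
    have : (range fun x : M.A.domain => M.A x) = univ := by
      rw [range_eq_univ]
      intro y
      obtain ⟨h2, h3⟩ := h1 (-y)
      refine ⟨⟨_, h2⟩, ?_⟩
      simpa using h3
    rw [this]
    exact dense_univ

theorem exists_T (t : ℝ) : ∃ T : X →L[ℂ] X, ‖T‖ ≤ M.C * 2 ∧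
    M.IsMult T (fun k => (Real.exp (-(max t 0 * mu k)) : ℝ)) :=
  M.mult_anti _ (fun a b h => Real.exp_le_exp.2 (neg_le_neg
    (mul_le_mul_of_nonneg_left (mu_mono h) (le_max_right _ _)))) (fun _ => (Real.exp_pos _).le)
    (fun k => Real.exp_le_one_iff.2 (neg_nonpos.2
      (mul_nonneg (le_max_right _ _) (mu_pos k).le)))

/-- the semigroup -/
def T (t : ℝ) : X →L[ℂ] X := (M.exists_T t).choose

theorem T_norm (t : ℝ) : ‖M.T t‖ ≤ M.C * 2 := (M.exists_T t).choose_spec.1

theorem T_mult (t : ℝ) : M.IsMult (M.T t) (fun k => (Real.exp (-(max t 0 * mu k)) : ℝ)) :=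
  (M.exists_T t).choose_spec.2

theorem isC0 : IsC0Semigroup M.T := by
  refine ⟨?_, fun s t hs ht => ?_, fun x => ?_⟩
  · ext x
    exact M.ext' fun n => by rw [M.T_mult]; simp
  · ext x
    refine M.ext' fun n => ?_
    rw [ContinuousLinearMap.mul_apply, M.T_mult, M.T_mult, M.T_mult]
    simp only [max_eq_left hs, max_eq_left ht, max_eq_left (add_nonneg hs ht)]
    rw [← mul_assoc, ← Complex.ofReal_mul, ← Real.exp_add]
    congr 3
    ring
  · refine Continuous.continuousOn (continuous_iff_continuousAt.2 fun t => ?_)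
    refine M.strong (Eventually.of_forall fun a => ⟨M.T_norm a, M.T_mult a⟩) (M.T_mult t)
      (fun k => ?_) x
    exact (show Continuous fun a : ℝ => ((Real.exp (-(max a 0 * mu k)) : ℝ) : ℂ) by
      fun_prop).tendsto t

theorem slope_tendsto (m : ℝ) :
    Tendsto (fun t : ℝ => t⁻¹ * (Real.exp (-(t * m)) - 1)) (𝓝[>] 0) (𝓝 (-m)) := by
  have h : HasDerivAt (fun t : ℝ => Real.exp (-(t * m))) (-m) 0 := by
    have := ((hasDerivAt_id (0 : ℝ)).mul_const m).neg.exp
    simpa using this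
  simpa using h.tendsto_slope_zero_right

theorem negGenerates : NegGenerates M.A M.T := by
  refine ⟨fun x => ?_, fun x y h => ⟨-y, fun n => ?_⟩⟩
  · have h1 : ∀ t : ℝ, ∃ U : X →L[ℂ] X, 0 < t → (‖U‖ ≤ M.C * 2 ∧
        M.IsMult U (fun k => (((1 - Real.exp (-(t * mu k))) / (t * mu k) : ℝ) : ℂ))) := by
      intro t
      by_cases ht : 0 < t
      swap
      · exact ⟨0, fun h => absurd h ht⟩
      have hp : ∀ k, 0 < t * mu k := fun k => mul_pos ht (mu_pos k)
      obtain ⟨U, hU⟩ := M.mult_anti (fun k => (1 - Real.exp (-(t * mu k))) / (t * mu k))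
        (fun a b h => by
          have := convexOn_exp.secant_mono (a := 0) (x := -(t * mu b)) (y := -(t * mu a))
            (mem_univ _) (mem_univ _) (mem_univ _) (by linarith [hp b]) (by linarith [hp a])
            (neg_le_neg (mul_le_mul_of_nonneg_left (mu_mono h) ht.le))
          simp only [Real.exp_zero, sub_zero] at this
          have e : ∀ s : ℝ, (Real.exp (-s) - 1) / -s = (1 - Real.exp (-s)) / s := fun s => by
            rw [← neg_div_neg_eq]; simp
          rwa [e, e] at this)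
        (fun k => div_nonneg (sub_nonneg.2 (Real.exp_le_one_iff.2 (by linarith [hp k])))
          (hp k).le)
        (fun k => by
          rw [div_le_one (hp k)]
          linarith [Real.add_one_le_exp (-(t * mu k))])
      exact ⟨U, fun _ => hU⟩
    choose U hU using h1
    have h2 := M.strong (l := 𝓝[>] (0 : ℝ)) (T := U) (T₀ := 1) (g₀ := fun _ => 1)
      (eventually_nhdsWithin_of_forall fun t ht => hU t ht) (fun n x => by simp) (fun k => by
        have h3 := ((slope_tendsto (mu k)).neg.div_const (mu k))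
        rw [neg_neg, div_self (mu_pos k).ne'] at h3
        have h4 := (Complex.continuous_ofReal.tendsto 1).comp h3
        refine Tendsto.congr (fun t => ?_) h4
        simp only [Function.comp]
        congr 1
        rw [div_eq_mul_inv, div_eq_mul_inv, mul_inv]
        ring) (M.A x)
    refine h2.neg.congr' (eventually_nhdsWithin_of_forall fun t ht => M.ext' fun n => ?_)
    have ht0 : 0 < t := ht
    rw [map_neg, (hU t ht).2, A_spec, map_smul, map_sub, M.T_mult]
    simp only [max_eq_left ht0.le, smul_eq_mul]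
    have e1 : (t : ℂ) ≠ 0 := by exact_mod_cast ht0.ne'
    have e2 : (mu (M.τ n) : ℂ) ≠ 0 := by exact_mod_cast (mu_pos _).ne'
    push_cast
    field_simp
    ring
  · have h1 := ((M.φ n).continuous.tendsto y).comp h
    have h2 := (((Complex.continuous_ofReal.tendsto _).comp
      (slope_tendsto (mu (M.τ n)))).mul_const (M.φ n x))
    have h3 : M.φ n y = ((-mu (M.τ n) : ℝ) : ℂ) * M.φ n x := by
      refine tendsto_nhds_unique h1 (h2.congr' (eventually_nhdsWithin_of_forall fun t ht => ?_))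
      have ht0 : 0 < t := ht
      simp only [Function.comp, map_smul, map_sub]
      rw [M.T_mult]
      simp only [max_eq_left ht0.le, smul_eq_mul]
      push_cast
      ring
    rw [map_neg, h3]
    push_cast
    ring

theorem res_continuousOn {ω : ℝ} (h0 : 0 < ω) (h1 : ω < Real.pi) :
    ContinuousOn (resolvent M.A) (Sector ω)ᶜ := by
  set K := M.C * ((cst ω)⁻¹ + (cst ω)⁻¹ ^ 2) with hK
  have hK0 : 0 ≤ K := by
    have := cst_pos h0 h1
    have := M.C0
    positivity
  have hb : ∀ l ∉ Sector ω, ‖resolvent M.A l‖ ≤ K := fun l hl =>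
    (M.resolvent_spec h0 h1 hl).1.trans (div_le_self hK0 (by linarith [norm_nonneg l]))
  refine (LipschitzOnWith.of_dist_le_mul (K := ⟨K * K, by positivity⟩) ?_).continuousOn
  intro l hl l' hl'
  have e : resolvent M.A l - resolvent M.A l' =
      (l' - l) • (resolvent M.A l * resolvent M.A l') := by
    ext x
    refine M.ext' fun n => ?_
    rw [ContinuousLinearMap.sub_apply, map_sub, ContinuousLinearMap.smul_apply, map_smul,
      ContinuousLinearMap.mul_apply, (M.resolvent_spec h0 h1 hl).2.1,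
      (M.resolvent_spec h0 h1 hl).2.1, (M.resolvent_spec h0 h1 hl').2.1]
    have := sub_mu_ne h0 hl (M.τ n)
    have := sub_mu_ne h0 hl' (M.τ n)
    simp only [smul_eq_mul]
    field_simp
    ring
  rw [dist_eq_norm, e, norm_smul, dist_eq_norm, norm_sub_rev, mul_comm]
  refine mul_le_mul_of_nonneg_right ((norm_mul_le _ _).trans ?_) (norm_nonneg _)
  exact mul_le_mul (hb l hl) (hb l' hl') (norm_nonneg _) hK0

theorem funCalc_mult [CompleteSpace X] {f : ℂ → ℂ} {θ σ K : ℝ} (h0 : 0 < θ) (h1 : θ < σ)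
    (h2 : σ < Real.pi) (hf : DifferentiableOn ℂ f (Sector σ))
    (hb : ∀ l ∈ Sector σ, ‖f l‖ ≤ K / (1 + ‖l‖)) :
    M.IsMult (funCalc M.A θ f) (fun k => f (mu k)) := by
  have h3 := h1.trans h2
  have hout : ∀ η : ℝ, |η| = θ → ∀ r : ℝ, 0 < r → (r : ℂ) * exp (η * I) ∉ Sector θ := by
    intro η hη r hr
    have := ray_not_mem (θ := η) (hη ▸ h3) hr
    rwa [hη] at this
  have hint : ∀ η : ℝ, |η| = θ → IntegrableOn (fun r : ℝ =>
      (f (r * exp (η * I)) * exp (η * I)) • resolvent M.A (r * exp (η * I))) (Ioi 0) := by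
    intro η hη
    refine integrableOn_of_bound (K := K * (M.C * ((cst θ)⁻¹ + (cst θ)⁻¹ ^ 2))) ?_ fun r hr => ?_
    · refine ContinuousOn.smul (ContinuousOn.mul (hf.continuousOn.comp
        (continuous_ray η).continuousOn fun r hr => ray_mem (hη ▸ h1) h2 hr) continuousOn_const) ?_
      exact (M.res_continuousOn h0 h3).comp (continuous_ray η).continuousOn
        fun r hr => hout η hη r hr
    · have e1 := hb _ (ray_mem (hη ▸ h1) h2 hr)
      have e2 := (M.resolvent_spec h0 h3 (hout η hη r hr)).1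
      rw [ray_norm η hr.le] at e1 e2
      rw [norm_smul, norm_mul, Complex.norm_exp_ofReal_mul_I, mul_one, sq (1 + r), ← div_mul_div_comm]
      exact mul_le_mul e1 e2 (norm_nonneg _) ((norm_nonneg _).trans e1)
  have a1 : |(-θ)| = θ := by rw [abs_neg, abs_of_pos h0]
  have a2 : |θ| = θ := abs_of_pos h0
  intro n x
  have hI := (hint _ a1).sub (hint _ a2)
  let L : (X →L[ℂ] X) →L[ℂ] ℂ := (M.φ n).comp (ContinuousLinearMap.apply ℂ X x)
  have e1 := L.integral_comp_comm hI
  have e2 := cauchy h0 h1 h2 (one_le_mu (M.τ n)) hf hb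
  unfold funCalc
  rw [neg_ray, ContinuousLinearMap.smul_apply, map_smul]
  simp only [Pi.sub_apply] at e1
  have e3 : M.φ n ((∫ r in Ioi (0 : ℝ),
      ((f (r * exp (((-θ : ℝ) : ℂ) * I)) * exp (((-θ : ℝ) : ℂ) * I)) •
        resolvent M.A (r * exp (((-θ : ℝ) : ℂ) * I)) -
      (f (r * exp (θ * I)) * exp (θ * I)) • resolvent M.A (r * exp (θ * I)))) x) =
      2 * Real.pi * I * f (mu (M.τ n)) * M.φ n x := by
    rw [← e2, ← integral_mul_const]
    refine e1.symm.trans (setIntegral_congr_fun measurableSet_Ioi fun r hr => ?_)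
    simp only [L, ContinuousLinearMap.comp_apply, ContinuousLinearMap.apply_apply,
      ContinuousLinearMap.sub_apply, ContinuousLinearMap.smul_apply, map_sub, map_smul,
      smul_eq_mul]
    rw [(M.resolvent_spec h0 h3 (hout _ a1 r hr)).2.1, (M.resolvent_spec h0 h3 (hout _ a2 r hr)).2.1]
    ring
  rw [e3, smul_eq_mul]
  have : (2 * Real.pi * I : ℂ) ≠ 0 := by simp [Real.pi_ne_zero]
  field_simp

end MS

end Pool.Agent.H97Z.Sec
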