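import Pool.Agent.H97Z.SecDefs

set_option autoImplicit false

open Complex Filter Topology MeasureTheory Set

noncomputable section

namespace Pool.Agent.H97Z.Sec

/-- the constant `sqrt ((1 - cos ω) / 2)` -/
def cst (ω : ℝ) : ℝ := Real.sqrt ((1 - Real.cos ω) / 2)

theorem cos_lt_one' {ω : ℝ} (h0 : 0 < ω) (h1 : ω < Real.pi) : Real.cos ω < 1 := by
  have := Real.cos_lt_cos_of_nonneg_of_le_pi le_rfl h1.le h0
  simpa using this

theorem cst_pos {ω : ℝ} (h0 : 0 < ω) (h1 : ω < Real.pi) : 0 < cst ω := by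
  have := cos_lt_one' h0 h1
  exact Real.sqrt_pos.2 (by linarith)

theorem dist_ge_of_re {ω : ℝ} {l : ℂ} (hl : l.re ≤ Real.cos ω * ‖l‖) {m : ℝ} (hm : 0 ≤ m) :
    cst ω * (‖l‖ + m) ≤ ‖l - m‖ := by
  have h1 := Real.cos_le_one ω
  have h2 := Real.neg_one_le_cos ω
  apply le_of_sq_le_sq_of_nonneg (norm_nonneg _)
  rw [mul_pow, cst, Real.sq_sqrt (by linarith), Complex.sq_norm (l - m), Complex.normSq_apply]
  have h3 : ‖l‖ ^ 2 = l.re * l.re + l.im * l.im := by
    rw [Complex.sq_norm, Complex.normSq_apply]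
  simp only [sub_re, ofReal_re, sub_im, ofReal_im, sub_zero]
  have h4 : 0 ≤ (1 + Real.cos ω) / 2 * (‖l‖ - m) ^ 2 :=
    mul_nonneg (by linarith) (sq_nonneg _)
  nlinarith [mul_le_mul_of_nonneg_left hl hm]
where
  le_of_sq_le_sq_of_nonneg {a b : ℝ} (hb : 0 ≤ b) (h : a ^ 2 ≤ b ^ 2) : a ≤ b :=
    (abs_le_of_sq_le_sq' h hb).2

theorem re_le_of_not_mem {ω : ℝ} (h0 : 0 < ω) {l : ℂ} (hl : l ∉ Sector ω) :
    l.re ≤ Real.cos ω * ‖l‖ := by
  by_cases h : l = 0
  · simp [h]
  · have h1 : ω ≤ |arg l| := by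
      by_contra hc
      exact hl ⟨h, not_le.1 hc⟩
    have h2 : Real.cos |arg l| ≤ Real.cos ω :=
      Real.cos_le_cos_of_nonneg_of_le_pi h0.le (Complex.abs_arg_le_pi l) h1
    rw [Real.cos_abs] at h2
    rw [← Complex.norm_mul_cos_arg l, mul_comm]
    exact mul_le_mul_of_nonneg_right h2 (norm_nonneg _)

theorem dist_ge {ω : ℝ} (h0 : 0 < ω) {l : ℂ} (hl : l ∉ Sector ω) {m : ℝ} (hm : 0 ≤ m) :
    cst ω * (‖l‖ + m) ≤ ‖l - m‖ :=
  dist_ge_of_re (re_le_of_not_mem h0 hl) hm

theorem add_ge {σ : ℝ} (h1 : σ < Real.pi) {l : ℂ} (hl : l ∈ Sector σ) {m : ℝ} (hm : 0 ≤ m) :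
    cst (Real.pi - σ) * (‖l‖ + m) ≤ ‖l + m‖ := by
  have h2 : Real.cos σ ≤ Real.cos |arg l| :=
    Real.cos_le_cos_of_nonneg_of_le_pi (abs_nonneg _) h1.le hl.2.le
  rw [Real.cos_abs] at h2
  have h3 : (-l).re ≤ Real.cos (Real.pi - σ) * ‖-l‖ := by
    rw [Real.cos_pi_sub, norm_neg, neg_re, ← Complex.norm_mul_cos_arg l]
    nlinarith [norm_nonneg l]
  have := dist_ge_of_re h3 hm
  rw [norm_neg] at this
  rwa [show -l - (m : ℂ) = -(l + m) by ring, norm_neg] at this

theorem sector_mono {a b : ℝ} (h : a ≤ b) : Sector a ⊆ Sector b :=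
  fun _ hz => ⟨hz.1, hz.2.trans_le h⟩

theorem arg_exp_of {w : ℂ} (h : |w.im| < Real.pi) : arg (exp w) = w.im := by
  rw [abs_lt] at h
  have := Complex.log_exp h.1 h.2.le
  rw [← Complex.log_im, this]

theorem exp_mem_sector {σ : ℝ} (h1 : σ < Real.pi) {w : ℂ} (h : |w.im| < σ) :
    exp w ∈ Sector σ :=
  ⟨exp_ne_zero w, by rw [arg_exp_of (h.trans h1)]; exact h⟩

theorem ray_eq (r : ℝ) (hr : 0 < r) (w : ℂ) : (r : ℂ) * exp w = exp (Real.log r + w) := by
  rw [Complex.exp_add, ← Complex.ofReal_exp, Real.exp_log hr]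

theorem ray_arg {θ : ℝ} (h : |θ| < Real.pi) {r : ℝ} (hr : 0 < r) :
    arg ((r : ℂ) * exp (θ * I)) = θ := by
  rw [ray_eq r hr, arg_exp_of] <;> simp [h]

theorem ray_norm (θ : ℝ) {r : ℝ} (hr : 0 ≤ r) : ‖(r : ℂ) * exp (θ * I)‖ = r := by
  rw [norm_mul, Complex.norm_exp_ofReal_mul_I, mul_one, Complex.norm_real, Real.norm_of_nonneg hr]

theorem ray_mem {θ σ : ℝ} (h : |θ| < σ) (h1 : σ < Real.pi) {r : ℝ} (hr : 0 < r) :
    (r : ℂ) * exp (θ * I) ∈ Sector σ :=
  ⟨mul_ne_zero (by exact_mod_cast hr.ne') (exp_ne_zero _), by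
    rw [ray_arg (h.trans h1) hr]; exact h⟩

theorem ray_not_mem {θ : ℝ} (h : |θ| < Real.pi) {r : ℝ} (hr : 0 < r) :
    (r : ℂ) * exp (θ * I) ∉ Sector |θ| := fun hm => by
  have := hm.2
  rw [ray_arg h hr] at this
  exact lt_irrefl _ this

theorem isOpen_sector {σ : ℝ} (h1 : σ < Real.pi) : IsOpen (Sector σ) := by
  rw [isOpen_iff_mem_nhds]
  intro z hz
  have hs : z ∈ slitPlane := by
    rw [Complex.mem_slitPlane_iff_arg]
    refine ⟨fun h => ?_, hz.1⟩
    have := hz.2
    rw [h, abs_of_pos Real.pi_pos] at this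
    linarith
  have h2 : ContinuousAt (fun w => |arg w|) z := (Complex.continuousAt_arg hs).abs
  filter_upwards [h2.eventually (gt_mem_nhds hz.2), isOpen_ne.mem_nhds hz.1] with w a b
  exact ⟨b, a⟩

theorem sector_slit {σ : ℝ} (h1 : σ < Real.pi) {z : ℂ} (hz : z ∈ Sector σ) : z ∈ slitPlane := by
  rw [Complex.mem_slitPlane_iff_arg]
  refine ⟨fun h => ?_, hz.1⟩
  have := hz.2
  rw [h, abs_of_pos Real.pi_pos] at this
  linarith

theorem ofReal_mem_sector {σ : ℝ} (h0 : 0 < σ) {m : ℝ} (hm : 0 < m) : (m : ℂ) ∈ Sector σ :=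
  ⟨by exact_mod_cast hm.ne', by rw [Complex.arg_ofReal_of_nonneg hm.le]; simpa using h0⟩

theorem integrableOn_inv_sq (K : ℝ) : IntegrableOn (fun r : ℝ => K / (1 + r) ^ 2) (Ioi 0) := by
  have h : IntegrableOn (fun x : ℝ => K * (1 + x ^ 2)⁻¹) (Ioi 0) :=
    (integrable_inv_one_add_sq.const_mul K).integrableOn
  have h' : IntegrableOn (fun x : ℝ => |K| * (1 + x ^ 2)⁻¹) (Ioi 0) :=
    (integrable_inv_one_add_sq.const_mul |K|).integrableOn
  refine Integrable.mono' h' ?_ ?_
  · refine ContinuousOn.aestronglyMeasurable ?_ measurableSet_Ioi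
    refine continuousOn_const.div (by fun_prop) fun x hx => ?_
    have : (0 : ℝ) < x := hx
    positivity
  · refine (ae_restrict_iff' measurableSet_Ioi).2 (Eventually.of_forall fun x hx => ?_)
    have : (0 : ℝ) < x := hx
    rw [Real.norm_eq_abs, abs_div, abs_of_pos (show 0 < (1 + x) ^ 2 by positivity), div_eq_mul_inv]
    refine mul_le_mul_of_nonneg_left ?_ (abs_nonneg _)
    exact inv_anti₀ (by positivity) (by nlinarith)

theorem integrableOn_of_bound {E : Type} [NormedAddCommGroup E] {F : ℝ → E} {K : ℝ}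
    (h1 : ContinuousOn F (Ioi 0)) (h2 : ∀ r, 0 < r → ‖F r‖ ≤ K / (1 + r) ^ 2) :
    IntegrableOn F (Ioi 0) := by
  refine Integrable.mono' (integrableOn_inv_sq K) ?_ ?_
  · exact h1.aestronglyMeasurable measurableSet_Ioi
  · exact (ae_restrict_iff' measurableSet_Ioi).2 (Eventually.of_forall fun x hx => h2 x hx)

/-- the explicit integral -/
theorem explicit_int {u κ : ℂ} (hκ : κ.re = 0) (hs : κ.im * u.im < 0) {m : ℝ}
    (hm : 0 < m)
    (hint : IntegrableOn (fun r : ℝ => (1 / (r * u - m) - 1 / (r * u + 1)) * u) (Ioi 0)) :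
    ∫ r in Ioi (0 : ℝ), (1 / (r * u - m) - 1 / (r * u + 1)) * u = log κ - log (m * -κ) := by
  have hui : u.im ≠ 0 := by
    intro h; rw [h] at hs; simp at hs
  have hκi : κ.im ≠ 0 := by
    intro h; rw [h] at hs; simp at hs
  have hκ0 : κ ≠ 0 := fun h => hκi (by rw [h]; simp)
  have hu0 : u ≠ 0 := fun h => hui (by rw [h]; simp)
  have hden : ∀ r : ℝ, (r : ℂ) * u + 1 ≠ 0 := by
    intro r h
    have h1 := congrArg Complex.im h
    have h2 := congrArg Complex.re h
    simp at h1 h2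
    rcases h1 with h1 | h1
    · rw [h1] at h2; simp at h2
    · exact hui h1
  have hnum : ∀ r : ℝ, (r : ℂ) * u - m ≠ 0 := by
    intro r h
    have h1 := congrArg Complex.im h
    have h2 := congrArg Complex.re h
    simp at h1 h2
    rcases h1 with h1 | h1
    · rw [h1] at h2; simp at h2; exact hm.ne' h2
    · exact hui h1
  let q : ℝ → ℂ := fun r => κ * ((r * u - m) / (r * u + 1))
  have hq : ∀ r : ℝ, HasDerivAt q
      (κ * ((u * (r * u + 1) - (r * u - m) * u) / (r * u + 1) ^ 2)) r := by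
    intro r
    have h1 : HasDerivAt (fun r : ℝ => (r : ℂ) * u) u r := by
      simpa using (Complex.ofRealCLM.hasDerivAt (x := r)).mul_const u
    exact ((h1.sub_const (m : ℂ)).div (h1.add_const 1) (hden r)).const_mul κ
  have hslit : ∀ r : ℝ, 0 ≤ r → q r ∈ slitPlane := by
    intro r hr
    rcases hr.eq_or_lt with h | h
    · right
      simp [q, ← h, hκi, hm.ne']
    · left
      have hpos : 0 < normSq ((r : ℂ) * u + 1) := normSq_pos.2 (hden r)
      simp only [q, mul_re, hκ, zero_mul, zero_sub, Complex.div_im]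
      simp only [sub_im, mul_im, ofReal_re, ofReal_im, zero_mul, add_zero, sub_zero, add_re,
        mul_re, one_re, sub_re, add_im, one_im]
      have : κ.im * (r * u.im * (r * u.re + 1) / normSq ((r : ℂ) * u + 1) -
          (r * u.re - m) * (r * u.im) / normSq ((r : ℂ) * u + 1)) =
          (κ.im * u.im) * (r * (1 + m) / normSq ((r : ℂ) * u + 1)) := by
        field_simp
        ring
      rw [this, neg_pos]
      exact mul_neg_of_neg_of_pos hs (by positivity)
  have hder : ∀ r : ℝ, 0 ≤ r → HasDerivAt (fun r => log (q r))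
      ((1 / (r * u - m) - 1 / (r * u + 1)) * u) r := by
    intro r hr
    have := (hq r).clog_real (hslit r hr)
    convert this using 1
    simp only [q]
    have h1 := hden r
    have h2 := hnum r
    field_simp
  have hlim : Tendsto (fun r => log (q r)) atTop (𝓝 (log κ)) := by
    have h1 : Tendsto q atTop (𝓝 κ) := by
      have h2 : Tendsto (fun r : ℝ => ((r : ℂ))⁻¹) atTop (𝓝 0) := by
        have := (Complex.continuous_ofReal.tendsto 0).comp tendsto_inv_atTop_zero
        simpa [Function.comp_def] using this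
      have h3 : Tendsto (fun r : ℝ => κ * ((u - m * (r : ℂ)⁻¹) / (u + (r : ℂ)⁻¹))) atTop
          (𝓝 (κ * ((u - m * 0) / (u + 0)))) :=
        (((h2.const_mul _).const_sub u).div (h2.const_add u) (by simpa using hu0)).const_mul κ
      simp only [mul_zero, sub_zero, add_zero, div_self hu0, mul_one] at h3
      refine h3.congr' ?_
      filter_upwards [eventually_gt_atTop 0] with r hr
      have h4 : (r : ℂ) ≠ 0 := by exact_mod_cast hr.ne'
      have h5 := hden r
      simp only [q]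
      congr 1
      have h6 : u + (r : ℂ)⁻¹ ≠ 0 := by
        intro h
        apply h5
        have : (r : ℂ) * u + 1 = r * (u + (r : ℂ)⁻¹) := by field_simp
        rw [this, h, mul_zero]
      rw [div_eq_div_iff h6 h5]
      field_simp
    exact (continuousAt_clog (Or.inr hκi)).tendsto.comp h1
  rw [integral_Ioi_of_hasDerivAt_of_tendsto (hder 0 le_rfl).continuousAt.continuousWithinAt
    (fun x hx => hder x (le_of_lt hx)) hint hlim]
  simp [q, mul_comm]

theorem neg_ray (θ : ℝ) : -((θ : ℂ) * I) = ((-θ : ℝ) : ℂ) * I := by push_cast; ring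

theorem ray_dist {θ η : ℝ} (h0 : 0 < θ) (h1 : θ < Real.pi) (hη : |η| = θ) {r m : ℝ} (hr : 0 < r)
    (hm : 1 ≤ m) : cst θ * (1 + r) ≤ ‖(r : ℂ) * exp (η * I) - m‖ := by
  have h2 := ray_not_mem (θ := η) (hη ▸ h1) hr
  rw [hη] at h2
  have h3 := dist_ge h0 h2 (m := m) (by linarith)
  rw [ray_norm η hr.le] at h3
  exact (mul_le_mul_of_nonneg_left (by linarith) (cst_pos h0 h1).le).trans h3

theorem continuous_ray (η : ℝ) : Continuous fun r : ℝ => (r : ℂ) * exp (η * I) := by fun_prop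

theorem ray_integrable {g : ℂ → ℂ} {θ σ η K m : ℝ} (h0 : 0 < θ) (h1 : θ < σ) (h2 : σ < Real.pi)
    (hη : |η| = θ) (hm : 1 ≤ m) (hg : ContinuousOn g (Sector σ \ {(m : ℂ)}))
    (hb : ∀ l ∈ Sector σ, l ≠ m → ‖g l‖ ≤ K / ((1 + ‖l‖) * ‖l - m‖)) :
    IntegrableOn (fun r : ℝ => g (r * exp (η * I)) * exp (η * I)) (Ioi 0) := by
  have hc := cst_pos h0 (h1.trans h2)
  have hne : ∀ r : ℝ, 0 < r → (r : ℂ) * exp (η * I) ≠ m := by
    intro r hr h
    have := ray_dist h0 (h1.trans h2) hη hr hm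
    rw [h, sub_self, norm_zero] at this
    have : 0 < cst θ * (1 + r) := by positivity
    linarith
  refine integrableOn_of_bound (K := |K| / cst θ) ?_ fun r hr => ?_
  · refine ContinuousOn.mul (hg.comp (continuous_ray η).continuousOn fun r hr => ?_)
      continuousOn_const
    exact ⟨ray_mem (hη ▸ h1) h2 hr, hne r hr⟩
  · rw [norm_mul, Complex.norm_exp_ofReal_mul_I, mul_one]
    refine (hb _ (ray_mem (hη ▸ h1) h2 hr) (hne r hr)).trans ?_
    rw [ray_norm η hr.le]
    have h3 := ray_dist h0 (h1.trans h2) hη hr hm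
    have h4 : 0 < cst θ * (1 + r) := by positivity
    rw [div_div]
    refine (div_le_div_of_nonneg_right (le_abs_self K) (by positivity)).trans ?_
    refine div_le_div_of_nonneg_left (abs_nonneg _) (by positivity) ?_
    nlinarith

theorem zero_int {g : ℂ → ℂ} {θ σ K m : ℝ} (h0 : 0 < θ) (h1 : θ < σ) (h2 : σ < Real.pi)
    (hm : 1 ≤ m) (hg : DifferentiableOn ℂ g (Sector σ))
    (hb : ∀ l ∈ Sector σ, l ≠ m → ‖g l‖ ≤ K / ((1 + ‖l‖) * ‖l - m‖)) :
    ∫ r in Ioi (0 : ℝ), (g (r * exp (((-θ : ℝ) : ℂ) * I)) * exp (((-θ : ℝ) : ℂ) * I) -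
      g (r * exp (θ * I)) * exp (θ * I)) = 0 := by
  have i1 := ray_integrable h0 h1 h2 (η := -θ) (by rw [abs_neg, abs_of_pos h0]) hm
    (hg.continuousOn.mono sdiff_subset) hb
  have i2 := ray_integrable h0 h1 h2 (η := θ) (abs_of_pos h0) hm
    (hg.continuousOn.mono sdiff_subset) hb
  set H : ℝ → ℂ := fun r => g (r * exp (((-θ : ℝ) : ℂ) * I)) * exp (((-θ : ℝ) : ℂ) * I) -
      g (r * exp (θ * I)) * exp (θ * I) with hH
  have iH : IntegrableOn H (Ioi 0) := i1.sub i2
  let G : ℂ → ℂ := fun w => g (exp w) * exp w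
  have hder : ∀ x ∈ (univ : Set ℝ), HasDerivWithinAt Real.exp (Real.exp x) univ x :=
    fun x _ => (Real.hasDerivAt_exp x).hasDerivWithinAt
  have himg : Real.exp '' univ = Ioi 0 := by rw [image_univ, Real.range_exp]
  have hpt : ∀ x : ℝ, |Real.exp x| • H (Real.exp x) =
      G (x + ((-θ : ℝ) : ℂ) * I) - G (x + θ * I) := by
    intro x
    simp only [hH, G, abs_of_pos (Real.exp_pos x), Complex.real_smul, Complex.exp_add,
      Complex.ofReal_exp]
    ring
  have e1 := integral_image_eq_integral_abs_deriv_smul MeasurableSet.univ hder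
    Real.exp_injective.injOn H
  have e2 := (integrableOn_image_iff_integrableOn_abs_deriv_smul MeasurableSet.univ hder
    Real.exp_injective.injOn H).1 (by rw [himg]; exact iH)
  rw [himg] at e1
  rw [e1]
  simp only [hpt, Measure.restrict_univ] at e2 ⊢
  rw [integrableOn_univ] at e2
  have hG : DifferentiableOn ℂ G {w | |w.im| < σ} := by
    refine DifferentiableOn.mul (hg.comp differentiable_exp.differentiableOn fun w hw => ?_)
      differentiable_exp.differentiableOn
    exact exp_mem_sector h2 hw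
  have hline : ∀ η : ℝ, |η| < σ → Continuous fun x : ℝ => G (x + η * I) := by
    intro η hη
    refine hG.continuousOn.comp_continuous (by fun_prop) fun x => ?_
    simpa using hη
  have lim1 := intervalIntegral_tendsto_integral e2 tendsto_neg_atTop_atBot tendsto_id
  -- the vertical sides
  have hvert : ∀ T : ℝ, Real.exp T ≠ m →
      ‖∫ y : ℝ in (-θ)..θ, G (T + y * I)‖ ≤
        |K| * Real.exp T / ((1 + Real.exp T) * |Real.exp T - m|) * |θ - -θ| := by
    intro T hT
    refine intervalIntegral.norm_integral_le_of_norm_le_const fun y hy => ?_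
    rw [uIoc_of_le (by linarith)] at hy
    have hy' : |y| < σ := abs_lt.2 ⟨by linarith [hy.1], by linarith [hy.2]⟩
    have hn : ‖exp ((T : ℂ) + y * I)‖ = Real.exp T := by
      rw [Complex.norm_exp]; simp
    have hs : exp ((T : ℂ) + y * I) ∈ Sector σ := exp_mem_sector h2 (by simpa using hy')
    have hd : |Real.exp T - m| ≤ ‖exp ((T : ℂ) + y * I) - m‖ := by
      have := abs_norm_sub_norm_le (exp ((T : ℂ) + y * I)) (m : ℂ)
      rwa [hn, Complex.norm_real, Real.norm_of_nonneg (by linarith)] at this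
    have hd0 : 0 < |Real.exp T - m| := abs_pos.2 (sub_ne_zero.2 hT)
    have hne : exp ((T : ℂ) + y * I) ≠ m := by
      intro h
      rw [h, sub_self, norm_zero] at hd
      linarith
    have h3 := hb _ hs hne
    simp only [G, norm_mul, hn] at h3 ⊢
    have he := Real.exp_pos T
    rw [mul_div_right_comm]
    refine mul_le_mul_of_nonneg_right (h3.trans ?_) he.le
    refine (div_le_div_of_nonneg_right (le_abs_self K) (by positivity)).trans ?_
    refine div_le_div_of_nonneg_left (abs_nonneg _) (by positivity) ?_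
    exact mul_le_mul_of_nonneg_left hd (by positivity)
  have v1 : Tendsto (fun T : ℝ => ∫ y : ℝ in (-θ)..θ, G (T + y * I)) atTop (𝓝 0) := by
    have t1 : Tendsto (fun T : ℝ => |K| * (Real.exp T - m)⁻¹ * |θ - -θ|) atTop
        (𝓝 (|K| * 0 * |θ - -θ|)) :=
      ((tendsto_inv_atTop_zero.comp (tendsto_atTop_add_const_right _ (-m)
        Real.tendsto_exp_atTop)).const_mul _).mul_const _
    simp only [mul_zero, zero_mul] at t1
    refine squeeze_zero_norm' ?_ t1
    filter_upwards [Real.tendsto_exp_atTop.eventually_gt_atTop m] with T hT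
    refine (hvert T hT.ne').trans (mul_le_mul_of_nonneg_right ?_ (abs_nonneg _))
    have he := Real.exp_pos T
    have h5 : 0 < Real.exp T - m := by linarith
    rw [abs_of_pos h5, mul_div_assoc]
    refine mul_le_mul_of_nonneg_left ?_ (abs_nonneg _)
    rw [div_le_iff₀ (by positivity)]
    field_simp
    linarith
  have v2 : Tendsto (fun T : ℝ => ∫ y : ℝ in (-θ)..θ, G ((-T : ℝ) + y * I)) atTop (𝓝 0) := by
    have t0 : Tendsto (fun T : ℝ => Real.exp (-T)) atTop (𝓝 0) := Real.tendsto_exp_neg_atTop_nhds_zero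
    have t1 : Tendsto (fun T : ℝ => |K| * Real.exp (-T) /
        ((1 + Real.exp (-T)) * |Real.exp (-T) - m|) * |θ - -θ|) atTop
        (𝓝 (|K| * 0 / ((1 + 0) * |0 - m|) * |θ - -θ|)) := by
      refine (Tendsto.div (t0.const_mul _) ((t0.const_add 1).mul (t0.sub_const m).abs) ?_).mul_const _
      simp
      linarith
    simp only [mul_zero, zero_div, zero_mul] at t1
    refine squeeze_zero_norm' ?_ t1
    filter_upwards [t0.eventually (gt_mem_nhds (show (0 : ℝ) < m by linarith))] with T hT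
    exact hvert (-T) hT.ne
  have lim2 : Tendsto (fun T : ℝ => ∫ x in (-T)..T,
      (G (x + ((-θ : ℝ) : ℂ) * I) - G (x + θ * I))) atTop (𝓝 (I • 0 - I • 0)) := by
    refine ((v2.const_smul I).sub (v1.const_smul I)).congr fun T => ?_
    have := integral_boundary_rect_eq_zero_of_differentiableOn G ⟨-T, -θ⟩ ⟨T, θ⟩ (hG.mono (by
      intro w hw
      have h3 := hw.2
      simp only [mem_preimage] at h3
      rw [uIcc_of_le (by linarith)] at h3
      have h4 : -θ ≤ w.im := h3.1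
      have h5 : w.im ≤ θ := h3.2
      exact (abs_lt.2 ⟨by linarith, by linarith⟩ : |w.im| < σ)))
    simp only at this
    rw [intervalIntegral.integral_sub
      ((hline (-θ) (by rw [abs_neg, abs_of_pos h0]; exact h1)).intervalIntegrable _ _)
      ((hline θ (by rw [abs_of_pos h0]; exact h1)).intervalIntegrable _ _)]
    linear_combination (-1 : ℂ) * this
  have := tendsto_nhds_unique lim1 lim2
  simpa using this

/-- Cauchy's formula on the boundary of a sector. -/
theorem cauchy {f : ℂ → ℂ} {θ σ K m : ℝ} (h0 : 0 < θ) (h1 : θ < σ) (h2 : σ < Real.pi)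
    (hm : 1 ≤ m) (hf : DifferentiableOn ℂ f (Sector σ))
    (hb : ∀ l ∈ Sector σ, ‖f l‖ ≤ K / (1 + ‖l‖)) :
    ∫ r in Ioi (0 : ℝ), (f (r * exp (((-θ : ℝ) : ℂ) * I)) * exp (((-θ : ℝ) : ℂ) * I) *
      (r * exp (((-θ : ℝ) : ℂ) * I) - m)⁻¹ -
      f (r * exp (θ * I)) * exp (θ * I) * (r * exp (θ * I) - m)⁻¹) = 2 * Real.pi * I * f m := by
  have hσ : 0 < σ := h0.trans h1
  have hm0 : (0 : ℝ) < m := by linarith
  have hc := cst_pos (ω := Real.pi - σ) (by linarith) (by linarith)
  have hadd : ∀ l ∈ Sector σ, cst (Real.pi - σ) * (1 + ‖l‖) ≤ ‖l + 1‖ := by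
    intro l hl
    have := add_ge h2 hl (m := 1) zero_le_one
    rwa [add_comm ‖l‖, Complex.ofReal_one] at this
  have hne1 : ∀ l ∈ Sector σ, l + 1 ≠ 0 := by
    intro l hl h
    have := hadd l hl
    rw [h, norm_zero] at this
    have : 0 < cst (Real.pi - σ) * (1 + ‖l‖) := by positivity
    linarith
  let h : ℂ → ℂ := fun l => (m + 1) / (l + 1)
  have hh : DifferentiableOn ℂ h (Sector σ) :=
    (differentiableOn_const _).div (by fun_prop) hne1
  have hhb : ∀ l ∈ Sector σ, ‖h l‖ ≤ (m + 1) / cst (Real.pi - σ) / (1 + ‖l‖) := by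
    intro l hl
    simp only [h, norm_div]
    rw [show ((m : ℂ) + 1) = ((m + 1 : ℝ) : ℂ) by push_cast; ring, Complex.norm_real,
      Real.norm_of_nonneg (by linarith), div_div]
    exact div_le_div_of_nonneg_left (by linarith) (by positivity) (hadd l hl)
  let F : ℂ → ℂ := fun l => f l - f m * h l
  have hF : DifferentiableOn ℂ F (Sector σ) := hf.sub (hh.const_mul _)
  have hmm : (m : ℂ) + 1 ≠ 0 := hne1 _ (ofReal_mem_sector hσ hm0)
  have hFm : F m = 0 := by simp [F, h, div_self hmm]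
  have hg : DifferentiableOn ℂ (dslope F m) (Sector σ) :=
    (differentiableOn_dslope ((isOpen_sector h2).mem_nhds (ofReal_mem_sector hσ hm0))).2 hF
  have hgv : ∀ l : ℂ, l ≠ m → dslope F m l = F l * (l - m)⁻¹ := by
    intro l hl
    rw [dslope_of_ne _ hl, slope_def_field, hFm, sub_zero, div_eq_mul_inv]
  have hbound : ∀ (φ : ℂ → ℂ) (L : ℝ), (∀ l ∈ Sector σ, ‖φ l‖ ≤ L / (1 + ‖l‖)) →
      ∀ l ∈ Sector σ, l ≠ m → ‖φ l * (l - m)⁻¹‖ ≤ L / ((1 + ‖l‖) * ‖l - m‖) := by
    intro φ L hφ l hl _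
    rw [norm_mul, norm_inv, ← div_div, div_eq_mul_inv (L / _)]
    exact mul_le_mul_of_nonneg_right (hφ l hl) (by positivity)
  have hFb : ∀ l ∈ Sector σ,
      ‖F l‖ ≤ (K + ‖f m‖ * ((m + 1) / cst (Real.pi - σ))) / (1 + ‖l‖) := by
    intro l hl
    refine (norm_sub_le _ _).trans ?_
    rw [add_div, norm_mul, mul_div_assoc]
    exact add_le_add (hb l hl) (mul_le_mul_of_nonneg_left (hhb l hl) (norm_nonneg _))
  have z := zero_int h0 h1 h2 hm hg (K := K + ‖f m‖ * ((m + 1) / cst (Real.pi - σ)))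
    (fun l hl hne => by rw [hgv l hne]; exact hbound F _ hFb l hl hne)
  have hcont : ∀ φ : ℂ → ℂ, DifferentiableOn ℂ φ (Sector σ) →
      ContinuousOn (fun l => φ l * (l - m)⁻¹) (Sector σ \ {(m : ℂ)}) := by
    intro φ hφ
    refine (hφ.continuousOn.mono sdiff_subset).mul (ContinuousOn.inv₀ (by fun_prop) ?_)
    intro l hl
    exact sub_ne_zero.2 hl.2
  have hne : ∀ η : ℝ, |η| = θ → ∀ r : ℝ, 0 < r → (r : ℂ) * exp (η * I) ≠ m := by
    intro η hη r hr h
    have := ray_dist h0 (h1.trans h2) hη hr hm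
    rw [h, sub_self, norm_zero] at this
    have := cst_pos h0 (h1.trans h2)
    have : 0 < cst θ * (1 + r) := by positivity
    linarith
  have a1 : |(-θ)| = θ := by rw [abs_neg, abs_of_pos h0]
  have a2 : |θ| = θ := abs_of_pos h0
  have hpf : ∀ η : ℝ, |η| = θ → ∀ r : ℝ, 0 < r →
      h (r * exp (η * I)) * (r * exp (η * I) - m)⁻¹ * exp (η * I) =
      (1 / (r * exp (η * I) - m) - 1 / (r * exp (η * I) + 1)) * exp (η * I) := by
    intro η hη r hr
    have e1 := sub_ne_zero.2 (hne η hη r hr)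
    have e2 := hne1 _ (ray_mem (hη ▸ h1) h2 hr)
    simp only [h]
    field_simp
    ring
  have ih : ∀ η : ℝ, |η| = θ → IntegrableOn (fun r : ℝ =>
      (1 / (r * exp (η * I) - m) - 1 / (r * exp (η * I) + 1)) * exp (η * I)) (Ioi 0) := by
    intro η hη
    exact (ray_integrable h0 h1 h2 hη hm (hcont h hh) (hbound h _ hhb)).congr_fun
      (fun r hr => hpf η hη r hr) measurableSet_Ioi
  have hsin : 0 < Real.sin θ := Real.sin_pos_of_pos_of_lt_pi h0 (h1.trans h2)
  have x1 := explicit_int (u := exp (((-θ : ℝ) : ℂ) * I)) (κ := I) (by simp)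
    (by rw [Complex.exp_ofReal_mul_I_im]; simpa using hsin) hm0 (ih _ a1)
  have x2 := explicit_int (u := exp ((θ : ℂ) * I)) (κ := -I) (by simp)
    (by rw [Complex.exp_ofReal_mul_I_im]; simpa using hsin) hm0 (ih _ a2)
  rw [Complex.log_ofReal_mul hm0 (by simp), Complex.log_I, Complex.log_neg_I] at x1
  rw [Complex.log_ofReal_mul hm0 (by simp), neg_neg, Complex.log_I, Complex.log_neg_I] at x2
  have i1 := ray_integrable h0 h1 h2 a1 hm (hg.continuousOn.mono sdiff_subset)
    (K := K + ‖f m‖ * ((m + 1) / cst (Real.pi - σ)))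
    (fun l hl hne => by rw [hgv l hne]; exact hbound F _ hFb l hl hne)
  have i2 := ray_integrable h0 h1 h2 a2 hm (hg.continuousOn.mono sdiff_subset)
    (K := K + ‖f m‖ * ((m + 1) / cst (Real.pi - σ)))
    (fun l hl hne => by rw [hgv l hne]; exact hbound F _ hFb l hl hne)
  have key : ∫ r in Ioi (0 : ℝ), (f (r * exp (((-θ : ℝ) : ℂ) * I)) * exp (((-θ : ℝ) : ℂ) * I) *
      (r * exp (((-θ : ℝ) : ℂ) * I) - m)⁻¹ -
      f (r * exp (θ * I)) * exp (θ * I) * (r * exp (θ * I) - m)⁻¹) =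
      ∫ r in Ioi (0 : ℝ), ((dslope F m (r * exp (((-θ : ℝ) : ℂ) * I)) * exp (((-θ : ℝ) : ℂ) * I) -
        dslope F m (r * exp (θ * I)) * exp (θ * I)) +
        f m * ((1 / (r * exp (((-θ : ℝ) : ℂ) * I) - m) - 1 / (r * exp (((-θ : ℝ) : ℂ) * I) + 1)) *
          exp (((-θ : ℝ) : ℂ) * I) -
        (1 / (r * exp (θ * I) - m) - 1 / (r * exp (θ * I) + 1)) * exp (θ * I))) := by
    refine setIntegral_congr_fun measurableSet_Ioi fun r hr => ?_
    rw [hgv _ (hne _ a1 r hr), hgv _ (hne _ a2 r hr), ← hpf _ a1 r hr, ← hpf _ a2 r hr]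
    simp only [F]
    ring
  have s1 := integral_add (i1.sub i2) (((ih _ a1).sub (ih _ a2)).const_mul (f m))
  have s2 := integral_sub (ih _ a1) (ih _ a2)
  simp only [Pi.sub_apply] at s1
  rw [key, s1, z, integral_const_mul, s2, x1, x2]
  ring

end Pool.Agent.H97Z.Sec
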