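import Mathlib

set_option autoImplicit false

open Complex Filter Topology MeasureTheory Set

noncomputable section

namespace Pool.Agent.H97Z.Sec

variable {X : Type} [NormedAddCommGroup X] [NormedSpace ℂ X]

/-- The open sector `Σ_ω = {z ≠ 0 : |arg z| < ω}`. -/
def Sector (ω : ℝ) : Set ℂ := {z | z ≠ 0 ∧ |arg z| < ω}

/-- `R` is a bounded two-sided inverse of `l - A`. -/
def IsResolventAt (A : X →ₗ.[ℂ] X) (l : ℂ) (R : X →L[ℂ] X) : Prop :=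
  (∀ y : X, ∃ h : R y ∈ A.domain, l • R y - A ⟨R y, h⟩ = y) ∧
    ∀ x : A.domain, R (l • (x : X) - A x) = x

/-- The resolvent set of `A` (the complement of the spectrum). -/
def resolventSet (A : X →ₗ.[ℂ] X) : Set ℂ := {l | ∃ R, IsResolventAt A l R}

open Classical in
/-- The resolvent `R(l, A) = (l - A)⁻¹` (and `0` for `l` in the spectrum). -/
def resolvent (A : X →ₗ.[ℂ] X) (l : ℂ) : X →L[ℂ] X :=
  if h : ∃ R, IsResolventAt A l R then h.choose else 0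

/-- The spectrum lies in the closed sector of angle `ω ∈ (0, π)` and `l R(l, A)` is bounded outside
the closed sector of angle `ω + ε`, for each `ε > 0`. -/
def IsSectorialOfAngle (A : X →ₗ.[ℂ] X) (ω : ℝ) : Prop :=
  0 < ω ∧ ω < Real.pi ∧ (closure (Sector ω))ᶜ ⊆ resolventSet A ∧
    ∀ ε > 0, ∃ C : ℝ, ∀ l ∉ closure (Sector (ω + ε)), ‖l • resolvent A l‖ ≤ C

/-- Sectorial: closed, dense domain, dense range, and sectorial of some angle. -/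
def IsSectorial (A : X →ₗ.[ℂ] X) : Prop :=
  A.IsClosed ∧ Dense (A.domain : Set X) ∧ Dense (range fun x : A.domain => A x) ∧
    ∃ ω, IsSectorialOfAngle A ω

/-- The angle `ω(A)`. -/
def sectAngle (A : X →ₗ.[ℂ] X) : ℝ := sInf {ω | IsSectorialOfAngle A ω}

/-- The class `H_0^∞(Σ_σ)`. -/
def IsH0 (σ : ℝ) (f : ℂ → ℂ) : Prop :=
  DifferentiableOn ℂ f (Sector σ) ∧ ∃ C ε : ℝ, 0 < C ∧ 0 < ε ∧
    ∀ l ∈ Sector σ, ‖f l‖ ≤ C * ‖l‖ ^ ε * (1 + ‖l‖) ^ (-2 * ε)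

/-- `f(A) = (2πi)⁻¹ ∫_{∂Σ_θ} f(l) R(l, A) dl`, the boundary running from `∞ e^{iθ}` to `0` and
from `0` to `∞ e^{-iθ}`. -/
def funCalc (A : X →ₗ.[ℂ] X) (θ : ℝ) (f : ℂ → ℂ) : X →L[ℂ] X :=
  (2 * Real.pi * I)⁻¹ • ∫ r in Ioi (0 : ℝ),
    ((f (r * exp (-(θ * I))) * exp (-(θ * I))) • resolvent A (r * exp (-(θ * I))) -
      (f (r * exp (θ * I)) * exp (θ * I)) • resolvent A (r * exp (θ * I)))

/-- Bounded `H^∞`-calculus: for some `ω(A) < σ' < σ < π` and some `C`,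
`‖f(A)‖ ≤ C sup_{Σ_σ} |f|` for all `f ∈ H_0^∞(Σ_σ)`. -/
def HasBoundedHinf (A : X →ₗ.[ℂ] X) : Prop :=
  ∃ σ σ' : ℝ, sectAngle A < σ' ∧ σ' < σ ∧ σ < Real.pi ∧ ∃ C : ℝ, ∀ f, IsH0 σ f →
    ∀ M : ℝ, (∀ z ∈ Sector σ, ‖f z‖ ≤ M) → ‖funCalc A σ' f‖ ≤ C * M

/-- The regulariser `ρ(z) = z / (1 + z)²`. -/
def rho (z : ℂ) : ℂ := z / (1 + z) ^ 2

/-- The imaginary power `A^{is} = ρ(A)⁻¹ (ρ z^{is})(A)` of the extended functional calculus has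
graph `{(x, y) : ρ(A) y = (ρ z^{is})(A) x}`; this says that it is bounded on its domain. -/
def ImPowerBounded (A : X →ₗ.[ℂ] X) (s : ℝ) : Prop :=
  ∃ σ' : ℝ, sectAngle A < σ' ∧ σ' < Real.pi ∧ ∃ C : ℝ, ∀ x y : X,
    funCalc A σ' rho y = funCalc A σ' (fun z => rho z * z ^ (I * s)) x → ‖y‖ ≤ C * ‖x‖

/-- The Rademacher function `r_k(t) = sign (sin (2^k π t))`. -/
def rad (k : ℕ) (t : ℝ) : ℝ := Real.sign (Real.sin (2 ^ k * Real.pi * t))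

/-- The norm of `∑_{k=1}^n r_k y_k` in `L_2([0,1]; X)`. -/
def radNorm {n : ℕ} (y : Fin n → X) : ℝ :=
  Real.sqrt (∫ t in (0 : ℝ)..1, ‖∑ k : Fin n, (rad (k + 1) t : ℂ) • y k‖ ^ 2)

/-- `R`-bounded sets of operators. -/
def RBounded (𝒯 : Set (X →L[ℂ] X)) : Prop :=
  ∃ C : ℝ, ∀ (n : ℕ) (T : Fin n → X →L[ℂ] X) (x : Fin n → X), (∀ k, T k ∈ 𝒯) →
    radNorm (fun k => T k (x k)) ≤ C * radNorm x

/-- `R`-sectorial: `{l R(l, A) : l ∉ closure Σ_ω}` is `R`-bounded for some `ω ∈ (ω(A), π)`. -/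
def IsRSectorial (A : X →ₗ.[ℂ] X) : Prop :=
  ∃ ω : ℝ, sectAngle A < ω ∧ ω < Real.pi ∧
    RBounded {T | ∃ l ∉ closure (Sector ω), T = l • resolvent A l}

/-- `C₀`-semigroup (only the values at `t ≥ 0` matter). -/
def IsC0Semigroup (T : ℝ → X →L[ℂ] X) : Prop :=
  T 0 = 1 ∧ (∀ s t : ℝ, 0 ≤ s → 0 ≤ t → T (s + t) = T s * T t) ∧
    ∀ x : X, ContinuousOn (fun t => T t x) (Ici 0)

/-- `-A` is the generator of `T`: `(T t x - x) / t` converges as `t ↓ 0` exactly for `x` in the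
domain of `A`, and then the limit is `-A x`. -/
def NegGenerates (A : X →ₗ.[ℂ] X) (T : ℝ → X →L[ℂ] X) : Prop :=
  (∀ x : A.domain, Tendsto (fun t : ℝ => (t : ℂ)⁻¹ • (T t x - x)) (𝓝[>] 0) (𝓝 (-A x))) ∧
    ∀ x y : X, Tendsto (fun t : ℝ => (t : ℂ)⁻¹ • (T t x - x)) (𝓝[>] 0) (𝓝 y) → x ∈ A.domain

/-- `-A` generates a `C₀`-semigroup that maps the cone `P` into itself. -/
def NegGeneratesPositive (A : X →ₗ.[ℂ] X) (P : Set X) : Prop :=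
  ∃ T : ℝ → X →L[ℂ] X, IsC0Semigroup T ∧ NegGenerates A T ∧ ∀ t : ℝ, 0 ≤ t → ∀ x ∈ P, T t x ∈ P

/-- The almost everywhere nonnegative functions in `L_p(μ)`. -/
def posCone {Ω : Type} [MeasurableSpace Ω] (p : ENNReal) (μ : Measure Ω) : Set (Lp ℂ p μ) :=
  {f | ∀ᵐ x ∂μ, 0 ≤ (f x).re ∧ (f x).im = 0}

end Pool.Agent.H97Z.Sec
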