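import Pool.Agent.H97Z.SecLp

set_option autoImplicit false

open Complex Filter Topology MeasureTheory Set
open scoped ENNReal

noncomputable section

namespace Pool.Agent.H97Z.Sec

variable {p : ℝ≥0∞} [Fact (1 ≤ p)]

/-- the times -/
def tau : Idx → ℕ := Sum.elim id fun c => (c.2 + 1) * 2 ^ c.1

theorem lt_of_div {i r q : ℕ} (h : i / 2 ^ r = q) : i < (q + 1) * 2 ^ r := by
  have := Finset.mem_Ico.1 (mem_Ico_of_div h)
  rw [add_mul, one_mul]
  exact this.2

theorem div_eq_iff' {i k r q : ℕ} (h : i / 2 ^ r = q) (hk : i ≤ k) :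
    k / 2 ^ r = q ↔ k < (q + 1) * 2 ^ r := by
  refine ⟨lt_of_div, fun h1 => le_antisymm ?_ (h ▸ Nat.div_le_div_right hk)⟩
  exact Nat.lt_succ_iff.1 ((Nat.div_lt_iff_lt_mul (by positivity)).2 h1)

theorem ext_single (hp : p ≠ ∞) {f g : El p →L[ℂ] ℂ}
    (h : ∀ i z, f (lp.single p i z) = g (lp.single p i z)) : f = g :=
  lp.ext_continuousLinearMap hp fun i => ContinuousLinearMap.ext fun z => h i z

/-- the properties of the example -/
structure Good (M : MS (El p) Idx) : Prop where
  tau_eq : M.τ = tau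
  col : ∀ B g, M.IsMult B g → ∀ x c, B x (Sum.inr c) = g (tau (Sum.inr c)) * x (Sum.inr c)
  row1 : ∀ B g, M.IsMult B g → ∀ j z i, B (lp.single p (Sum.inl j) z) (Sum.inl i) =
    g i * lp.single (E := fun _ : Idx => ℂ) p (Sum.inl j) z (Sum.inl i)
  row2 : ∀ B g, M.IsMult B g → ∀ r q z i, B (lp.single p (Sum.inr (r, q)) z) (Sum.inl i) =
    if i / 2 ^ r = q then ((aa p ^ r : ℝ) : ℂ) * (g i - g ((q + 1) * 2 ^ r)) * z else 0

theorem exists_good (hp : p ≠ ∞) : ∃ M : MS (El p) Idx, Good M := by
  have hP := toReal_pos' hp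
  choose W h1 h2 h3 h4 using exists_Tk hp
  have h3' : ∀ k (x y : El p), (∀ c, x (Sum.inr c) = y (Sum.inr c)) → W k x = W k y := by
    intro k x y h
    rw [← sub_eq_zero, ← map_sub]
    exact h3 k _ fun c => by rw [lp.coeFn_sub, Pi.sub_apply, h, sub_self]
  have ha0 := aa_pos (p := p)
  have ha1 := aa_lt_one hp
  have hC : 1 ≤ (1 - aa p)⁻¹ := (one_le_inv₀ (by linarith)).2 (by linarith)
  let e : Idx → El p →L[ℂ] ℂ := fun i => lp.evalCLM ℂ (fun _ : Idx => ℂ) p i
  let φ : Idx → El p →L[ℂ] ℂ :=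
    Sum.elim (fun i => e (Sum.inl i) + (e (Sum.inl i)).comp (W i)) fun c => e (Sum.inr c)
  have φ1 : ∀ i x, φ (Sum.inl i) x = x (Sum.inl i) + W i x (Sum.inl i) := fun _ _ => rfl
  have φ2 : ∀ c x, φ (Sum.inr c) x = x (Sum.inr c) := fun _ _ => rfl
  have s1 : ∀ k j z, W k (lp.single p (Sum.inl j) z) = 0 := fun k j z =>
    h3 k _ fun c => lp.single_apply_ne p _ _ (by simp)
  have s2 : ∀ c z i, lp.single (E := fun _ : Idx => ℂ) p (Sum.inr c) z (Sum.inl i) = 0 :=
    fun c z i => lp.single_apply_ne p _ _ (by simp)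
  have s3 : ∀ (g : ℕ → ℂ) c z (y : El p), (∀ c', y (Sum.inr c') = g (tau (Sum.inr c')) *
      lp.single (E := fun _ : Idx => ℂ) p (Sum.inr c) z (Sum.inr c')) → ∀ k,
      W k y = W k (lp.single p (Sum.inr c) (g (tau (Sum.inr c)) * z)) := by
    intro g c z y hy k
    refine h3' k _ _ fun c' => ?_
    rw [hy]
    by_cases h : c' = c
    · subst h
      rw [lp.single_apply_self, lp.single_apply_self]
    · rw [lp.single_apply_ne p _ _ (by simpa using h), lp.single_apply_ne p _ _ (by simpa using h),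
        mul_zero]
  refine ⟨⟨φ, tau, (1 - aa p)⁻¹, by linarith, fun x hx => ?_, fun g S V hS hV => ?_, ?_⟩,
    rfl, fun B g hB x c => hB (Sum.inr c) x, fun B g hB j z i => ?_, fun B g hB r q z i => ?_⟩
  · have h5 : ∀ k, W k x = 0 := fun k => h3 k x fun c => hx (Sum.inr c)
    refine lp.ext (funext fun i => ?_)
    rcases i with i | i
    · simpa [φ1, h5] using hx (Sum.inl i)
    · exact hx (Sum.inr i)
  · have hS0 : 0 ≤ S := (norm_nonneg _).trans (hS 0)
    have hV0 : 0 ≤ V := by simpa using hV 0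
    obtain ⟨D, hD1, hD2⟩ := exists_wc hp id (fun i => g (tau i)) S hS0 (by
      intro j s hs
      have : s ⊆ {j} := fun i hi => Finset.mem_singleton.2 (hs i hi)
      refine (Finset.sum_le_sum_of_subset_of_nonneg this fun _ _ _ => by positivity).trans ?_
      rw [Finset.sum_singleton]
      exact Real.rpow_le_rpow (norm_nonneg _) (hS _) hP.le)
    have hsum : Summable fun k => ‖g k - g (k + 1)‖ :=
      summable_of_sum_range_le (fun _ => norm_nonneg _) hV
    have hb : ∀ k, ‖(g k - g (k + 1)) • W k‖ ≤ ‖g k - g (k + 1)‖ * (1 - aa p)⁻¹ := fun k => by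
      rw [norm_smul]
      exact mul_le_mul_of_nonneg_left (h1 k) (norm_nonneg _)
    have hs : Summable fun k => (g k - g (k + 1)) • W k :=
      Summable.of_norm_bounded (hsum.mul_right _) hb
    set K := ∑' k, (g k - g (k + 1)) • W k with hK
    have hK1 : ‖K‖ ≤ V * (1 - aa p)⁻¹ := by
      refine (tsum_of_norm_bounded (hsum.mul_right _).hasSum hb).trans ?_
      rw [tsum_mul_right]
      exact mul_le_mul_of_nonneg_right
        (Real.tsum_le_of_sum_range_le (fun _ => norm_nonneg _) hV) (by linarith)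
    have hK2 : ∀ x i, K x i = ∑' k, (g k - g (k + 1)) * W k x i := fun x i => by
      rw [hK, tsum_ev hs]
      rfl
    have hT : ∀ x i, (D + K) x i = g (tau i) * x i + ∑' k, (g k - g (k + 1)) * W k x i :=
      fun x i => by
        rw [← hK2]
        change D x i + K x i = _
        rw [hD2]
        rfl
    have hT2 : ∀ x c, (D + K) x (Sum.inr c) = g (tau (Sum.inr c)) * x (Sum.inr c) := fun x c => by
      rw [hT]
      simp [h2]
    refine ⟨D + K, (norm_add_le _ _).trans (by nlinarith), fun n x => ?_⟩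
    rcases n with i | c
    swap
    · exact hT2 x c
    have key : (φ (Sum.inl i)).comp (D + K) = g i • φ (Sum.inl i) := by
      refine ext_single hp fun j z => ?_
      change φ (Sum.inl i) ((D + K) _) = g i * φ (Sum.inl i) _
      rw [φ1, φ1, hT]
      rcases j with j | ⟨r, q⟩
      · rw [h3 i ((D + K) _) fun c => by
          rw [hT2, lp.single_apply_ne p _ _ (by simp), mul_zero]]
        simp [s1, tau]
      · rw [s3 g (r, q) z _ (hT2 _) i]
        simp only [h4, s2, le_refl, true_and, and_self, mul_zero, zero_add]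
        by_cases h : i / 2 ^ r = q
        · rw [tsum_eq_sum (s := Finset.Ico i ((q + 1) * 2 ^ r)) fun k hk => by
            rw [if_neg, mul_zero]
            rintro ⟨a1, -, a2⟩
            exact hk (Finset.mem_Ico.2 ⟨a1, lt_of_div a2⟩)]
          rw [Finset.sum_congr rfl fun k hk => by
            rw [if_pos ⟨(Finset.mem_Ico.1 hk).1, h,
              (div_eq_iff' h (Finset.mem_Ico.1 hk).1).2 (Finset.mem_Ico.1 hk).2⟩]]
          rw [← Finset.sum_mul, Finset.sum_Ico_eq_sub _ (lt_of_div h).le, Finset.sum_range_sub',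
            Finset.sum_range_sub', if_pos h, if_pos h]
          simp only [tau, Sum.elim_inr]
          ring
        · simp [h]
    exact congrArg (fun f : El p →L[ℂ] ℂ => f x) key
  · intro x
    refine mem_closure_of_tendsto (lp.hasSum_single hp x) (Eventually.of_forall fun s => ?_)
    refine ⟨s.sup tau + 1, fun n hn => ?_⟩
    rw [map_sum]
    refine Finset.sum_eq_zero fun j hj => ?_
    have h5 : tau j < tau n := lt_of_le_of_lt (Finset.le_sup hj) hn
    have h6 : n ≠ j := fun h => by rw [h] at h5; exact lt_irrefl _ h5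
    rcases n with i | c
    · rw [φ1, lp.single_apply_ne p _ _ h6, zero_add]
      rcases j with j | ⟨r, q⟩
      · simp [s1]
      · rw [h4, if_neg]
        rintro ⟨-, a1, -⟩
        exact absurd (lt_of_div a1) (not_lt.2 h5.le)
    · exact lp.single_apply_ne p _ _ h6
  · have h5 := hB (Sum.inl i) (lp.single p (Sum.inl j) z)
    change φ _ _ = g i * φ _ _ at h5
    rw [φ1, φ1, s1, h3 i (B _) fun c => (hB (Sum.inr c) _).trans (by
      change _ * φ _ _ = 0
      rw [φ2, lp.single_apply_ne p _ _ (by simp), mul_zero])] at h5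
    simpa using h5
  · have h5 := hB (Sum.inl i) (lp.single p (Sum.inr (r, q)) z)
    change φ _ _ = g i * φ _ _ at h5
    rw [φ1, φ1, s3 g (r, q) z (B _) (fun c => hB (Sum.inr c) _) i] at h5
    simp only [h4, s2, le_refl, true_and, and_self, zero_add] at h5
    split_ifs at h5 ⊢ with h
    · simp only [tau, Sum.elim_inr] at h5
      linear_combination h5
    · simpa using h5

end Pool.Agent.H97Z.Sec
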