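import Pool.Agent.H97Z.SecNA

set_option autoImplicit false

open Complex Filter Topology MeasureTheory Set
open scoped ENNReal

noncomputable section

namespace Pool.Agent.H97Z.Sec

/-- the index set: rows and columns -/
abbrev Idx : Type := ℕ ⊕ (ℕ × ℕ)

/-- the sequence space -/
abbrev El (p : ℝ≥0∞) : Type := lp (fun _ : Idx => ℂ) p

variable {p : ℝ≥0∞} [Fact (1 ≤ p)]

theorem toReal_pos' (hp : p ≠ ∞) : 0 < p.toReal :=
  ENNReal.toReal_pos (zero_lt_one.trans_le (Fact.out : 1 ≤ p)).ne' hp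

theorem exists_wc (hp : p ≠ ∞) (σ : Idx → Idx) (c : Idx → ℂ) (θ : ℝ) (hθ : 0 ≤ θ)
    (h : ∀ (j : Idx) (s : Finset Idx), (∀ i ∈ s, σ i = j) →
      ∑ i ∈ s, ‖c i‖ ^ p.toReal ≤ θ ^ p.toReal) :
    ∃ W : El p →L[ℂ] El p, ‖W‖ ≤ θ ∧ ∀ x i, W x i = c i * x (σ i) := by
  have hP := toReal_pos' hp
  have key : ∀ (x : El p) (s : Finset Idx),
      ∑ i ∈ s, ‖c i * x (σ i)‖ ^ p.toReal ≤ (θ * ‖x‖) ^ p.toReal := by
    intro x s
    rw [← Finset.sum_fiberwise_of_maps_to (g := σ) (t := s.image σ)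
      (fun i hi => Finset.mem_image_of_mem σ hi), Real.mul_rpow hθ (norm_nonneg _)]
    refine le_trans ?_ (mul_le_mul_of_nonneg_left (lp.sum_rpow_le_norm_rpow hP x (s.image σ))
      (by positivity))
    rw [Finset.mul_sum]
    refine Finset.sum_le_sum fun j _ => ?_
    refine le_trans (le_of_eq ?_) (mul_le_mul_of_nonneg_right
      (h j (s.filter fun i => σ i = j) fun i hi => (Finset.mem_filter.1 hi).2) (by positivity))
    rw [Finset.sum_mul]
    refine Finset.sum_congr rfl fun i hi => ?_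
    rw [(Finset.mem_filter.1 hi).2, norm_mul, Real.mul_rpow (norm_nonneg _) (norm_nonneg _)]
  let L : El p →ₗ[ℂ] El p :=
    { toFun := fun x => ⟨fun i => c i * x (σ i), memℓp_gen' (key x)⟩
      map_add' := fun x y => lp.ext (funext fun i => by
        change c i * (x + y) (σ i) = c i * x (σ i) + c i * y (σ i)
        rw [lp.coeFn_add, Pi.add_apply, mul_add])
      map_smul' := fun a x => lp.ext (funext fun i => by
        change c i * (a • x) (σ i) = a * (c i * x (σ i))
        rw [lp.coeFn_smul, Pi.smul_apply, smul_eq_mul]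
        ring) }
  have hL : ∀ x, ‖L x‖ ≤ θ * ‖x‖ := fun x =>
    lp.norm_le_of_forall_sum_le hP (by positivity) (key x)
  exact ⟨L.mkContinuous θ hL, L.mkContinuous_norm_le hθ hL, fun x i => rfl⟩

/-- the number `2 ^ (-1 / p)` -/
def aa (p : ℝ≥0∞) : ℝ := (1 / 2 : ℝ) ^ (p.toReal)⁻¹

theorem aa_pos : 0 < aa p := Real.rpow_pos_of_pos (by norm_num) _

theorem aa_lt_one (hp : p ≠ ∞) : aa p < 1 :=
  Real.rpow_lt_one (by norm_num) (by norm_num) (inv_pos.2 (toReal_pos' hp))

theorem aa_pow_rpow (hp : p ≠ ∞) (r : ℕ) : (aa p ^ r) ^ p.toReal = (1 / 2) ^ r := by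
  rw [← Real.rpow_pow_comm aa_pos.le, aa, Real.rpow_inv_rpow (by norm_num) (toReal_pos' hp).ne']

theorem exists_lev (k i : ℕ) : ∃ s : ℕ, i / 2 ^ s = k / 2 ^ s := by
  refine ⟨i + k, ?_⟩
  rw [Nat.div_eq_of_lt, Nat.div_eq_of_lt]
  · exact lt_of_le_of_lt (by omega) Nat.lt_two_pow_self
  · exact lt_of_le_of_lt (by omega) Nat.lt_two_pow_self

/-- the first level where the dyadic intervals agree -/
def lev (k i : ℕ) : ℕ := Nat.find (exists_lev k i)

theorem lev_le_iff (k i r : ℕ) : lev k i ≤ r ↔ i / 2 ^ r = k / 2 ^ r := by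
  refine ⟨fun h => ?_, fun h => Nat.find_min' _ h⟩
  obtain ⟨d, rfl⟩ := Nat.exists_eq_add_of_le h
  rw [pow_add, ← Nat.div_div_eq_div_mul, ← Nat.div_div_eq_div_mul]
  congr 1
  exact Nat.find_spec (exists_lev k i)

theorem mem_Ico_of_div {i s q : ℕ} (h : i / 2 ^ s = q) :
    i ∈ Finset.Ico (q * 2 ^ s) (q * 2 ^ s + 2 ^ s) := by
  have h1 := Nat.div_add_mod i (2 ^ s)
  have h2 := Nat.mod_lt i (show 0 < 2 ^ s by positivity)
  rw [h, mul_comm] at h1
  rw [Finset.mem_Ico]
  omega

theorem exists_Tkd (hp : p ≠ ∞) (k d : ℕ) : ∃ W : El p →L[ℂ] El p, ‖W‖ ≤ aa p ^ d ∧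
    (∀ x c, W x (Sum.inr c) = 0) ∧ ∀ x i, W x (Sum.inl i) =
      if i ≤ k then ((aa p ^ (lev k i + d) : ℝ) : ℂ) *
        x (Sum.inr (lev k i + d, k / 2 ^ (lev k i + d))) else 0 := by
  have hP := toReal_pos' hp
  obtain ⟨W, h1, h2⟩ := exists_wc hp
    (Sum.elim (fun i => Sum.inr (lev k i + d, k / 2 ^ (lev k i + d))) fun _ => Sum.inl 0)
    (Sum.elim (fun i => if i ≤ k then ((aa p ^ (lev k i + d) : ℝ) : ℂ) else 0) fun _ => 0)
    (aa p ^ d) (pow_pos aa_pos d).le (by
      intro j s hs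
      rcases j with j | ⟨r, q⟩
      · refine le_trans (le_of_eq (Finset.sum_eq_zero fun i hi => ?_))
          (Real.rpow_nonneg (pow_pos aa_pos d).le _)
        rcases i with i | i
        · simpa using hs _ hi
        · simp [hP.ne']
      · have h3 : ∀ i ∈ s, ∃ i', i = Sum.inl i' ∧ lev k i' + d = r := by
          intro i hi
          rcases i with i | i
          · have := hs _ hi
            simp only [Sum.elim_inl, Sum.inr.injEq, Prod.mk.injEq] at this
            exact ⟨i, rfl, this.1⟩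
          · simpa using hs _ hi
        rcases s.eq_empty_or_nonempty with rfl | ⟨i₀, hi₀⟩
        · simpa using Real.rpow_nonneg (pow_pos aa_pos d).le _
        obtain ⟨i₁, -, hi₁⟩ := h3 i₀ hi₀
        have h4 : s.card ≤ 2 ^ (r - d) := by
          have : s ⊆ (Finset.Ico (k / 2 ^ (r - d) * 2 ^ (r - d))
              (k / 2 ^ (r - d) * 2 ^ (r - d) + 2 ^ (r - d))).image Sum.inl := by
            intro i hi
            obtain ⟨i', rfl, h5⟩ := h3 i hi
            exact Finset.mem_image_of_mem _ (mem_Ico_of_div ((lev_le_iff k i' _).1 (by omega)))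
          refine (Finset.card_le_card this).trans (Finset.card_image_le.trans ?_)
          simp
        refine (Finset.sum_le_card_nsmul s _ ((1 / 2) ^ r) fun i hi => ?_).trans ?_
        · obtain ⟨i', rfl, h5⟩ := h3 i hi
          simp only [Sum.elim_inl]
          split_ifs
          · rw [Complex.norm_real, Real.norm_of_nonneg (pow_pos aa_pos _).le, aa_pow_rpow hp, h5]
          · rw [norm_zero, Real.zero_rpow hP.ne']
            positivity
        · rw [aa_pow_rpow hp, nsmul_eq_mul]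
          have h5 : (s.card : ℝ) ≤ 2 ^ (r - d) := by exact_mod_cast h4
          refine (mul_le_mul_of_nonneg_right h5 (by positivity)).trans (le_of_eq ?_)
          obtain ⟨e, rfl⟩ := Nat.exists_eq_add_of_le (show d ≤ r by omega)
          rw [Nat.add_sub_cancel_left, pow_add, mul_left_comm, ← mul_pow]
          norm_num)
  refine ⟨W, h1, fun x c => by simp [h2], fun x i => ?_⟩
  rw [h2]
  simp only [Sum.elim_inl]
  split_ifs <;> simp

/-- evaluation -/
def ev (x : El p) (i : Idx) : (El p →L[ℂ] El p) →L[ℂ] ℂ :=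
  (lp.evalCLM ℂ (fun _ : Idx => ℂ) p i).comp (ContinuousLinearMap.apply ℂ (El p) x)

theorem ev_apply (x : El p) (i : Idx) (T : El p →L[ℂ] El p) : ev x i T = T x i := rfl

theorem tsum_ev {T : ℕ → El p →L[ℂ] El p} (h : Summable T) (x : El p) (i : Idx) :
    (∑' k, T k) x i = ∑' k, T k x i := by
  rw [← ev_apply, (ev x i).map_tsum h]
  rfl

theorem exists_Tk (hp : p ≠ ∞) (k : ℕ) : ∃ W : El p →L[ℂ] El p, ‖W‖ ≤ (1 - aa p)⁻¹ ∧
    (∀ x c, W x (Sum.inr c) = 0) ∧ (∀ x : El p, (∀ c, x (Sum.inr c) = 0) → W x = 0) ∧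
    ∀ r q z i, W (lp.single p (Sum.inr (r, q)) z) (Sum.inl i) =
      if i ≤ k ∧ i / 2 ^ r = q ∧ k / 2 ^ r = q then ((aa p ^ r : ℝ) : ℂ) * z else 0 := by
  choose W h1 h2 h3 using exists_Tkd hp k
  have hg := hasSum_geometric_of_lt_one (aa_pos (p := p)).le (aa_lt_one hp)
  have hs : Summable W := Summable.of_norm_bounded hg.summable h1
  refine ⟨∑' d, W d, tsum_of_norm_bounded hg h1, fun x c => ?_, fun x hx => ?_, fun r q z i => ?_⟩
  · rw [tsum_ev hs]
    simp [h2]
  · refine lp.ext (funext fun i => ?_)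
    rw [tsum_ev hs]
    rcases i with i | i
    · simp [h3, hx]
    · simp [h2]
  · rw [tsum_ev hs]
    simp only [h3]
    split_ifs with h4 h5 h5
    · have h6 : lev k i ≤ r := (lev_le_iff k i r).2 (h5.2.1.trans h5.2.2.symm)
      rw [tsum_eq_single (r - lev k i)]
      · rw [Nat.add_sub_cancel' h6, h5.2.2, lp.single_apply_self]
      · intro d hd
        rw [lp.single_apply_ne, mul_zero]
        simp only [ne_eq, Sum.inr.injEq, Prod.mk.injEq, not_and]
        omega
    · refine (tsum_congr fun d => ?_).trans tsum_zero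
      rw [lp.single_apply_ne, mul_zero]
      simp only [ne_eq, Sum.inr.injEq, Prod.mk.injEq, not_and]
      rintro rfl h7
      exact h5 ⟨h4, ((lev_le_iff k i _).1 (by omega)).trans h7, h7⟩
    · exact absurd h5.1 h4
    · exact tsum_zero

end Pool.Agent.H97Z.Sec
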