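import Pool.Agent.H97Z.SecDefs

set_option autoImplicit false

open Complex Filter Topology MeasureTheory Set

noncomputable section

namespace Pool.Agent.H97Z.Sec

theorem measurable_sign : Measurable Real.sign := by
  unfold Real.sign
  refine Measurable.ite measurableSet_Iio measurable_const ?_
  exact Measurable.ite measurableSet_Ioi measurable_const measurable_const

theorem measurable_rad (k : ℕ) : Measurable (rad k) :=
  measurable_sign.comp (by fun_prop)

theorem abs_rad_le (k : ℕ) (t : ℝ) : |rad k t| ≤ 1 := by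
  rcases Real.sign_apply_eq (Real.sin (2 ^ k * Real.pi * t)) with h | h | h <;> simp [rad, h]

theorem ii_of_bound {f : ℝ → ℝ} (hf : AEStronglyMeasurable f volume) {K : ℝ}
    (hK : ∀ t, |f t| ≤ K) : IntervalIntegrable f volume 0 1 := by
  refine (intervalIntegrable_const (c := K)).mono_fun hf.restrict
    (Eventually.of_forall fun t => ?_)
  exact (hK t).trans (le_abs_self K)

theorem ii_rad (j k : ℕ) : IntervalIntegrable (fun t => rad j t * rad k t) volume 0 1 :=
  ii_of_bound ((measurable_rad j).mul (measurable_rad k)).aestronglyMeasurable (K := 1) fun t => by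
    rw [abs_mul]
    exact mul_le_one₀ (abs_rad_le j t) (abs_nonneg _) (abs_rad_le k t)

theorem rad_shift {j k : ℕ} (h : j < k) (t : ℝ) : rad k (t + (1 / 2) ^ j) = rad k t := by
  obtain ⟨d, rfl⟩ := Nat.exists_eq_add_of_lt h
  unfold rad
  rw [← Real.sin_add_nat_mul_two_pi (2 ^ (j + d + 1) * Real.pi * t) (2 ^ d)]
  congr 2
  push_cast
  rw [one_div, inv_pow]
  field_simp
  ring

theorem rad_flip (j : ℕ) (t : ℝ) : rad j (t + (1 / 2) ^ j) = -rad j t := by
  unfold rad
  rw [← Real.sign_neg, ← Real.sin_add_pi]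
  congr 2
  rw [one_div, inv_pow]
  field_simp

theorem rad_orth {j k : ℕ} (h0 : 0 < j) (h : j < k) :
    ∫ t in (0 : ℝ)..1, rad j t * rad k t = 0 := by
  have hper : Function.Periodic (fun t => rad j t * rad k t) 1 := fun t => by
    have h1 := rad_shift h0 t
    have h2 := rad_shift (h0.trans h) t
    rw [pow_zero] at h1 h2
    simp only [h1, h2]
  have h1 := hper.intervalIntegral_add_eq 0 (0 + (1 / 2) ^ j)
  rw [zero_add (1 : ℝ), show (0 : ℝ) + (1 / 2) ^ j + 1 = 1 + (1 / 2) ^ j by ring,
    ← intervalIntegral.integral_comp_add_right (fun t => rad j t * rad k t)] at h1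
  simp only [rad_flip, rad_shift h, neg_mul, intervalIntegral.integral_neg] at h1
  linarith

theorem rad_sq (k : ℕ) : ∫ t in (0 : ℝ)..1, rad k t * rad k t = 1 := by
  have h1 : ∀ᵐ t : ℝ, Real.sin (2 ^ k * Real.pi * t) ≠ 0 := by
    have : {t : ℝ | Real.sin (2 ^ k * Real.pi * t) = 0} ⊆
        range fun n : ℤ => (n : ℝ) / 2 ^ k := by
      intro t ht
      obtain ⟨n, hn⟩ := Real.sin_eq_zero_iff.1 ht
      refine ⟨n, ?_⟩
      have := Real.pi_pos
      dsimp only
      rw [div_eq_iff (by positivity)]
      refine mul_right_cancel₀ this.ne' ?_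
      rw [hn]
      ring
    exact measure_mono_null (fun t ht => by simpa using ht)
      (((countable_range _).mono this).measure_zero volume)
  rw [intervalIntegral.integral_congr_ae (g := fun _ => (1 : ℝ))]
  · simp
  · filter_upwards [h1] with t ht _
    rcases Real.sign_apply_eq_of_ne_zero _ ht with h | h <;> simp [rad, h]

theorem ii_rad_sq {n : ℕ} (b : Fin n → ℝ) :
    IntervalIntegrable (fun t => (∑ k : Fin n, rad (k + 1) t * b k) ^ 2) volume 0 1 := by
  refine ii_of_bound (K := (∑ k, |b k|) ^ 2) (Measurable.aestronglyMeasurable ?_) fun t => ?_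
  · exact (Finset.measurable_sum _ fun k _ => (measurable_rad _).mul_const _).pow_const 2
  · rw [abs_pow]
    refine pow_le_pow_left₀ (abs_nonneg _) ((Finset.abs_sum_le_sum_abs _ _).trans
      (Finset.sum_le_sum fun k _ => ?_)) 2
    rw [abs_mul]
    exact mul_le_of_le_one_left (abs_nonneg _) (abs_rad_le _ t)

theorem int_rad_sq {n : ℕ} (b : Fin n → ℝ) :
    ∫ t in (0 : ℝ)..1, (∑ k : Fin n, rad (k + 1) t * b k) ^ 2 = ∑ k, b k ^ 2 := by
  have e : ∀ t, (∑ k : Fin n, rad (k + 1) t * b k) ^ 2 =
      ∑ j : Fin n, ∑ k : Fin n, b j * b k * (rad (j + 1) t * rad (k + 1) t) := fun t => by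
    rw [sq, Finset.sum_mul_sum]
    exact Finset.sum_congr rfl fun j _ => Finset.sum_congr rfl fun k _ => by ring
  simp only [e]
  rw [intervalIntegral.integral_finsetSum fun j _ => by
    have := IntervalIntegrable.sum (μ := volume) (a := 0) (b := 1) Finset.univ
      (f := fun (k : Fin n) t => b j * b k * (rad (j + 1) t * rad (k + 1) t))
      fun k _ => (ii_rad _ _).const_mul _
    refine this.congr fun t _ => ?_
    simp]
  refine Finset.sum_congr rfl fun j _ => ?_
  rw [intervalIntegral.integral_finsetSum fun k _ => (ii_rad _ _).const_mul _,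
    Finset.sum_eq_single j]
  · rw [intervalIntegral.integral_const_mul, rad_sq, mul_one, sq]
  · intro k _ hk
    rw [intervalIntegral.integral_const_mul]
    rcases lt_or_gt_of_ne (Fin.val_ne_of_ne hk) with h | h
    · simp only [mul_comm (rad (j + 1) _)]
      rw [rad_orth (by omega) (by omega), mul_zero]
    · rw [rad_orth (by omega) (by omega), mul_zero]
  · simp

theorem ii_norm_sq {X : Type} [NormedAddCommGroup X] [NormedSpace ℂ X] {n : ℕ} (y : Fin n → X) :
    IntervalIntegrable (fun t => ‖∑ k : Fin n, (rad (k + 1) t : ℂ) • y k‖ ^ 2) volume 0 1 := by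
  refine ii_of_bound (K := (∑ k, ‖y k‖) ^ 2) ?_ fun t => ?_
  · refine (AEStronglyMeasurable.norm ?_).pow 2
    refine Finset.aestronglyMeasurable_fun_sum _ fun k _ => ?_
    exact (Complex.measurable_ofReal.comp (measurable_rad _)).aestronglyMeasurable.smul_const _
  · rw [abs_pow, abs_norm]
    refine pow_le_pow_left₀ (norm_nonneg _) ((norm_sum_le _ _).trans
      (Finset.sum_le_sum fun k _ => ?_)) 2
    rw [norm_smul, Complex.norm_real, Real.norm_eq_abs]
    exact mul_le_of_le_one_left (norm_nonneg _) (abs_rad_le _ t)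

end Pool.Agent.H97Z.Sec
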