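import Pool.Agent.H97Z.SecEx
import Pool.Agent.H97Z.SecRad

set_option autoImplicit false

open Complex Filter Topology MeasureTheory Set
open scoped ENNReal

noncomputable section

namespace Pool.Agent.H97Z.Sec

variable {p : ℝ≥0∞} [Fact (1 ≤ p)] {M : MS (El p) Idx}

theorem tau_gt {i r q : ℕ} (h : i / 2 ^ r = q) : i < (q + 1) * 2 ^ r := lt_of_div h

open scoped ComplexOrder in
theorem Good.pos (hM : Good M) (hp : p ≠ ∞) {B : El p →L[ℂ] El p} {g : ℕ → ℝ}
    (hB : M.IsMult B fun k => g k) (hg : Antitone g) (h0 : ∀ k, 0 ≤ g k) (x : El p)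
    (hx : ∀ i, 0 ≤ x i) (i : Idx) : 0 ≤ B x i := by
  have h0' : ∀ k, (0 : ℂ) ≤ g k := fun k => by exact_mod_cast h0 k
  rcases i with i | c
  swap
  · rw [hM.col B _ hB]
    exact mul_nonneg (h0' _) (hx _)
  have h1 := ((lp.evalCLM ℂ (fun _ : Idx => ℂ) p (Sum.inl i)).comp B).hasSum
    (lp.hasSum_single hp x)
  refine HasSum.nonneg (fun j => ?_) h1
  change 0 ≤ B (lp.single p j (x j)) (Sum.inl i)
  rcases j with j | ⟨r, q⟩
  · rw [hM.row1 B _ hB]
    refine mul_nonneg (h0' _) ?_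
    by_cases h : i = j
    · subst h
      rw [lp.single_apply_self]
      exact hx _
    · rw [lp.single_apply_ne p _ _ (by simpa using h)]
  · rw [hM.row2 B _ hB]
    split_ifs with h
    · refine mul_nonneg (mul_nonneg ?_ ?_) (hx _)
      · exact Complex.zero_le_real.2 (pow_pos aa_pos r).le
      · rw [← Complex.ofReal_sub]
        exact Complex.zero_le_real.2 (sub_nonneg.2 (hg (tau_gt h).le))
    · exact le_rfl

/-- the test columns -/
def cols (R : ℕ) : Finset (ℕ × ℕ) :=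
  (Finset.Icc 1 R ×ˢ Finset.range (2 ^ R)).filter fun c => c.2 < 2 ^ (R - c.1)

theorem mem_cols (R : ℕ) (c : ℕ × ℕ) :
    c ∈ cols R ↔ c.1 ∈ Finset.Icc 1 R ∧ c.2 ∈ Finset.range (2 ^ (R - c.1)) := by
  simp only [cols, Finset.mem_filter, Finset.mem_product, Finset.mem_range]
  refine ⟨fun h => ⟨h.1.1, h.2⟩, fun h => ⟨⟨h.1, h.2.trans_le ?_⟩, h.2⟩⟩
  exact Nat.pow_le_pow_right (by norm_num) (by omega)

theorem sum_cols (R : ℕ) : ∑ c ∈ cols R, (2 : ℝ) ^ c.1 = R * 2 ^ R := by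
  rw [Finset.sum_finset_product _ (Finset.Icc 1 R) (fun r => Finset.range (2 ^ (R - r)))
    (mem_cols R)]
  rw [Finset.sum_congr rfl (g := fun _ => (2 : ℝ) ^ R) fun r hr => by
    rw [Finset.mem_Icc] at hr
    simp only [Finset.sum_const, Finset.card_range, nsmul_eq_mul]
    push_cast
    rw [← pow_add, Nat.sub_add_cancel hr.2]]
  simp

theorem sum_cols_row {β : Type} [AddCommMonoid β] {R i : ℕ} (hi : i < 2 ^ R) (f : ℕ × ℕ → β) :
    ∑ c ∈ cols R, (if i / 2 ^ c.1 = c.2 then f c else 0) =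
      ∑ r ∈ Finset.Icc 1 R, f (r, i / 2 ^ r) := by
  rw [Finset.sum_finset_product _ (Finset.Icc 1 R) (fun r => Finset.range (2 ^ (R - r)))
    (mem_cols R)]
  refine Finset.sum_congr rfl fun r hr => ?_
  rw [Finset.mem_Icc] at hr
  simp only [Finset.sum_ite_eq, Finset.mem_range]
  rw [if_pos]
  rw [Nat.div_lt_iff_lt_mul (by positivity), ← pow_add, Nat.sub_add_cancel hr.2]
  exact hi

theorem tau_le {R r i : ℕ} (hr : r ≤ R) (hi : i < 2 ^ R) : (i / 2 ^ r + 1) * 2 ^ r ≤ 2 ^ R := by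
  have : i / 2 ^ r < 2 ^ (R - r) := by
    rw [Nat.div_lt_iff_lt_mul (by positivity), ← pow_add, Nat.sub_add_cancel hr]
    exact hi
  calc _ ≤ 2 ^ (R - r) * 2 ^ r := Nat.mul_le_mul_right _ this
    _ = _ := by rw [← pow_add, Nat.sub_add_cancel hr]

theorem norm_cols (hp : p ≠ ∞) (R : ℕ) (ε : ℕ × ℕ → ℂ) (hε : ∀ c, ‖ε c‖ ≤ 1) :
    ‖∑ c ∈ cols R, (lp.single p (Sum.inr c) (ε c * ((aa p ^ c.1 : ℝ) : ℂ)⁻¹) : El p)‖ ^ p.toReal ≤
      R * 2 ^ R := by
  have hP := toReal_pos' hp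
  have h1 := lp.norm_sum_single (E := fun _ : Idx => ℂ) hP
    (Sum.elim (fun _ => 0) fun c => ε c * ((aa p ^ c.1 : ℝ) : ℂ)⁻¹) ((cols R).image Sum.inr)
  rw [Finset.sum_image fun _ _ _ _ h => Sum.inr_injective h,
    Finset.sum_image fun _ _ _ _ h => Sum.inr_injective h] at h1
  simp only [Sum.elim_inr] at h1
  rw [h1, ← sum_cols]
  refine Finset.sum_le_sum fun c _ => ?_
  have h2 := pow_pos (aa_pos (p := p)) c.1
  rw [norm_mul, norm_inv, Complex.norm_real, Real.norm_of_nonneg h2.le]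
  refine (Real.rpow_le_rpow (by positivity) (mul_le_of_le_one_left (by positivity) (hε c))
    hP.le).trans (le_of_eq ?_)
  rw [Real.inv_rpow h2.le, aa_pow_rpow hp]
  simp

theorem exists_large {u : ℝ} (hu : 0 < u) (K : ℝ) : ∃ R : ℕ, 1 ≤ R ∧ K < (R : ℝ) ^ u := by
  have h := ((tendsto_rpow_atTop hu).comp tendsto_natCast_atTop_atTop).eventually
    (eventually_gt_atTop K)
  obtain ⟨R, h1, h2⟩ := (h.and (eventually_ge_atTop 1)).exists
  exact ⟨R, h2, h1⟩

theorem Good.na (hM : Good M) (hp : p ≠ ∞) (hp1 : 1 < p) : M.NA := by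
  have hP := toReal_pos' hp
  have hP1 : 1 < p.toReal := by
    have := (ENNReal.toReal_lt_toReal ENNReal.one_ne_top hp).2 hp1
    simpa using this
  intro C
  obtain ⟨R, hR1, hR⟩ := exists_large (sub_pos.2 hP1) (2 * |C| ^ p.toReal)
  refine ⟨2 ^ R, fun g B hB hg => ?_⟩
  by_contra hC
  have hC' : ‖B‖ ≤ |C| := (not_lt.1 hC).trans (le_abs_self C)
  set ξ : El p := ∑ c ∈ cols R, lp.single p (Sum.inr c) (1 * ((aa p ^ c.1 : ℝ) : ℂ)⁻¹) with hξ
  have h1 : ‖ξ‖ ^ p.toReal ≤ R * 2 ^ R := norm_cols hp R (fun _ => 1) fun _ => by simp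
  have h2 : ∀ j < 2 ^ (R - 1), (R : ℝ) ≤ ‖B ξ (Sum.inl (2 * j + 1))‖ := by
    intro j hj
    have hi : 2 * j + 1 < 2 ^ R := by
      obtain ⟨R', rfl⟩ := Nat.exists_eq_add_of_le' hR1
      rw [Nat.add_sub_cancel] at hj
      rw [pow_succ]
      omega
    have e : B ξ (Sum.inl (2 * j + 1)) = ∑ r ∈ Finset.Icc 1 R,
        (g (2 * j + 1) - g (((2 * j + 1) / 2 ^ r + 1) * 2 ^ r)) := by
      rw [hξ, map_sum, lp.coeFn_sum, Finset.sum_apply,
        ← sum_cols_row hi fun c => g (2 * j + 1) - g ((c.2 + 1) * 2 ^ c.1)]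
      refine Finset.sum_congr rfl fun c _ => ?_
      rw [hM.row2 B g hB]
      have : ((aa p ^ c.1 : ℝ) : ℂ) ≠ 0 := by exact_mod_cast (pow_pos aa_pos _).ne'
      split_ifs
      · field_simp
      · rfl
    rw [e, ← norm_neg]
    refine le_trans ?_ (Complex.re_le_norm _)
    rw [← Finset.sum_neg_distrib, Complex.re_sum]
    refine le_trans (by simp) (Finset.card_nsmul_le_sum (Finset.Icc 1 R) _ 1 fun r hr => ?_)
    rw [Finset.mem_Icc] at hr
    have a1 := (Complex.re_le_norm _).trans (hg _ hi.le)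
    have a2 := (Complex.abs_re_le_norm _).trans (hg _ (tau_le hr.2 hi))
    have b1 : (-1 : ℂ) ^ (2 * j + 1) = -1 := Odd.neg_one_pow ⟨j, rfl⟩
    have b2 : (-1 : ℂ) ^ (((2 * j + 1) / 2 ^ r + 1) * 2 ^ r) = 1 :=
      Even.neg_one_pow (Even.mul_left ((Nat.even_pow' (by omega)).2 even_two) _)
    rw [b1] at a1
    rw [b2, abs_le] at a2
    simp only [sub_re, neg_re, one_re] at a1 a2 ⊢
    linarith [a2.1]
  have h3 := lp.sum_rpow_le_norm_rpow hP (B ξ)
    ((Finset.range (2 ^ (R - 1))).image fun j => Sum.inl (2 * j + 1))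
  rw [Finset.sum_image fun _ _ _ _ h => by simpa using h] at h3
  have h4 := (Finset.card_nsmul_le_sum (Finset.range (2 ^ (R - 1))) _ ((R : ℝ) ^ p.toReal)
    fun j hj => Real.rpow_le_rpow (by positivity) (h2 j (Finset.mem_range.1 hj)) hP.le).trans h3
  have h5 : ‖B ξ‖ ^ p.toReal ≤ |C| ^ p.toReal * (R * 2 ^ R) := by
    refine (Real.rpow_le_rpow (norm_nonneg _) ((B.le_opNorm ξ).trans
      (mul_le_mul_of_nonneg_right hC' (norm_nonneg _))) hP.le).trans ?_
    rw [Real.mul_rpow (abs_nonneg _) (norm_nonneg _)]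
    exact mul_le_mul_of_nonneg_left h1 (by positivity)
  have hR0 : (0 : ℝ) < R := by exact_mod_cast hR1
  have h6 : (R : ℝ) ^ p.toReal = R ^ (p.toReal - 1) * R := by
    rw [Real.rpow_sub_one hR0.ne']
    field_simp
  have h7 : (2 : ℝ) ^ R = 2 * 2 ^ (R - 1) := by
    obtain ⟨R', rfl⟩ := Nat.exists_eq_add_of_le' hR1
    rw [Nat.add_sub_cancel, pow_succ]
    ring
  rw [Finset.card_range, nsmul_eq_mul, h6] at h4
  push_cast at h4
  rw [h7] at h5
  have h8 : (0 : ℝ) < R * 2 ^ (R - 1) := by positivity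
  nlinarith [mul_lt_mul_of_pos_right hR h8]

theorem neg_not_mem {ω : ℝ} (h0 : 0 < ω) (h1 : ω < Real.pi) {m : ℝ} (hm : 0 < m) :
    -(m : ℂ) ∉ closure (Sector ω) := by
  intro h
  have h2 : closure (Sector ω) ⊆ {l : ℂ | cst (Real.pi - ω) * (‖l‖ + m) ≤ ‖l + m‖} :=
    closure_minimal (fun l hl => add_ge h1 hl hm.le) (isClosed_le (by fun_prop) (by fun_prop))
  have h3 := h2 h
  have h4 := cst_pos (ω := Real.pi - ω) (by linarith) (by linarith)
  simp only [mem_ofPred_eq, neg_add_cancel, norm_zero] at h3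
  have : 0 < cst (Real.pi - ω) * (‖-(m : ℂ)‖ + m) := by positivity
  linarith

theorem sq_le_norm (hp : p ≠ ∞) (hp2 : 2 ≤ p.toReal) (y : El p) (s : Finset Idx) :
    ∑ i ∈ s, ‖y i‖ ^ 2 ≤ (s.card : ℝ) ^ (1 - 2 / p.toReal) * ‖y‖ ^ 2 := by
  have hP := toReal_pos' hp
  have h1 := Real.rpow_sum_le_const_mul_sum_rpow_of_nonneg s (f := fun i => ‖y i‖ ^ 2)
    (p := p.toReal / 2) (by linarith) fun _ _ => by positivity
  have e : ∀ a : ℝ, 0 ≤ a → (a ^ 2) ^ (p.toReal / 2) = a ^ p.toReal := fun a ha => by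
    rw [← Real.rpow_natCast, ← Real.rpow_mul ha]
    congr 1
    push_cast
    ring
  simp only [e _ (norm_nonneg _)] at h1
  have h2 := h1.trans (mul_le_mul_of_nonneg_left (lp.sum_rpow_le_norm_rpow hP y s)
    (by positivity))
  rw [← Real.rpow_le_rpow_iff (z := p.toReal / 2) (by positivity) (by positivity) (by positivity),
    Real.mul_rpow (by positivity) (by positivity), e _ (norm_nonneg _),
    ← Real.rpow_mul (by positivity)]
  rw [show (1 - 2 / p.toReal) * (p.toReal / 2) = p.toReal / 2 - 1 by field_simp]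
  exact h2

theorem Good.not_rsect (hM : Good M) (hp : p ≠ ∞) (hp2 : 2 < p) : ¬ IsRSectorial M.A := by
  have hP := toReal_pos' hp
  have hP2 : 2 < p.toReal := by
    have := (ENNReal.toReal_lt_toReal ENNReal.ofNat_ne_top hp).2 hp2
    simpa using this
  rintro ⟨ω, h0, h1, C, hC⟩
  rw [M.sectAngle_eq] at h0
  set u := 2 / p.toReal with hu
  have hu1 : u < 1 := (div_lt_one hP).2 hP2
  obtain ⟨R, hR1, hR⟩ := exists_large (sub_pos.2 hu1) (36 * C ^ 2)
  have hR0 : (0 : ℝ) < R := by exact_mod_cast hR1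
  let c : Fin (cols R).card → ℕ × ℕ := fun k => (cols R).equivFin.symm k
  have hc : ∀ {β : Type} [AddCommMonoid β] (f : ℕ × ℕ → β), ∑ k, f (c k) = ∑ c ∈ cols R, f c :=
    fun f => by
      rw [← Finset.sum_coe_sort (cols R) f]
      exact Equiv.sum_comp (cols R).equivFin.symm fun x => f x
  let t : ℕ × ℕ → ℝ := fun c => mu ((c.2 + 1) * 2 ^ c.1)
  let T : ℕ × ℕ → El p →L[ℂ] El p := fun c => (-(t c : ℂ)) • resolvent M.A (-(t c : ℂ))
  let x : ℕ × ℕ → El p := fun c => lp.single p (Sum.inr c) ((aa p ^ c.1 : ℝ) : ℂ)⁻¹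
  have h2 := hC _ (fun k => T (c k)) (fun k => x (c k)) fun k =>
    ⟨_, neg_not_mem h0 h1 (mu_pos _), rfl⟩
  have hT : ∀ c, M.IsMult (T c) fun k => ((t c / (t c + mu k) : ℝ) : ℂ) := by
    intro c n y
    have := (M.resolvent_spec h0 h1 (l := -(t c : ℂ))
      fun h => neg_not_mem h0 h1 (mu_pos _) (subset_closure h)).2.1 n y
    change M.φ n ((-(t c : ℂ)) • resolvent M.A (-(t c : ℂ)) y) = _
    rw [map_smul, this, smul_eq_mul, ← mul_assoc]
    congr 1
    push_cast
    rw [show -(t c : ℂ) - mu (M.τ n) = -(t c + mu (M.τ n)) by ring, inv_neg, neg_mul_neg,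
      div_eq_mul_inv]
  let b : ℕ → ℕ × ℕ → ℝ := fun i c =>
    if i / 2 ^ c.1 = c.2 then t c / (t c + mu i) - t c / (t c + t c) else 0
  have hb : ∀ i c, T c (x c) (Sum.inl i) = b i c := by
    intro i c
    rw [hM.row2 _ _ (hT c)]
    have : ((aa p ^ c.1 : ℝ) : ℂ) ≠ 0 := by exact_mod_cast (pow_pos aa_pos _).ne'
    simp only [b]
    split_ifs
    · rw [mul_comm, ← mul_assoc, inv_mul_cancel₀ this, one_mul, Complex.ofReal_sub]
    · rfl
  have hb2 : ∀ i < 2 ^ R, (R : ℝ) / 36 ≤ ∑ k, b i (c k) ^ 2 := by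
    intro i hi
    rw [hc fun c => b i c ^ 2]
    simp only [b, ite_pow, zero_pow two_ne_zero]
    rw [sum_cols_row hi fun c => (t c / (t c + mu i) - t c / (t c + t c)) ^ 2]
    refine le_trans (by simp [div_eq_mul_inv])
      (Finset.card_nsmul_le_sum (Finset.Icc 1 R) _ (1 / 36) fun r _ => ?_)
    set s := t (r, i / 2 ^ r) with hs
    have a1 : 2 * mu i ≤ s := by
      have := mu_mono (Nat.succ_le_of_lt (tau_gt (i := i) (r := r) rfl))
      rw [mu, pow_succ] at this
      rw [mul_comm]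
      exact this
    have a2 := mu_pos i
    have a3 : 2 / 3 ≤ s / (s + mu i) := by
      rw [div_le_div_iff₀ (by norm_num) (by linarith)]
      linarith
    have a4 : s / (s + s) = 1 / 2 := by
      rw [div_eq_div_iff (by linarith) (by norm_num)]
      ring
    rw [a4]
    nlinarith
  have h3 : ∫ s in (0 : ℝ)..1, ‖∑ k : Fin (cols R).card, (rad (k + 1) s : ℂ) • x (c k)‖ ^ 2 ≤ (R * 2 ^ R) ^ u := by
    have := intervalIntegral.norm_integral_le_of_norm_le_const (a := 0) (b := 1)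
      (f := fun s => ‖∑ k : Fin (cols R).card, (rad (k + 1) s : ℂ) • x (c k)‖ ^ 2) (C := (R * 2 ^ R) ^ u)
      fun s _ => by
        let ε : ℕ × ℕ → ℂ := fun d =>
          if h : d ∈ cols R then rad ((cols R).equivFin ⟨d, h⟩ + 1) s else 0
        have a1 := norm_cols hp R ε fun d => by
          simp only [ε]
          split_ifs
          · rw [Complex.norm_real, Real.norm_eq_abs]
            exact abs_rad_le _ _
          · simp
        rw [← hc] at a1
        have a2 : ∀ k, (lp.single p (Sum.inr (c k)) (ε (c k) * ((aa p ^ (c k).1 : ℝ) : ℂ)⁻¹) :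
            El p) = (rad (k + 1) s : ℂ) • x (c k) := by
          intro k
          rw [← smul_eq_mul, lp.single_smul]
          congr 1
          simp only [ε, c]
          rw [dif_pos (Finset.coe_mem _)]
          simp
        simp only [a2] at a1
        rw [Real.norm_of_nonneg (by positivity)]
        refine le_trans (le_of_eq ?_) (Real.rpow_le_rpow (by positivity) a1
          (show 0 ≤ u by positivity))
        rw [← Real.rpow_mul (norm_nonneg _), hu, mul_div_cancel₀ _ hP.ne', Real.rpow_two]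
    rw [sub_zero, abs_one, mul_one] at this
    exact (le_abs_self _).trans this
  have h4 : (2 : ℝ) ^ R * (R / 36) ≤ (2 ^ R) ^ (1 - u) *
      ∫ s in (0 : ℝ)..1, ‖∑ k : Fin (cols R).card, (rad (k + 1) s : ℂ) • T (c k) (x (c k))‖ ^ 2 := by
    rw [← intervalIntegral.integral_const_mul]
    have a1 := Finset.card_nsmul_le_sum (Finset.range (2 ^ R)) _ ((R : ℝ) / 36)
      fun i hi => hb2 i (Finset.mem_range.1 hi)
    rw [Finset.card_range, nsmul_eq_mul] at a1
    push_cast at a1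
    refine a1.trans ?_
    simp only [← int_rad_sq]
    rw [← intervalIntegral.integral_finsetSum fun i _ => ii_rad_sq _]
    refine intervalIntegral.integral_mono_on zero_le_one ?_ ((ii_norm_sq _).const_mul _)
      fun s _ => ?_
    · refine (IntervalIntegrable.sum (μ := volume) (a := 0) (b := 1) (Finset.range (2 ^ R))
        (f := fun i s => (∑ k : Fin (cols R).card, rad (k + 1) s * b i (c k)) ^ 2)
        fun i _ => ii_rad_sq _).congr fun t _ => ?_
      simp
    · have a2 := sq_le_norm hp hP2.le (∑ k : Fin (cols R).card, (rad (k + 1) s : ℂ) • T (c k) (x (c k)))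
        ((Finset.range (2 ^ R)).image Sum.inl)
      rw [Finset.sum_image fun _ _ _ _ h => Sum.inl_injective h,
        Finset.card_image_of_injective _ Sum.inl_injective, Finset.card_range, Nat.cast_pow,
        Nat.cast_ofNat] at a2
      refine le_trans (le_of_eq (Finset.sum_congr rfl fun i _ => ?_)) a2
      rw [lp.coeFn_sum, Finset.sum_apply]
      simp only [lp.coeFn_smul, Pi.smul_apply, hb, smul_eq_mul, ← Complex.ofReal_mul,
        ← Complex.ofReal_sum, Complex.norm_real, Real.norm_eq_abs, sq_abs]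
  unfold radNorm at h2
  have h5 := Real.sq_sqrt (intervalIntegral.integral_nonneg (μ := volume) zero_le_one
    (f := fun s => ‖∑ k : Fin (cols R).card, (rad (k + 1) s : ℂ) • x (c k)‖ ^ 2) fun _ _ => by positivity)
  have h6 := Real.sq_sqrt (intervalIntegral.integral_nonneg (μ := volume) zero_le_one
    (f := fun s => ‖∑ k : Fin (cols R).card, (rad (k + 1) s : ℂ) • T (c k) (x (c k))‖ ^ 2) fun _ _ => by positivity)
  have h7 := pow_le_pow_left₀ (Real.sqrt_nonneg _) h2 2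
  rw [mul_pow, h5, h6] at h7
  have h8 := h4.trans (mul_le_mul_of_nonneg_left (h7.trans
    (mul_le_mul_of_nonneg_left h3 (sq_nonneg C))) (by positivity))
  have hQ : (0 : ℝ) < 2 ^ R := by positivity
  rw [Real.mul_rpow hR0.le hQ.le, Real.rpow_sub hQ, Real.rpow_one] at h8
  have h9 : (0 : ℝ) < (2 ^ R) ^ u := Real.rpow_pos_of_pos hQ u
  have h10 : (0 : ℝ) < R ^ u := Real.rpow_pos_of_pos hR0 u
  rw [Real.rpow_sub hR0, Real.rpow_one, lt_div_iff₀ h10] at hR
  have h11 : (2 : ℝ) ^ R / (2 ^ R) ^ u * (C ^ 2 * (R ^ u * (2 ^ R) ^ u)) =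
      2 ^ R * (C ^ 2 * R ^ u) := by
    field_simp
  rw [h11] at h8
  have := le_of_mul_le_mul_left h8 hQ
  linarith

end Pool.Agent.H97Z.Sec
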