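import Pool.Agent.H97Z.SecMain

set_option autoImplicit false

open Complex Filter Topology MeasureTheory Set
open scoped ENNReal

noncomputable section

namespace Pool.Agent.H97Z.Sec

namespace MS

variable {X Y : Type} [NormedAddCommGroup X] [NormedSpace ℂ X] [NormedAddCommGroup Y]
  [NormedSpace ℂ Y] {ι : Type} (M : MS X ι) (e : X ≃L[ℂ] Y)

/-- transport along an isomorphism -/
def map : MS Y ι where
  φ n := (M.φ n).comp (e.symm : Y →L[ℂ] X)
  τ := M.τ
  C := ‖(e : X →L[ℂ] Y)‖ * M.C * ‖(e.symm : Y →L[ℂ] X)‖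
  C0 := by have := M.C0; positivity
  sep x hx := by
    have := M.sep (e.symm x) hx
    simpa using this
  mult g S V hS hV := by
    obtain ⟨T, h1, h2⟩ := M.mult g S V hS hV
    refine ⟨(e : X →L[ℂ] Y).comp (T.comp (e.symm : Y →L[ℂ] X)), ?_, fun n x => ?_⟩
    · refine (ContinuousLinearMap.opNorm_comp_le _ _).trans ?_
      refine (mul_le_mul_of_nonneg_left ((ContinuousLinearMap.opNorm_comp_le _ _).trans
        (mul_le_mul_of_nonneg_right h1 (norm_nonneg _))) (norm_nonneg _)).trans (le_of_eq ?_)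
      ring
    · simpa using h2 n (e.symm x)
  dense := by
    refine (e.surjective.denseRange.dense_image e.continuous M.dense).mono ?_
    rintro _ ⟨x, ⟨N, hN⟩, rfl⟩
    exact ⟨N, fun n hn => by simpa using hN n hn⟩

theorem map_isMult {B : X →L[ℂ] X} {g : ℕ → ℂ} (h : M.IsMult B g) :
    (M.map e).IsMult ((e : X →L[ℂ] Y).comp (B.comp (e.symm : Y →L[ℂ] X))) g := fun n x => by
  simpa [map] using h n (e.symm x)

theorem isMult_of_map {B : Y →L[ℂ] Y} {g : ℕ → ℂ} (h : (M.map e).IsMult B g) :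
    M.IsMult ((e.symm : Y →L[ℂ] X).comp (B.comp (e : X →L[ℂ] Y))) g := fun n x => by
  simpa [map] using h n (e x)

theorem map_T (t : ℝ) (y : Y) : (M.map e).T t y = e (M.T t (e.symm y)) := by
  rw [((M.map e).T_mult t).unique (M.map_isMult e (M.T_mult t))]
  rfl

theorem map_na (h : M.NA) : (M.map e).NA := by
  intro C
  obtain ⟨N, hN⟩ := h (‖(e.symm : Y →L[ℂ] X)‖ * (C * ‖(e : X →L[ℂ] Y)‖))
  refine ⟨N, fun g B hB hg => ?_⟩
  have h1 := hN g _ (M.isMult_of_map e hB) hg
  by_contra hC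
  refine absurd h1 (not_lt.2 ((ContinuousLinearMap.opNorm_comp_le _ _).trans ?_))
  exact mul_le_mul_of_nonneg_left ((ContinuousLinearMap.opNorm_comp_le _ _).trans
    (mul_le_mul_of_nonneg_right (not_lt.1 hC) (norm_nonneg _))) (norm_nonneg _)

theorem map_rsect (he : ∀ x, ‖e x‖ = ‖x‖) (h : IsRSectorial (M.map e).A) : IsRSectorial M.A := by
  have hr : ∀ {n : ℕ} (y : Fin n → X), radNorm (fun k => e (y k)) = radNorm y := by
    intro n y
    unfold radNorm
    simp only [← map_smul, ← map_sum, he]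
  obtain ⟨ω, h0, h1, C, hC⟩ := h
  rw [sectAngle_eq] at h0
  refine ⟨ω, by rwa [sectAngle_eq], h1, C, fun n T x hT => ?_⟩
  choose l hl hT using hT
  have h2 := hC n (fun k => l k • resolvent (M.map e).A (l k)) (fun k => e (x k))
    fun k => ⟨l k, hl k, rfl⟩
  rw [hr] at h2
  rw [← hr]
  convert h2 using 3 with k
  have h3 : l k ∉ Sector ω := fun h => hl k (subset_closure h)
  rw [hT, ((M.map e).resolvent_spec h0 h1 h3).2.1.unique
    (M.map_isMult e (M.resolvent_spec h0 h1 h3).2.1)]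
  simp

end MS

/-- the measure space -/
def Om : Type := Idx

instance : MeasurableSpace Om := ⊤
instance : Countable Om := inferInstanceAs (Countable Idx)
instance : DiscreteMeasurableSpace Om := ⟨fun _ => trivial⟩

variable {p : ℝ≥0∞} [Fact (1 ≤ p)]

theorem eLp_count (hp : p ≠ ∞) (f : Om → ℂ) : eLpNorm f p Measure.count =
    (∑' i, ENNReal.ofReal (‖f i‖ ^ p.toReal)) ^ (1 / p.toReal) := by
  rw [eLpNorm_eq_lintegral_rpow_enorm_toReal (zero_lt_one.trans_le (Fact.out : 1 ≤ p)).ne' hp,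
    lintegral_count]
  congr 2
  ext i
  rw [← ofReal_norm_eq_enorm, ENNReal.ofReal_rpow_of_nonneg (norm_nonneg _) (toReal_pos' hp).le]

theorem eLp_el (hp : p ≠ ∞) (x : El p) :
    eLpNorm (fun i : Om => x i) p Measure.count = ENNReal.ofReal ‖x‖ := by
  have hP := toReal_pos' hp
  rw [eLp_count hp, lp.norm_eq_tsum_rpow hP,
    ← ENNReal.ofReal_rpow_of_nonneg (tsum_nonneg fun _ => by positivity) (by positivity),
    ENNReal.ofReal_tsum_of_nonneg (fun _ => by positivity) ((lp.memℓp x).summable hP)]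
  rfl

theorem memLp_el (hp : p ≠ ∞) (x : El p) : MemLp (fun i : Om => x i) p Measure.count :=
  ⟨(measurable_of_countable _).aestronglyMeasurable, by rw [eLp_el hp]; exact ENNReal.ofReal_lt_top⟩

theorem exists_equiv (hp : p ≠ ∞) : ∃ e : El p ≃L[ℂ] Lp ℂ p (Measure.count : Measure Om),
    (∀ x, ‖e x‖ = ‖x‖) ∧ ∀ x (i : Om), e x i = x i := by
  have hP := toReal_pos' hp
  have h1 : ∀ (x : El p) (i : Om), (memLp_el hp x).toLp _ i = x i := fun x =>
    Measure.ae_count_iff.1 (memLp_el hp x).coeFn_toLp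
  let L : El p →ₗᵢ[ℂ] Lp ℂ p (Measure.count : Measure Om) :=
    { toFun := fun x => (memLp_el hp x).toLp _
      map_add' := fun x y => by
        rw [← MemLp.toLp_add]
        rfl
      map_smul' := fun c x => by
        rw [RingHom.id_apply, ← MemLp.toLp_const_smul]
        rfl
      norm_map' := fun x => by
        change ‖(memLp_el hp x).toLp _‖ = _
        rw [Lp.norm_toLp, eLp_el hp, ENNReal.toReal_ofReal (norm_nonneg _)] }
  have hs : Function.Surjective L := by
    intro f
    have h2 := (Lp.memLp f).2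
    rw [eLp_count hp] at h2
    have h3 := ENNReal.summable_toReal ((ENNReal.rpow_lt_top_iff_of_pos (by positivity)).1 h2).ne
    have h4 : Memℓp (E := fun _ : Idx => ℂ) (fun i => f i) p := by
      refine memℓp_gen (h3.congr fun i => ?_)
      exact ENNReal.toReal_ofReal (by positivity)
    exact ⟨⟨_, h4⟩, Lp.ext (Eventually.of_forall (h1 ⟨_, h4⟩))⟩
  exact ⟨(LinearIsometryEquiv.ofSurjective L hs).toContinuousLinearEquiv, L.norm_map, h1⟩

end Pool.Agent.H97Z.Sec
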