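import Pool.Agent.H97Z.SecAbs

set_option autoImplicit false

open Complex Filter Topology MeasureTheory Set

noncomputable section

namespace Pool.Agent.H97Z.Sec

variable {X : Type} [NormedAddCommGroup X] [NormedSpace ℂ X] {ι : Type} (M : MS X ι)

/-- the exponent -/
def s0 : ℝ := Real.pi / Real.log 2

theorem mu_cpow (k : ℕ) : (mu k : ℂ) ^ (I * s0) = (-1) ^ k := by
  have h2 : Real.log 2 ≠ 0 := (Real.log_pos (by norm_num)).ne'
  rw [Complex.cpow_def_of_ne_zero (by exact_mod_cast (mu_pos k).ne'),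
    ← Complex.ofReal_log (mu_pos k).le, mu, Real.log_pow, ← Complex.exp_pi_mul_I,
    ← Complex.exp_nat_mul]
  congr 1
  have h3 : (Real.log 2 : ℂ) ≠ 0 := by exact_mod_cast h2
  rw [s0, Complex.ofReal_mul, Complex.ofReal_div, Complex.ofReal_natCast]
  field_simp

theorem cpow_bound (s : ℝ) {z : ℂ} (hz : z ≠ 0) : ‖z ^ (I * s)‖ ≤ Real.exp (Real.pi * |s|) := by
  rw [Complex.norm_cpow_of_ne_zero hz]
  simp only [mul_re, I_re, ofReal_re, zero_mul, I_im, ofReal_im, mul_zero, sub_zero, mul_im,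
    one_mul, zero_add, Real.rpow_zero]
  rw [one_div, ← Real.exp_neg]
  refine Real.exp_le_exp.2 ((neg_le_abs _).trans ?_)
  rw [abs_mul]
  exact mul_le_mul_of_nonneg_right (Complex.abs_arg_le_pi z) (abs_nonneg _)

theorem cpow_diff (s : ℝ) {σ : ℝ} (h : σ < Real.pi) :
    DifferentiableOn ℂ (fun z : ℂ => z ^ (I * s)) (Sector σ) := fun z hz =>
  (differentiableAt_id.cpow_const (sector_slit h hz)).differentiableWithinAt

theorem add_ne {σ : ℝ} (h0 : 0 < σ) (h1 : σ < Real.pi) {z : ℂ} (hz : z ∈ Sector σ) {m : ℝ}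
    (hm : 0 < m) : z + m ≠ 0 := fun h => by
  have h2 := add_ge h1 hz hm.le
  rw [h, norm_zero] at h2
  have h3 := cst_pos (ω := Real.pi - σ) (by linarith) (by linarith)
  have : 0 < cst (Real.pi - σ) * (‖z‖ + m) := by positivity
  linarith

theorem rho_diff {σ : ℝ} (h0 : 0 < σ) (h1 : σ < Real.pi) : DifferentiableOn ℂ rho (Sector σ) := by
  refine DifferentiableOn.div (by fun_prop) (by fun_prop) fun z hz => pow_ne_zero 2 ?_
  have := add_ne h0 h1 hz one_pos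
  rwa [Complex.ofReal_one, add_comm] at this

theorem rho_bound {σ : ℝ} (h0 : 0 < σ) (h1 : σ < Real.pi) {z : ℂ} (hz : z ∈ Sector σ) :
    ‖rho z‖ ≤ (cst (Real.pi - σ))⁻¹ ^ 2 / (1 + ‖z‖) := by
  have h3 := cst_pos (ω := Real.pi - σ) (by linarith) (by linarith)
  have h2 := add_ge h1 hz zero_le_one
  rw [Complex.ofReal_one, add_comm z] at h2
  set c := cst (Real.pi - σ)
  have h4 : 0 < c * (‖z‖ + 1) := by positivity
  rw [rho, norm_div, norm_pow]
  calc ‖z‖ / ‖1 + z‖ ^ 2 ≤ (‖z‖ + 1) / (c * (‖z‖ + 1)) ^ 2 := by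
        gcongr
        linarith
    _ = c⁻¹ ^ 2 / (1 + ‖z‖) := by
        field_simp
        ring

theorem rho_mu_ne (k : ℕ) : rho (mu k) ≠ 0 := by
  have h := mu_pos k
  refine div_ne_zero (by exact_mod_cast h.ne') (pow_ne_zero 2 ?_)
  have : (1 + mu k : ℝ) ≠ 0 := by linarith
  exact_mod_cast this

/-- the test functions -/
def fn (n : ℝ) (z : ℂ) : ℂ := z ^ (I * s0) * (z / (z + (n⁻¹ : ℝ))) * (n / (z + n))

theorem fn_diff {σ : ℝ} (h0 : 0 < σ) (h1 : σ < Real.pi) {n : ℝ} (hn : 1 ≤ n) :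
    DifferentiableOn ℂ (fn n) (Sector σ) := by
  refine ((cpow_diff s0 h1).mul (DifferentiableOn.div (by fun_prop) (by fun_prop)
    fun z hz => add_ne h0 h1 hz (by positivity))).mul
    (DifferentiableOn.div (by fun_prop) (by fun_prop) fun z hz => add_ne h0 h1 hz (by positivity))

theorem fn_bound {σ : ℝ} (h0 : 0 < σ) (h1 : σ < Real.pi) {n : ℝ} (hn : 1 ≤ n) {z : ℂ}
    (hz : z ∈ Sector σ) : ‖fn n z‖ ≤ Real.exp (Real.pi * |s0|) * (cst (Real.pi - σ))⁻¹ ^ 2 *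
      (‖z‖ / (‖z‖ + n⁻¹) * (n / (‖z‖ + n))) := by
  have h3 := cst_pos (ω := Real.pi - σ) (by linarith) (by linarith)
  have hn0 : 0 < n := by linarith
  have h2 := add_ge h1 hz (inv_pos.2 hn0).le
  have h4 := add_ge h1 hz hn0.le
  have h5 := cpow_bound s0 hz.1
  set c := cst (Real.pi - σ)
  rw [fn, norm_mul, norm_mul, norm_div, norm_div, Complex.norm_real, Real.norm_of_nonneg hn0.le]
  calc _ ≤ Real.exp (Real.pi * |s0|) * (‖z‖ / (c * (‖z‖ + n⁻¹))) * (n / (c * (‖z‖ + n))) := by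
        gcongr
    _ = _ := by
        field_simp

theorem fn_bound1 {σ : ℝ} (h0 : 0 < σ) (h1 : σ < Real.pi) {n : ℝ} (hn : 1 ≤ n) {z : ℂ}
    (hz : z ∈ Sector σ) : ‖fn n z‖ ≤ Real.exp (Real.pi * |s0|) * (cst (Real.pi - σ))⁻¹ ^ 2 := by
  refine (fn_bound h0 h1 hn hz).trans (mul_le_of_le_one_right (by positivity) ?_)
  have hn0 : 0 < n := by linarith
  have := inv_pos.2 hn0
  refine mul_le_one₀ ?_ (by positivity) ?_
  · rw [div_le_one (by positivity)]; linarith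
  · rw [div_le_one (by positivity)]; linarith [norm_nonneg z]

theorem fn_bound2 {σ : ℝ} (h0 : 0 < σ) (h1 : σ < Real.pi) {n : ℝ} (hn : 1 ≤ n) {z : ℂ}
    (hz : z ∈ Sector σ) : ‖fn n z‖ ≤ Real.exp (Real.pi * |s0|) * (cst (Real.pi - σ))⁻¹ ^ 2 *
      n ^ 2 * (‖z‖ / (1 + ‖z‖) ^ 2) := by
  refine (fn_bound h0 h1 hn hz).trans ?_
  rw [mul_assoc _ (n ^ 2)]
  refine mul_le_mul_of_nonneg_left ?_ (by positivity)
  have hn0 : 0 < n := by linarith
  have h2 : (1 + ‖z‖) / n ≤ ‖z‖ + n⁻¹ := by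
    rw [div_le_iff₀ hn0, add_mul, inv_mul_cancel₀ hn0.ne']
    nlinarith [norm_nonneg z]
  have h3 : 1 + ‖z‖ ≤ ‖z‖ + n := by linarith
  calc _ ≤ ‖z‖ / ((1 + ‖z‖) / n) * (n / (1 + ‖z‖)) :=
        mul_le_mul (div_le_div_of_nonneg_left (norm_nonneg _) (by positivity) h2)
          (div_le_div_of_nonneg_left hn0.le (by positivity) h3) (by positivity) (by positivity)
    _ = _ := by
        field_simp

theorem fn_isH0 {σ : ℝ} (h0 : 0 < σ) (h1 : σ < Real.pi) {n : ℝ} (hn : 1 ≤ n) :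
    IsH0 σ (fn n) := by
  have h3 := cst_pos (ω := Real.pi - σ) (by linarith) (by linarith)
  refine ⟨fn_diff h0 h1 hn, Real.exp (Real.pi * |s0|) * (cst (Real.pi - σ))⁻¹ ^ 2 * n ^ 2, 1,
    by positivity, one_pos, fun z hz => (fn_bound2 h0 h1 hn hz).trans (le_of_eq ?_)⟩
  rw [Real.rpow_one, mul_one, Real.rpow_neg (by positivity), Real.rpow_two, div_eq_mul_inv]
  ring

theorem fn_bound3 {σ : ℝ} (h0 : 0 < σ) (h1 : σ < Real.pi) {n : ℝ} (hn : 1 ≤ n) {z : ℂ}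
    (hz : z ∈ Sector σ) : ‖fn n z‖ ≤ Real.exp (Real.pi * |s0|) * (cst (Real.pi - σ))⁻¹ ^ 2 *
      n ^ 2 / (1 + ‖z‖) := by
  refine (fn_bound2 h0 h1 hn hz).trans ?_
  rw [mul_div_assoc', div_le_div_iff₀ (by positivity) (by positivity)]
  have : 0 ≤ Real.exp (Real.pi * |s0|) * (cst (Real.pi - σ))⁻¹ ^ 2 * n ^ 2 * (1 + ‖z‖) := by
    positivity
  nlinarith

theorem fn_mu {N k : ℕ} (hk : k ≤ N) : ‖fn (2 * (1 + mu N)) (mu k) - (-1) ^ k‖ ≤ 1 / 2 := by
  set n := 2 * (1 + mu N) with hn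
  have h1 := one_le_mu k
  have h2 := mu_mono hk
  have hn0 : 0 < n := by linarith
  have e : fn n (mu k) - (-1) ^ k =
      (-1) ^ k * ((mu k / (mu k + n⁻¹) * (n / (mu k + n)) - 1 : ℝ) : ℂ) := by
    rw [fn, mu_cpow]
    push_cast
    ring
  rw [e, norm_mul, norm_pow, norm_neg, norm_one, one_pow, one_mul, Complex.norm_real,
    Real.norm_eq_abs, abs_le]
  have h3 := inv_pos.2 hn0
  have a1 : mu k / (mu k + n⁻¹) ≤ 1 := by rw [div_le_one (by positivity)]; linarith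
  have a2 : n / (mu k + n) ≤ 1 := by rw [div_le_one (by positivity)]; linarith
  have a3 : 1 - n⁻¹ ≤ mu k / (mu k + n⁻¹) := by
    rw [le_div_iff₀ (by positivity)]; nlinarith
  have a4 : 1 - mu k * n⁻¹ ≤ n / (mu k + n) := by
    rw [le_div_iff₀ (by positivity)]
    have : n⁻¹ * n = 1 := inv_mul_cancel₀ hn0.ne'
    have : 0 ≤ mu k * n⁻¹ * mu k := by positivity
    nlinarith
  have a5 : (1 + mu k) * n⁻¹ ≤ 1 / 2 := by
    rw [← div_eq_mul_inv, div_le_iff₀ hn0]; linarith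
  have a6 : 0 ≤ mu k / (mu k + n⁻¹) := by positivity
  have a7 : 0 ≤ n / (mu k + n) := by positivity
  constructor
  · nlinarith [mul_nonneg (sub_nonneg.2 a1) (sub_nonneg.2 a2)]
  · nlinarith [mul_le_one₀ a1 a7 a2]

namespace MS

/-- multipliers close to alternating signs have large norm -/
def NA : Prop := ∀ C : ℝ, ∃ N : ℕ, ∀ (g : ℕ → ℂ) (B : X →L[ℂ] X), M.IsMult B g →
  (∀ k ≤ N, ‖g k - (-1) ^ k‖ ≤ 1 / 2) → C < ‖B‖

theorem not_hinf [CompleteSpace X] (h : M.NA) : ¬ HasBoundedHinf M.A := by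
  rintro ⟨σ, σ', h0, h1, h2, C, hC⟩
  rw [M.sectAngle_eq] at h0
  obtain ⟨N, hN⟩ := h (C * (Real.exp (Real.pi * |s0|) * (cst (Real.pi - σ))⁻¹ ^ 2))
  have hn : 1 ≤ 2 * (1 + mu N) := by linarith [mu_pos N]
  have h3 := h0.trans h1
  exact absurd (hC _ (fn_isH0 h3 h2 hn) _ fun z hz => fn_bound1 h3 h2 hn hz)
    (not_le.2 (hN _ _ (M.funCalc_mult h0 h1 h2 (fn_diff h3 h2 hn)
      fun z hz => fn_bound3 h3 h2 hn hz) fun k hk => fn_mu hk))

theorem not_bip [CompleteSpace X] (h : M.NA) : ¬ ImPowerBounded M.A s0 := by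
  rintro ⟨σ', h0, h1, C, hC⟩
  rw [M.sectAngle_eq] at h0
  obtain ⟨σ, h2, h3⟩ := exists_between h1
  have h4 := h0.trans h2
  have m1 := M.funCalc_mult h0 h2 h3 (rho_diff h4 h3) fun z hz => rho_bound h4 h3 hz
  have m2 := M.funCalc_mult (f := fun z => rho z * z ^ (I * s0))
    (K := (cst (Real.pi - σ))⁻¹ ^ 2 * Real.exp (Real.pi * |s0|)) h0 h2 h3
    ((rho_diff h4 h3).mul (cpow_diff s0 h3)) fun z hz => by
      rw [norm_mul, mul_div_right_comm]
      exact mul_le_mul (rho_bound h4 h3 hz) (cpow_bound s0 hz.1) (norm_nonneg _) (by positivity)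
  obtain ⟨N, hN⟩ := h (|C| * (M.C * 2))
  obtain ⟨B, -, hB⟩ := M.mult_fin (fun k => if k < N + 1 then (-1) ^ k else 0) (N + 1)
    fun k hk => if_neg (not_lt.2 hk)
  obtain ⟨P, hP1, hP⟩ := M.mult_anti (fun k => if k < N + 1 then 1 else 0)
    (fun a b hab => by
      dsimp only
      split_ifs <;> first | omega | norm_num)
    (fun k => by split_ifs <;> norm_num) (fun k => by split_ifs <;> norm_num)
  refine absurd (hN _ B hB fun k hk => by rw [if_pos (by omega)]; norm_num) (not_lt.2 ?_)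
  have := M.C0
  refine B.opNorm_le_bound (by positivity) fun x => ?_
  have h5 := hC (P x) (B x) (M.ext' fun n => by
    rw [m1, m2, hB, hP]
    simp only [mu_cpow]
    split_ifs <;> simp [mul_assoc])
  refine h5.trans ((mul_le_mul_of_nonneg_right (le_abs_self C) (norm_nonneg _)).trans ?_)
  rw [mul_assoc]
  refine mul_le_mul_of_nonneg_left ((P.le_opNorm x).trans ?_) (abs_nonneg _)
  exact mul_le_mul_of_nonneg_right hP1 (norm_nonneg _)

end MS

end Pool.Agent.H97Z.Sec
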