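import Pool.Agent.H97Z.SecMap
import Pool.Agent.Helper192.Dil.S

set_option autoImplicit false

open Complex Filter Topology MeasureTheory Set
open scoped ENNReal

noncomputable section

namespace Pool.Agent.H97Z.Sec

open Pool.Agent.Helper192.Dil (IsUMD IsFunctionLattice IsNonneg umd_of_op isUMD_of_equiv
  isUMD_hilbert)

theorem two_ne : (2 : ℝ≥0∞) ≠ ∞ := ENNReal.ofNat_ne_top

/-- the example on the Hilbert space -/
def M2 : MS (El 2) Idx := (exists_good two_ne).choose

theorem M2_good : Good M2 := (exists_good two_ne).choose_spec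

open scoped ComplexOrder in
theorem M2_pos (t : ℝ) (x : El 2) (hx : ∀ i, 0 ≤ x i) (i : Idx) : 0 ≤ M2.T t x i :=
  M2_good.pos two_ne (M2.T_mult t) (fun _ _ h => Real.exp_le_exp.2 (neg_le_neg
    (mul_le_mul_of_nonneg_left (mu_mono h) (le_max_right _ _)))) (fun _ => (Real.exp_pos _).le)
    x hx i

/-- domination -/
def Dom (u v : El 2) : Prop := ∀ i, ‖u i‖ ≤ (v i).re ∧ (v i).im = 0

theorem Dom.norm_le {u v : El 2} (h : Dom u v) : ‖u‖ ≤ ‖v‖ :=
  lp.norm_mono (by norm_num) fun i => (h i).1.trans (Complex.re_le_norm _)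

theorem Dom.add {u v u' v' : El 2} (h1 : Dom u v) (h2 : Dom u' v') : Dom (u + u') (v + v') := by
  intro i
  rw [lp.coeFn_add, lp.coeFn_add, Pi.add_apply, Pi.add_apply, Complex.add_re, Complex.add_im,
    (h1 i).2, (h2 i).2, add_zero]
  exact ⟨(norm_add_le _ _).trans (add_le_add (h1 i).1 (h2 i).1), rfl⟩

open scoped ComplexOrder in
theorem Dom.T {u v : El 2} (h : Dom u v) (t : ℝ) : Dom (M2.T t u) (M2.T t v) := by
  intro i
  have hv : ∀ j, 0 ≤ v j := fun j =>
    Complex.nonneg_iff.2 ⟨(norm_nonneg _).trans (h j).1, (h j).2.symm⟩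
  refine ⟨?_, (Complex.nonneg_iff.1 (M2_pos t v hv i)).2.symm⟩
  let r : Idx → ℂ := fun j => M2.T t (lp.single 2 j 1) i
  have hr : ∀ j, 0 ≤ r j := fun j => M2_pos t _ (fun k => by
    by_cases hk : k = j
    · subst hk
      rw [lp.single_apply_self]
      exact zero_le_one
    · rw [lp.single_apply_ne 2 _ _ hk]) i
  have hs : ∀ x : El 2, HasSum (fun j => x j * r j) (M2.T t x i) := fun x => by
    have h1 := ((lp.evalCLM ℂ (fun _ : Idx => ℂ) 2 i).comp (M2.T t)).hasSum
      (lp.hasSum_single two_ne x)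
    have h2 : (fun j => x j * r j) = fun j => ((lp.evalCLM ℂ (fun _ : Idx => ℂ) 2 i).comp (M2.T t))
        (lp.single 2 j (x j)) := funext fun j => by
      have : (lp.single 2 j (x j) : El 2) = x j • lp.single 2 j 1 := by
        rw [← lp.single_smul, smul_eq_mul, mul_one]
      rw [this, map_smul]
      rfl
    rw [h2]
    exact h1
  refine (hs u).norm_le_of_bounded (Complex.hasSum_re (hs v)) fun j => ?_
  obtain ⟨h1, h2⟩ := Complex.nonneg_iff.1 (hr j)
  have h3 : ‖r j‖ = (r j).re := by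
    rw [← Complex.re_add_im (r j), ← h2]
    simpa using h1
  rw [norm_mul, Complex.mul_re, ← h2, mul_zero, sub_zero, h3]
  exact mul_le_mul_of_nonneg_right (h j).1 h1

/-- modulus -/
def absx (x : El 2) : El 2 :=
  ⟨fun i => ((‖x i‖ : ℝ) : ℂ), (lp.memℓp x).mono' fun i => by simp⟩

theorem absx_apply (x : El 2) (i : Idx) : absx x i = ((‖x i‖ : ℝ) : ℂ) := rfl

theorem dom_absx (x : El 2) : Dom x (absx x) := fun i => by simp [absx_apply]

theorem Dom.absx {u v : El 2} (h : Dom u v) : Dom (absx u) v := fun i => by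
  simpa [absx_apply] using h i

theorem absx_norm (x : El 2) : ‖absx x‖ = ‖x‖ :=
  le_antisymm (lp.norm_mono (by norm_num) fun i => by simp [absx_apply]) (dom_absx x).norm_le

/-- the new norm -/
def NN (x : El 2) : ℝ := ⨆ t : ℝ, ‖M2.T t (absx x)‖

theorem T_le (x : El 2) (t : ℝ) : ‖M2.T t (absx x)‖ ≤ M2.C * 2 * ‖x‖ := by
  rw [← absx_norm x]
  exact ((M2.T t).le_opNorm _).trans (mul_le_mul_of_nonneg_right (M2.T_norm t) (norm_nonneg _))

theorem le_NN (x : El 2) (t : ℝ) : ‖M2.T t (absx x)‖ ≤ NN x :=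
  le_ciSup (f := fun t : ℝ => ‖M2.T t (absx x)‖) ⟨_, by rintro _ ⟨t, rfl⟩; exact T_le x t⟩ t

theorem norm_le_NN (x : El 2) : ‖x‖ ≤ NN x := by
  have h := le_NN x 0
  rwa [M2.isC0.1, ContinuousLinearMap.one_apply, absx_norm] at h

theorem NN_le (x : El 2) : NN x ≤ M2.C * 2 * ‖x‖ := ciSup_le (T_le x)

theorem NN_mono {x y : El 2} (h : ∀ i, ‖x i‖ ≤ ‖y i‖) : NN x ≤ NN y :=
  ciSup_le fun t => le_trans (Dom.T (u := absx x) (v := absx y)
    (fun i => by simpa [absx_apply] using h i) t).norm_le (le_NN y t)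

theorem NN_add (x y : El 2) : NN (x + y) ≤ NN x + NN y := by
  refine ciSup_le fun t => ?_
  have h2 := (((dom_absx x).add (dom_absx y)).absx.T t).norm_le
  rw [map_add] at h2
  exact h2.trans ((norm_add_le _ _).trans (add_le_add (le_NN x t) (le_NN y t)))

theorem NN_smul (c : ℂ) (x : El 2) : NN (c • x) = ‖c‖ * NN x := by
  have h1 : absx (c • x) = ((‖c‖ : ℝ) : ℂ) • absx x := lp.ext (funext fun i => by
    rw [lp.coeFn_smul, Pi.smul_apply, absx_apply, absx_apply, lp.coeFn_smul, Pi.smul_apply]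
    simp)
  unfold NN
  rw [Real.mul_iSup_of_nonneg (norm_nonneg c)]
  simp only [h1, map_smul, norm_smul, Complex.norm_real, norm_norm]

theorem NN_T {s : ℝ} (hs : 0 ≤ s) (x : El 2) : NN (M2.T s x) ≤ NN x := by
  refine ciSup_le fun t => ?_
  have h2 := (((dom_absx x).T s).absx.T t).norm_le
  have h3 : M2.T t = M2.T (max t 0) :=
    (M2.T_mult t).unique (by simpa using M2.T_mult (max t 0))
  rw [h3] at h2 ⊢
  refine h2.trans (le_of_eq_of_le ?_ (le_NN x (max t 0 + s)))
  rw [M2.isC0.2.1 _ _ (le_max_right _ _) hs]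
  rfl

/-- the lattice -/
def XX : Type := El 2

instance : AddCommGroup XX := inferInstanceAs (AddCommGroup (El 2))
instance : Module ℂ XX := inferInstanceAs (Module ℂ (El 2))
instance : Norm XX := ⟨fun x => NN x⟩

theorem XX_core : NormedSpace.Core ℂ XX where
  norm_nonneg x := (norm_nonneg _).trans (norm_le_NN x)
  norm_smul c x := NN_smul c x
  norm_triangle x y := NN_add x y
  norm_eq_zero_iff x := by
    constructor
    · intro h
      have h1 := norm_le_NN x
      have h2 : NN x = 0 := h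
      rw [h2] at h1
      exact norm_le_zero_iff.mp h1
    · intro h
      have h1 := NN_le (0 : El 2)
      rw [norm_zero, mul_zero] at h1
      rw [h]
      exact le_antisymm h1 ((norm_nonneg (0 : El 2)).trans (norm_le_NN 0))

instance : NormedAddCommGroup XX := NormedAddCommGroup.ofCore XX_core
instance : NormedSpace ℂ XX := NormedSpace.ofCore XX_core

/-- identification with the Hilbert space -/
def eX : XX ≃L[ℂ] El 2 :=
  LinearEquiv.toContinuousLinearEquivOfBounds (LinearEquiv.refl ℂ (El 2) : XX ≃ₗ[ℂ] El 2) 1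
    (M2.C * 2) (fun x => by rw [one_mul]; exact norm_le_NN x) (fun x => NN_le x)

instance : CompleteSpace XX :=
  (completeSpace_congr (e := eX.toEquiv) eX.isUniformEmbedding).2 inferInstance

theorem XX_umd : IsUMD XX := umd_of_op (isUMD_of_equiv eX (isUMD_hilbert (El 2)))

/-- evaluation -/
def evX : XX →ₗ[ℂ] (Idx → ℂ) where
  toFun x := fun i => eX x i
  map_add' x y := by
    rw [map_add]
    rfl
  map_smul' c x := by
    rw [map_smul]
    rfl

theorem evX_lattice : IsFunctionLattice evX where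
  injective := fun _ _ h => eX.injective (lp.ext h)
  solid := fun x g hg =>
    ⟨eX.symm ⟨g, (lp.memℓp (eX x)).mono' hg⟩, rfl, NN_mono (y := eX x) hg⟩

/-- the example on the lattice -/
def M3 : MS XX Idx := M2.map eX.symm

theorem M3_T (t : ℝ) (x : XX) : M3.T t x = eX.symm (M2.T t (eX x)) := M2.map_T _ t x

theorem M3_contr {t : ℝ} (ht : 0 ≤ t) : ‖M3.T t‖ ≤ 1 :=
  (M3.T t).opNorm_le_bound zero_le_one fun x => by
    rw [one_mul, M3_T]
    exact NN_T ht (eX x)

theorem M3_pos (t : ℝ) (x : XX) (hx : IsNonneg evX x) : IsNonneg evX (M3.T t x) := fun i => by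
  rw [M3_T]
  have h := Complex.nonneg_iff.1 (M2_pos t (eX x)
    (fun j => Complex.nonneg_iff.2 ⟨(hx j).1, (hx j).2.symm⟩) i)
  exact ⟨h.1, h.2.symm⟩

theorem M3_na : M3.NA := M2.map_na _ (M2_good.na two_ne (by norm_num))

end Pool.Agent.H97Z.Sec
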