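import Mathlib

set_option autoImplicit false

open Filter Topology MeasureTheory Set BoundedContinuousFunction

noncomputable section

namespace Pool.Agent.H97Z.Stab

/-- translation on bounded continuous functions -/
def U (t : ℝ) : (ℝ →ᵇ ℂ) →L[ℂ] (ℝ →ᵇ ℂ) :=
  compContinuousCLM ℂ ℂ ⟨fun u => u + t, by fun_prop⟩

theorem U_apply (t : ℝ) (f : ℝ →ᵇ ℂ) (u : ℝ) : U t f u = f (u + t) := rfl

theorem U_norm (t : ℝ) (f : ℝ →ᵇ ℂ) : ‖U t f‖ ≤ ‖f‖ :=
  (norm_le (norm_nonneg f)).2 fun _ => f.norm_coe_le_norm _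

theorem U_add (s t : ℝ) (f : ℝ →ᵇ ℂ) : U (s + t) f = U s (U t f) := by
  ext u
  simp only [U_apply, add_assoc]

/-- the space of strong continuity -/
def Y : Submodule ℂ (ℝ →ᵇ ℂ) where
  carrier := {f | Continuous fun t => U t f}
  add_mem' := fun ha hb => by
    simp only [mem_ofPred_eq, map_add] at *
    exact ha.add hb
  zero_mem' := by
    simp only [mem_ofPred_eq, map_zero]
    exact continuous_const
  smul_mem' := fun c a ha => by
    simp only [mem_ofPred_eq, map_smul] at *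
    exact ha.const_smul c

theorem Y_closed : IsClosed (Y : Set (ℝ →ᵇ ℂ)) := by
  refine isClosed_of_closure_subset fun f hf => ?_
  refine continuous_of_uniform_approx_of_continuous fun V hV => ?_
  obtain ⟨ε, hε, h1⟩ := Metric.mem_uniformity_dist.1 hV
  obtain ⟨g, hg, h2⟩ := Metric.mem_closure_iff.1 hf ε hε
  refine ⟨fun t => U t g, hg, fun t => h1 ?_⟩
  rw [dist_eq_norm] at h2 ⊢
  rw [← map_sub]
  exact (U_norm _ _).trans_lt h2

instance : CompleteSpace Y := Y_closed.completeSpace_coe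

/-- the group -/
def T (t : ℝ) : Y →L[ℂ] Y :=
  ((U t).comp Y.subtypeL).codRestrict Y fun f => by
    have h : Continuous fun s => U s (f : ℝ →ᵇ ℂ) := f.2
    change Continuous fun s => U s (U t f)
    simp only [← U_add]
    exact h.comp (by fun_prop)

theorem T_coe (t : ℝ) (f : Y) : (T t f : ℝ →ᵇ ℂ) = U t f := rfl

theorem T_zero : T 0 = 1 := by
  ext f u
  simp [T_coe, U_apply]

theorem T_add (s t : ℝ) : T (s + t) = T s * T t := by
  ext f u
  exact congrArg (fun g : ℝ →ᵇ ℂ => g u) (U_add s t f)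

theorem T_cont (f : Y) : Continuous fun t => T t f :=
  Continuous.subtype_mk (f := fun t => U t (f : ℝ →ᵇ ℂ)) f.2 _

theorem T_le (t : ℝ) (f : Y) : ‖T t f‖ ≤ ‖f‖ := U_norm t f

theorem T_norm (t : ℝ) : ‖T t‖ ≤ 1 :=
  (T t).opNorm_le_bound zero_le_one fun f => by rw [one_mul]; exact T_le t f

/-- the profile -/
def w (u : ℝ) : ℝ := (1 + u ^ 2)⁻¹

/-- its derivative -/
def w' (u : ℝ) : ℝ := -(2 * u) / (1 + u ^ 2) ^ 2

theorem w_pos (u : ℝ) : 0 < w u := by unfold w; positivity

theorem w_le (u : ℝ) : w u ≤ 1 := inv_le_one_of_one_le₀ (by nlinarith [sq_nonneg u])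

theorem w_deriv (u : ℝ) : HasDerivAt w (w' u) u := by
  have h := ((hasDerivAt_pow 2 u).const_add 1).inv (show 1 + u ^ 2 ≠ 0 by positivity)
  refine HasDerivAt.congr_deriv h ?_
  simp [w']

theorem w'_le (u : ℝ) : |w' u| ≤ w u := by
  have h : 0 < 1 + u ^ 2 := by positivity
  rw [w', w, abs_div, abs_neg, abs_of_pos (pow_pos h 2), div_le_iff₀ (pow_pos h 2), sq (1 + u ^ 2),
    ← mul_assoc, inv_mul_cancel₀ h.ne', one_mul, abs_le]
  constructor <;> nlinarith [sq_nonneg (u - 1), sq_nonneg (u + 1)]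

theorem w_cont : Continuous w := continuous_iff_continuousAt.2 fun u => (w_deriv u).continuousAt

theorem w'_cont : Continuous w' :=
  Continuous.div (by fun_prop) (by fun_prop) fun u => by positivity

theorem w_lip (a b : ℝ) : |w a - w b| ≤ |a - b| := by
  have := Convex.norm_image_sub_le_of_norm_hasDerivWithin_le (f := w) (f' := w') (C := 1)
    (s := univ) (fun x _ => (w_deriv x).hasDerivWithinAt)
    (fun x _ => (w'_le x).trans (w_le x)) convex_univ (mem_univ b) (mem_univ a)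
  simpa using this

/-- the vector -/
def f0 : ℝ →ᵇ ℂ := ofNormedAddCommGroup (fun u => (w u : ℂ))
  (Complex.continuous_ofReal.comp w_cont) 1 fun u => by
    rw [Complex.norm_real, Real.norm_of_nonneg (w_pos u).le]
    exact w_le u

theorem f0_mem : f0 ∈ Y := by
  refine (LipschitzWith.of_dist_le_mul (K := 1) fun s t => ?_).continuous
  rw [NNReal.coe_one, one_mul, dist_le dist_nonneg]
  intro u
  change dist (w (u + s) : ℂ) (w (u + t)) ≤ _
  rw [dist_eq_norm, ← Complex.ofReal_sub, Complex.norm_real, Real.dist_eq]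
  simpa using w_lip (u + s) (u + t)

/-- the vector -/
def x0 : Y := ⟨f0, f0_mem⟩

theorem not_stable : ¬ Tendsto (fun t => T t x0) atTop (𝓝 0) := by
  intro h
  obtain ⟨t, ht⟩ := ((tendsto_zero_iff_norm_tendsto_zero.1 h).eventually
    (gt_mem_nhds one_pos)).exists
  have h1 := (U t f0).norm_coe_le_norm (-t)
  rw [U_apply, neg_add_cancel] at h1
  have h2 : ‖f0 0‖ = 1 := by
    change ‖(w 0 : ℂ)‖ = 1
    simp [w]
  rw [h2] at h1
  exact absurd ht (not_lt.2 h1)

theorem exp_le {l : ℂ} (hl : 0 < l.re) {t : ℝ} (ht : 0 < t) : ‖Complex.exp (-(l * t))‖ ≤ 1 := by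
  rw [Complex.norm_exp, Real.exp_le_one_iff]
  simp only [Complex.neg_re, Complex.mul_re, Complex.ofReal_re, Complex.ofReal_im, mul_zero,
    sub_zero]
  nlinarith

theorem w_int (u : ℝ) : Integrable fun t => w (u + t) :=
  integrable_inv_one_add_sq.comp_add_left u

theorem lap_bound {l : ℂ} (hl : 0 < l.re) {g : ℝ → ℝ} (hg : Continuous g) (h : ∀ u, |g u| ≤ w u)
    (u : ℝ) : IntegrableOn (fun t : ℝ => Complex.exp (-(l * t)) * g (u + t)) (Ioi 0) ∧
      ‖∫ t in Ioi (0 : ℝ), Complex.exp (-(l * t)) * g (u + t)‖ ≤ Real.pi := by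
  have h1 : ∀ᵐ t : ℝ ∂(volume.restrict (Ioi (0 : ℝ))),
      ‖Complex.exp (-(l * t)) * g (u + t)‖ ≤ w (u + t) :=
    (ae_restrict_iff' measurableSet_Ioi).2 (Eventually.of_forall fun t ht => by
      rw [norm_mul, Complex.norm_real]
      exact (mul_le_of_le_one_left (norm_nonneg _) (exp_le hl ht)).trans (h _))
  refine ⟨Integrable.mono' (w_int u).integrableOn
    (Continuous.aestronglyMeasurable (by fun_prop)) h1, ?_⟩
  refine (norm_integral_le_of_norm_le (w_int u).integrableOn h1).trans ?_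
  refine (setIntegral_le_integral (w_int u) (Eventually.of_forall fun t => (w_pos _).le)).trans ?_
  rw [integral_add_left_eq_self w u]
  exact integral_univ_inv_one_add_sq.le

theorem lap_bound2 {l : ℂ} (hl : 0 < l.re) (u : ℝ) :
    ‖l‖ * ‖∫ t in Ioi (0 : ℝ), Complex.exp (-(l * t)) * w (u + t)‖ ≤ 1 + Real.pi := by
  obtain ⟨a1, -⟩ := lap_bound hl w_cont (fun u => (abs_of_pos (w_pos u)).le) u
  obtain ⟨b1, b2⟩ := lap_bound hl w'_cont w'_le u
  have h1 := integral_Ioi_of_hasDerivAt_of_tendsto' (a := 0) (m := 0)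
    (f := fun t : ℝ => Complex.exp (-(l * t)) * w (u + t))
    (f' := fun t : ℝ => Complex.exp (-(l * t)) * w' (u + t) -
      l * (Complex.exp (-(l * t)) * w (u + t))) (fun t _ => by
      have c1 : HasDerivAt (fun t : ℝ => Complex.exp (-(l * t))) (Complex.exp (-(l * t)) * -l) t := by
        have := (((hasDerivAt_id t).ofReal_comp).const_mul l).neg.cexp
        simpa using this
      have c2 : HasDerivAt (fun t : ℝ => (w (u + t) : ℂ)) (w' (u + t)) t :=
        ((w_deriv (u + t)).comp_const_add u t).ofReal_comp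
      refine (c1.mul c2).congr_deriv ?_
      ring) (b1.sub (a1.const_mul l)) (by
      rw [tendsto_zero_iff_norm_tendsto_zero]
      have c1 : Tendsto (fun t : ℝ => w (u + t)) atTop (𝓝 0) :=
        tendsto_inv_atTop_zero.comp (tendsto_atTop_add_const_left _ 1
          ((tendsto_pow_atTop two_ne_zero).comp (tendsto_atTop_add_const_left _ u tendsto_id)))
      refine squeeze_zero' (Eventually.of_forall fun _ => norm_nonneg _) ?_ c1
      filter_upwards [eventually_gt_atTop 0] with t ht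
      rw [norm_mul, Complex.norm_real, Real.norm_of_nonneg (w_pos _).le]
      exact mul_le_of_le_one_left (w_pos _).le (exp_le hl ht))
  rw [integral_sub b1 (a1.const_mul l), integral_const_mul] at h1
  simp only [Complex.ofReal_zero, mul_zero, neg_zero, Complex.exp_zero, add_zero, one_mul,
    zero_sub] at h1
  rw [← norm_mul, show l * ∫ t in Ioi (0 : ℝ), Complex.exp (-(l * t)) * w (u + t) =
    w u + ∫ t in Ioi (0 : ℝ), Complex.exp (-(l * t)) * w' (u + t) by linear_combination -h1]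
  refine (norm_add_le _ _).trans (add_le_add ?_ b2)
  rw [Complex.norm_real, Real.norm_of_nonneg (w_pos _).le]
  exact w_le u

theorem res_bound {l : ℂ} (hl : 0 < l.re) {C : ℝ} (hC : 0 ≤ C)
    (h : ∀ u, ‖∫ t in Ioi (0 : ℝ), Complex.exp (-(l * t)) * w (u + t)‖ ≤ C) :
    ‖∫ t in Ioi (0 : ℝ), Complex.exp (-(l * t)) • T t x0‖ ≤ C := by
  have hi : IntegrableOn (fun t : ℝ => Complex.exp (-(l * t)) • T t x0) (Ioi 0) := by
    refine Integrable.mono' ((exp_neg_integrableOn_Ioi 0 hl).mul_const ‖x0‖)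
      (Continuous.aestronglyMeasurable ((by fun_prop : Continuous fun t : ℝ =>
        Complex.exp (-(l * t))).smul (T_cont x0))) (Eventually.of_forall fun t => ?_)
    rw [norm_smul, Complex.norm_exp]
    refine mul_le_mul (le_of_eq ?_) (T_le t x0) (norm_nonneg _) (Real.exp_pos _).le
    simp
  refine (norm_le hC).2 fun u => ?_
  have h1 := ((evalCLM ℂ u).comp Y.subtypeL).integral_comp_comm hi
  exact le_of_eq_of_le (congrArg norm h1.symm) (h u)

theorem res_sq {a : ℝ} (ha : 0 < a) (s : ℝ) :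
    ‖∫ t in Ioi (0 : ℝ), Complex.exp (-((a + s * Complex.I) * t)) • T t x0‖ ^ 2 ≤
      (Real.pi ^ 2 + (1 + Real.pi) ^ 2) * w s := by
  have hl : 0 < (a + s * Complex.I : ℂ).re := by simpa using ha
  have hpi := Real.pi_pos
  have h0 : 0 < ‖(a + s * Complex.I : ℂ)‖ := hl.trans_le (Complex.re_le_norm _)
  have h1 := res_bound hl hpi.le
    fun u => (lap_bound hl w_cont (fun u => (abs_of_pos (w_pos u)).le) u).2
  have h2 := res_bound hl (C := (1 + Real.pi) / ‖(a + s * Complex.I : ℂ)‖) (by positivity)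
    fun u => by rw [le_div_iff₀ h0, mul_comm]; exact lap_bound2 hl u
  rw [le_div_iff₀ h0] at h2
  have h3 : |s| ≤ ‖(a + s * Complex.I : ℂ)‖ := by
    simpa using Complex.abs_im_le_norm (a + s * Complex.I)
  set R := ‖∫ t in Ioi (0 : ℝ), Complex.exp (-((a + s * Complex.I) * t)) • T t x0‖
  have hR : 0 ≤ R := norm_nonneg _
  have h4 : R * |s| ≤ 1 + Real.pi := (mul_le_mul_of_nonneg_left h3 hR).trans h2
  have h5 := pow_le_pow_left₀ (by positivity) h4 2
  rw [mul_pow, sq_abs] at h5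
  rw [w, ← div_eq_mul_inv, le_div_iff₀ (by positivity)]
  nlinarith [pow_le_pow_left₀ hR h1 2]

theorem cond : Tendsto (fun a : ℝ => ENNReal.ofReal a * ∫⁻ s : ℝ,
    ((‖∫ t in Ioi (0 : ℝ), Complex.exp (-(((a : ℂ) + (s : ℂ) * Complex.I) * (t : ℂ))) •
      T t x0‖₊ : ENNReal)) ^ 2) (𝓝[>] (0 : ℝ)) (𝓝 0) := by
  set K := ∫⁻ s : ℝ, ENNReal.ofReal ((Real.pi ^ 2 + (1 + Real.pi) ^ 2) * w s)
  have hK : K ≠ ⊤ := (integrable_inv_one_add_sq.const_mul _).lintegral_lt_top.ne
  have h1 : Tendsto (fun a : ℝ => ENNReal.ofReal a * K) (𝓝[>] (0 : ℝ)) (𝓝 0) := by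
    have := ENNReal.Tendsto.mul_const (b := K) ((ENNReal.continuous_ofReal.tendsto 0).mono_left
      (nhdsWithin_le_nhds (s := Ioi 0))) (Or.inr hK)
    simpa using this
  refine tendsto_of_tendsto_of_tendsto_of_le_of_le' tendsto_const_nhds h1
    (Eventually.of_forall fun _ => zero_le) (eventually_nhdsWithin_of_forall fun a ha => ?_)
  refine mul_le_mul_right (lintegral_mono fun s => ?_) _
  rw [← ENNReal.ofReal_coe_nnreal, ← ENNReal.ofReal_pow (NNReal.coe_nonneg _)]
  exact ENNReal.ofReal_le_ofReal (res_sq ha s)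

end Pool.Agent.H97Z.Stab
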