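import Pool.Agent.H97Z.TPDefs

set_option autoImplicit false

open Cardinal Ordinal Set

namespace Pool.Agent.H97Z.TP

universe v

theorem two_eq : (2 : Ordinal.{v}) = 1 + 1 := by norm_num

theorem lt_aleph_two {c : Cardinal.{v}} : c < ℵ_ 2 ↔ c ≤ ℵ₁ := by
  rw [two_eq, ← succ_aleph, Order.lt_succ_iff]

theorem w1_lt_w2 : (ω₁ : Ordinal.{0}) < ω_ 2 := omega_lt_omega.2 (by norm_num)

theorem w2_pos : (0 : Ordinal.{0}) < ω_ 2 := omega_pos _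

theorem w1_pos : (0 : Ordinal.{0}) < ω₁ := omega_pos _

theorem succ_lt_w2 {a : Ordinal.{0}} (h : a < ω_ 2) : a + 1 < ω_ 2 :=
  (isSuccLimit_omega 2).add_one_lt h

theorem succ_lt_w1 {a : Ordinal.{0}} (h : a < ω₁) : a + 1 < ω₁ :=
  (isSuccLimit_omega 1).add_one_lt h

theorem lt_add_one' (a : Ordinal.{0}) : a < a + 1 := lt_add_one a

theorem cof_w2 : (ω_ 2 : Ordinal.{v}).cof = ℵ_ 2 := by
  rw [two_eq, cof_omega_add_one]

theorem bdd2_fam {ι : Type v} (hι : #ι ≤ ℵ₁) (f : ι → Ordinal.{0}) (hf : ∀ i, f i < ω_ 2) :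
    ∃ δ < ω_ 2, ∀ i, f i < δ := by
  refine ⟨⨆ i, f i + 1, lift_iSup_add_one_lt_of_lt_cof ?_ hf, fun i => ?_⟩
  · rw [← lift_cof, cof_w2, lift_aleph]
    simp only [Cardinal.lift_uzero, Ordinal.lift_ofNat]
    exact lt_aleph_two.2 hι
  · refine (lt_add_one' _).trans_le (le_ciSup (f := fun i => f i + 1) ⟨ω_ 2, ?_⟩ i)
    rintro _ ⟨j, rfl⟩
    exact (succ_lt_w2 (hf j)).le

theorem bdd2 {α : Type v} {s : Set α} (hs : #s ≤ ℵ₁) (f : α → Ordinal.{0})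
    (hf : ∀ a ∈ s, f a < ω_ 2) : ∃ δ < ω_ 2, ∀ a ∈ s, f a < δ := by
  obtain ⟨δ, h1, h2⟩ := bdd2_fam hs (fun a : s => f a) (fun a => hf a a.2)
  exact ⟨δ, h1, fun a ha => h2 ⟨a, ha⟩⟩

theorem countable_le {α : Type v} {s : Set α} (hs : s.Countable) : #s ≤ ℵ₁ :=
  (le_aleph0_iff_set_countable.2 hs).trans aleph0_lt_aleph_one.le

theorem bdd2_ctbl {s : Set Ordinal.{0}} (hs : s.Countable) (hf : s ⊆ Iio (ω_ 2)) :
    ∃ δ < ω_ 2, ∀ a ∈ s, a < δ :=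
  bdd2 (countable_le hs) id hf

theorem bdd1 {s : Set Ordinal.{0}} (hs : s.Countable) :
    ∃ γ < ω₁, ∀ a ∈ s, a < ω₁ → a < γ := by
  have hc : (s ∩ Iio ω₁).Countable := hs.mono inter_subset_left
  have := hc.to_subtype
  refine ⟨⨆ i : (s ∩ Iio ω₁ : Set Ordinal.{0}), (i : Ordinal.{0}) + 1,
    Ordinal.iSup_lt_omega_one fun i => succ_lt_w1 i.2.2, fun a ha h => ?_⟩
  refine (lt_add_one' _).trans_le (le_ciSup
    (f := fun i : (s ∩ Iio ω₁ : Set Ordinal.{0}) => (i : Ordinal.{0}) + 1) ⟨ω₁, ?_⟩ ⟨a, ha, h⟩)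
  rintro _ ⟨j, rfl⟩
  exact (succ_lt_w1 j.2.2).le

theorem mk_Iio_w1 : #(Iio (ω₁ : Ordinal.{0})) = ℵ₁ := by
  rw [Cardinal.mk_Iio_ordinal, card_omega, lift_aleph]
  simp

theorem mk_Iio_le {δ : Ordinal.{0}} (h : δ < ω_ 2) : #(Iio δ) ≤ ℵ₁ := by
  rw [Cardinal.mk_Iio_ordinal]
  have := lt_aleph_two.1 (lt_omega_iff_card_lt.1 h)
  have h2 := Cardinal.lift_le.{1}.2 this
  rw [lift_aleph] at h2
  simpa using h2

theorem countable_Iio {γ : Ordinal.{0}} (h : γ < ω₁) : (Iio γ).Countable := by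
  rw [← le_aleph0_iff_set_countable, Cardinal.mk_Iio_ordinal]
  have := lt_aleph_one_iff.1 (lt_omega_iff_card_lt.1 h)
  have h2 := Cardinal.lift_le.{1}.2 this
  simpa using h2

theorem not_countable_Iio_w1 : ¬ (Iio (ω₁ : Ordinal.{0})).Countable := by
  rw [← le_aleph0_iff_set_countable, mk_Iio_w1, not_le]
  exact aleph0_lt_aleph_one

theorem exists_inj {α : Type v} {s : Set α} (hs : #s ≤ ℵ₁) :
    ∃ I : α → Ordinal.{0}, (∀ a, I a < ω₁) ∧ InjOn I s := by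
  classical
  have : Cardinal.lift.{1} #s ≤ Cardinal.lift.{v} #(Iio (ω₁ : Ordinal.{0})) := by
    rw [mk_Iio_w1, lift_aleph]
    have h2 := Cardinal.lift_le.{1}.2 hs
    rw [lift_aleph] at h2
    simpa using h2
  obtain ⟨e⟩ := Cardinal.lift_mk_le'.1 this
  refine ⟨fun a => if h : a ∈ s then (e ⟨a, h⟩ : Ordinal.{0}) else 0, fun a => ?_, ?_⟩
  · by_cases h : a ∈ s
    · simp only [dif_pos h]; exact (e ⟨a, h⟩).2
    · simp only [dif_neg h]; exact w1_pos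
  · intro a ha b hb hab
    simp only [dif_pos ha, dif_pos hb] at hab
    have := e.injective (Subtype.ext hab)
    exact congrArg Subtype.val this

theorem le_of_inj {α : Type v} {s : Set α} (I : α → Ordinal.{0}) (h1 : ∀ a ∈ s, I a < ω₁)
    (h2 : InjOn I s) : #s ≤ ℵ₁ := by
  have : Cardinal.lift.{1} #s ≤ Cardinal.lift.{v} #(Iio (ω₁ : Ordinal.{0})) := by
    refine Cardinal.lift_mk_le'.2 ⟨⟨fun a => ⟨I a, h1 a a.2⟩, fun a b hab => ?_⟩⟩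
    exact Subtype.ext (h2 a.2 b.2 (congrArg Subtype.val hab))
  rw [mk_Iio_w1, lift_aleph] at this
  have h3 : Cardinal.lift.{1} (ℵ₁ : Cardinal.{v}) = ℵ_ (Ordinal.lift.{v, 1} 1) := by
    rw [lift_aleph]; simp
  rw [← h3] at this
  exact Cardinal.lift_le.1 this

theorem exists_J : ∃ J : Ordinal.{0} → Ordinal.{0} → Ordinal.{0},
    (∀ a b, J a b < ω₁) ∧ ∀ a < ω_ 2, InjOn (J a) (Iio a) := by
  have : ∀ a : Ordinal.{0}, ∃ I : Ordinal.{0} → Ordinal.{0},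
      (∀ b, I b < ω₁) ∧ (a < ω_ 2 → InjOn I (Iio a)) := by
    intro a
    by_cases h : a < ω_ 2
    · obtain ⟨I, h1, h2⟩ := exists_inj (mk_Iio_le h)
      exact ⟨I, h1, fun _ => h2⟩
    · exact ⟨fun _ => 0, fun _ => w1_pos, fun h' => absurd h' h⟩
  choose J h1 h2 using this
  exact ⟨J, h1, h2⟩

theorem mk_finsets_le {δ : Ordinal.{0}} (h : δ < ω_ 2) :
    #{p : Finset Ordinal.{0} | (p : Set Ordinal.{0}) ⊆ Iio δ} ≤ ℵ₁ := by
  classical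
  have h1 : #{p : Finset Ordinal.{0} | (p : Set Ordinal.{0}) ⊆ Iio δ} ≤ #(List (Iio δ)) := by
    refine Cardinal.mk_le_of_surjective
      (f := fun l : List (Iio δ) => ⟨(l.map Subtype.val).toFinset, ?_⟩) ?_
    · intro a ha
      simp only [List.coe_toFinset, List.mem_map, mem_ofPred_eq] at ha
      obtain ⟨b, -, rfl⟩ := ha
      exact b.2
    · rintro ⟨p, hp⟩
      refine ⟨(p.subtype (· ∈ Iio δ)).toList, Subtype.ext ?_⟩
      ext a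
      simp only [List.mem_toFinset, List.mem_map, Finset.mem_toList, Finset.mem_subtype]
      constructor
      · rintro ⟨b, hb, rfl⟩
        exact hb
      · intro ha
        exact ⟨⟨a, hp ha⟩, ha, rfl⟩
  refine h1.trans ((mk_list_le_max _).trans (max_le aleph0_lt_aleph_one.le (mk_Iio_le h)))

theorem countable_finsets {α : Type v} {y : Set α} (hy : y.Countable) :
    {e : Finset α | (e : Set α) ⊆ y}.Countable := by
  have := countable_ofPred_finite_subset hy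
  refine (this.preimage_of_injOn (f := fun e : Finset α => (e : Set α))
    (fun a _ b _ h => Finset.coe_injective h)).mono ?_
  intro e he
  exact ⟨e.finite_toSet, he⟩

/-- an `ω₁`-sequence below `ω₂` growing faster than `g` -/
theorem exists_fast (g : Ordinal.{0} → Ordinal.{0}) (hg : ∀ β < ω_ 2, g β < ω_ 2) :
    ∃ b : Ordinal.{0} → Ordinal.{0}, ∃ lam < ω_ 2, (∀ ξ < ω₁, b ξ < lam) ∧
      ∀ ζ ξ, ζ < ξ → ξ < ω₁ → g (b ζ) < b ξ := by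
  let b : Ordinal.{0} → Ordinal.{0} := fun ξ =>
    WellFounded.fix (C := fun _ => Ordinal.{0}) (wellFounded_lt (α := Ordinal.{0}))
      (fun x ih => ⨆ ζ : Iio x, g (ih ζ.1 ζ.2) + 1) ξ
  have hb : ∀ ξ, b ξ = ⨆ ζ : Iio ξ, g (b ζ.1) + 1 := fun ξ => by
    simp only [b]
    rw [WellFounded.fix_eq]
  have h2 : ∀ ξ, ξ < ω₁ → b ξ < ω_ 2 := by
    intro ξ
    induction ξ using WellFoundedLT.induction with
    | ind ξ ih =>
      intro hξ
      obtain ⟨δ, h1, h2⟩ := bdd2_fam (mk_Iio_le (hξ.trans w1_lt_w2))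
        (fun ζ : Iio ξ => g (b ζ.1) + 1)
        (fun ζ => succ_lt_w2 (hg _ (ih ζ.1 ζ.2 (lt_trans ζ.2 hξ))))
      rw [hb]
      exact (Ordinal.iSup_le fun ζ => (h2 ζ).le).trans_lt h1
  obtain ⟨lam, h3, h4⟩ := bdd2 (s := Iio (ω₁ : Ordinal.{0})) mk_Iio_w1.le b h2
  refine ⟨b, lam, h3, h4, fun ζ ξ hζ _ => ?_⟩
  rw [hb ξ]
  exact lt_iSup_add_one (fun ζ : Iio ξ => g (b ζ.1)) ⟨ζ, hζ⟩

/-- an unbounded subset of `ω₂` has an uncountable bounded part -/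
theorem unbdd_uncountable (B : Set Ordinal.{0})
    (hB : ∀ η < ω_ 2, ∃ β, η < β ∧ β < ω_ 2 ∧ β ∈ B) :
    ∃ lam < ω_ 2, ¬ (B ∩ Iio lam).Countable := by
  classical
  choose! g hg1 hg2 hg3 using hB
  obtain ⟨b, lam, h1, h2, h3⟩ := exists_fast g hg2
  refine ⟨lam, h1, fun hc => not_countable_Iio_w1 ?_⟩
  have key : ∀ ζ ξ, ζ < ξ → ξ < ω₁ → g (b ζ) < g (b ξ) := fun ζ ξ h h' =>
    (h3 ζ ξ h h').trans (hg1 _ ((h2 ξ h').trans h1))
  refine MapsTo.countable_of_injOn (f := fun ξ => g (b ξ)) (t := B ∩ Iio lam) ?_ ?_ hc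
  · intro ξ hξ
    exact ⟨hg3 _ ((h2 ξ hξ).trans h1),
      (h3 ξ (ξ + 1) (lt_add_one' ξ) (succ_lt_w1 hξ)).trans (h2 _ (succ_lt_w1 hξ))⟩
  · intro ζ hζ ξ hξ h
    rcases lt_trichotomy ζ ξ with h' | h' | h'
    · exact absurd h (key _ _ h' hξ).ne
    · exact h'
    · exact absurd h (key _ _ h' hζ).ne'

/-- closure sequences -/
theorem closure_seq (Q : Finset Ordinal.{0} → Ordinal.{0} → Ordinal.{0} → Prop)
    (hQ : ∀ p : Finset Ordinal.{0}, ∀ ζ < ω_ 2, (p : Set Ordinal.{0}) ⊆ Iio (ω_ 2) →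
      ∃ θ < ω_ 2, ∀ θ', θ ≤ θ' → Q p ζ θ') (d : Ordinal.{0}) (hd : d < ω_ 2) :
    ∃ δ : ℕ → Ordinal.{0}, ∃ D < ω_ 2, δ 0 = d ∧ (∀ n, δ n < D) ∧ (∀ n, δ n < δ (n + 1)) ∧
      (∀ η < D, ∃ n, η < δ n) ∧
      ∀ n, ∀ p : Finset Ordinal.{0}, (p : Set Ordinal.{0}) ⊆ Iio (δ n) → Q p (δ n) (δ (n + 1)) := by
  have step : ∀ ζ : Ordinal.{0}, ∃ θ : Ordinal.{0}, ζ < ω_ 2 → (θ < ω_ 2 ∧ ζ < θ ∧
      ∀ p : Finset Ordinal.{0}, (p : Set Ordinal.{0}) ⊆ Iio ζ → Q p ζ θ) := by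
    intro ζ
    by_cases hζ : ζ < ω_ 2
    swap
    · exact ⟨0, fun h => absurd h hζ⟩
    have h1 : ∀ p : Finset Ordinal.{0}, ∃ θ : Ordinal.{0}, (p : Set Ordinal.{0}) ⊆ Iio ζ →
        (θ < ω_ 2 ∧ ∀ θ', θ ≤ θ' → Q p ζ θ') := by
      intro p
      by_cases hp : (p : Set Ordinal.{0}) ⊆ Iio ζ
      · obtain ⟨θ, h1, h2⟩ := hQ p ζ hζ (fun a ha => lt_trans (hp ha) hζ)
        exact ⟨θ, fun _ => ⟨h1, h2⟩⟩
      · exact ⟨0, fun h => absurd h hp⟩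
    choose f hf using h1
    obtain ⟨θ, h2, h3⟩ := bdd2 (mk_finsets_le hζ) f (fun p hp => (hf p hp).1)
    refine ⟨max θ (ζ + 1), fun _ => ⟨max_lt h2 (succ_lt_w2 hζ),
      (lt_add_one' ζ).trans_le (le_max_right _ _), fun p hp => ?_⟩⟩
    exact (hf p hp).2 _ ((h3 p hp).le.trans (le_max_left _ _))
  choose s hs using step
  let δ : ℕ → Ordinal.{0} := fun n => s^[n] d
  have hsucc : ∀ n, δ (n + 1) = s (δ n) := fun n => Function.iterate_succ_apply' s n d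
  have hlt : ∀ n, δ n < ω_ 2 := by
    intro n
    induction n with
    | zero => exact hd
    | succ n ih => rw [hsucc]; exact (hs _ ih).1
  have hinc : ∀ n, δ n < δ (n + 1) := fun n => by rw [hsucc]; exact (hs _ (hlt n)).2.1
  refine ⟨δ, ⨆ n, δ n, ?_, rfl, fun n => (hinc n).trans_le (Ordinal.le_iSup δ (n + 1)), hinc,
    fun η hη => Ordinal.lt_iSup_iff.1 hη, fun n p hp => ?_⟩
  · obtain ⟨D, h1, h2⟩ := bdd2_fam (ι := ℕ) (by simp) δ hlt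
    exact (Ordinal.iSup_le fun n => (h2 n).le).trans_lt h1
  · rw [hsucc]; exact (hs _ (hlt n)).2.2 p hp

end Pool.Agent.H97Z.TP
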