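import Pool.Agent.H97Z.TPBasic

set_option autoImplicit false

open Cardinal Ordinal Set

namespace Pool.Agent.H97Z.TP

abbrev O : Type 1 := Ordinal.{0}

def Good (A : Set O) (G : Finset O → Set O) : Prop :=
  ∀ e : Finset O, (e : Set O) ⊆ A → G e ⊆ A ∧ (G e).Countable

def Cl (G : Finset O → Set O) (x : Set O) : Prop :=
  ∀ e : Finset O, (e : Set O) ⊆ x → G e ⊆ x

def Stat (A : Set O) (S : Set (Set O)) : Prop :=
  ∀ G : Finset O → Set O, Good A G → ∃ x ∈ S, x ⊆ A ∧ x.Countable ∧ Cl G x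

theorem Good.union {A : Set O} {G H : Finset O → Set O} (hG : Good A G) (hH : Good A H) :
    Good A (fun e => G e ∪ H e) := fun e he =>
  ⟨union_subset (hG e he).1 (hH e he).1, (hG e he).2.union (hH e he).2⟩

theorem Cl.left {G H : Finset O → Set O} {x : Set O} (h : Cl (fun e => G e ∪ H e) x) : Cl G x :=
  fun e he => subset_union_left.trans (h e he)

theorem Cl.right {G H : Finset O → Set O} {x : Set O} (h : Cl (fun e => G e ∪ H e) x) : Cl H x :=
  fun e he => subset_union_right.trans (h e he)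

theorem finset_subset_iUnion {f : ℕ → Set O} (hf : Monotone f) (e : Finset O)
    (he : (e : Set O) ⊆ ⋃ n, f n) : ∃ n, (e : Set O) ⊆ f n := by
  classical
  induction e using Finset.induction_on with
  | empty => exact ⟨0, by simp⟩
  | insert a s _ ih =>
    rw [Finset.coe_insert, insert_subset_iff] at he
    obtain ⟨n, hn⟩ := ih he.2
    obtain ⟨m, hm⟩ := mem_iUnion.1 he.1
    refine ⟨max n m, ?_⟩
    rw [Finset.coe_insert, insert_subset_iff]
    exact ⟨hf (le_max_right _ _) hm, hn.trans (hf (le_max_left _ _))⟩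

theorem finset_subset_sUnion {c : Set (Set O)} (hne : c.Nonempty) (hc : IsChain (· ⊆ ·) c)
    (e : Finset O) (he : (e : Set O) ⊆ ⋃₀ c) : ∃ y ∈ c, (e : Set O) ⊆ y := by
  classical
  induction e using Finset.induction_on with
  | empty => obtain ⟨y, hy⟩ := hne; exact ⟨y, hy, by simp⟩
  | insert a s _ ih =>
    rw [Finset.coe_insert, insert_subset_iff] at he
    obtain ⟨y, hy, hn⟩ := ih he.2
    obtain ⟨z, hz, hm⟩ := he.1
    rcases hc.total hy hz with h | h
    · refine ⟨z, hz, ?_⟩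
      rw [Finset.coe_insert, insert_subset_iff]
      exact ⟨hm, hn.trans h⟩
    · refine ⟨y, hy, ?_⟩
      rw [Finset.coe_insert, insert_subset_iff]
      exact ⟨h hm, hn⟩

theorem Cl.iUnion {G : Finset O → Set O} {f : ℕ → Set O} (hf : Monotone f)
    (h : ∀ n, Cl G (f n)) : Cl G (⋃ n, f n) := by
  intro e he
  obtain ⟨n, hn⟩ := finset_subset_iUnion hf e he
  exact (h n e hn).trans (subset_iUnion f n)

theorem exists_closed {A : Set O} {G : Finset O → Set O} (hG : Good A G) {a : Set O}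
    (ha : a ⊆ A) (hc : a.Countable) : ∃ y, a ⊆ y ∧ y ⊆ A ∧ y.Countable ∧ Cl G y := by
  let st : Set O → Set O := fun y => y ∪ ⋃ e ∈ {e : Finset O | (e : Set O) ⊆ y}, G e
  have hst : ∀ y, y ⊆ A → y.Countable → st y ⊆ A ∧ (st y).Countable := by
    intro y h1 h2
    refine ⟨union_subset h1 (iUnion₂_subset fun e he => (hG e (he.trans h1)).1), h2.union ?_⟩
    exact (countable_finsets h2).biUnion fun e he => (hG e (he.trans h1)).2
  let f : ℕ → Set O := fun n => st^[n] a
  have hs : ∀ n, f (n + 1) = st (f n) := fun n => Function.iterate_succ_apply' st n a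
  have hf : ∀ n, f n ⊆ A ∧ (f n).Countable := by
    intro n
    induction n with
    | zero => exact ⟨ha, hc⟩
    | succ n ih => rw [hs]; exact hst _ ih.1 ih.2
  have hm : Monotone f := monotone_nat_of_le_succ fun n => by
    rw [hs]; exact subset_union_left
  refine ⟨⋃ n, f n, subset_iUnion f 0, iUnion_subset fun n => (hf n).1,
    countable_iUnion fun n => (hf n).2, fun e he => ?_⟩
  obtain ⟨n, hn⟩ := finset_subset_iUnion hm e he
  refine subset_trans ?_ (subset_iUnion f (n + 1))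
  rw [hs]
  exact (subset_biUnion_of_mem (u := fun e => G e) (s := {e : Finset O | (e : Set O) ⊆ f n})
    hn).trans subset_union_right

theorem club_of_good {A : Set O} {G : Finset O → Set O} (hG : Good A G) :
    IsClubIn A {x | x ⊆ A ∧ x.Countable ∧ Cl G x} := by
  refine ⟨fun x hx => ⟨hx.1, hx.2.1⟩, fun c hc hne hcc hch => ⟨?_, ?_, ?_⟩, fun x hx => ?_⟩
  · exact sUnion_subset fun y hy => (hc hy).1
  · exact hcc.sUnion fun y hy => (hc hy).2.1
  · intro e he
    obtain ⟨y, hy, h⟩ := finset_subset_sUnion hne hch e he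
    exact ((hc hy).2.2 e h).trans (subset_sUnion_of_mem hy)
  · obtain ⟨y, h1, h2, h3, h4⟩ := exists_closed hG hx.1 hx.2
    exact ⟨y, ⟨h2, h3, h4⟩, h1⟩

noncomputable def kF (h : Set O → Set O) (e : Finset O) : Set O :=
  h ((e : Set O) ∪ ⋃ (e' : Finset O) (_ : e' ⊂ e), kF h e')
termination_by e.card
decreasing_by exact Finset.card_lt_card ‹_›

theorem good_of_club {A : Set O} {C : Set (Set O)} (hC : IsClubIn A C) :
    ∃ G : Finset O → Set O, Good A G ∧ ∀ x, x ⊆ A → x.Countable → Cl G x → x ∈ C := by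
  classical
  obtain ⟨h1, h2, h3⟩ := hC
  choose! h hh1 hh2 using h3
  have key : ∀ e : Finset O, (e : Set O) ⊆ A → kF h e ∈ C ∧
      ((e : Set O) ∪ ⋃ (e' : Finset O) (_ : e' ⊂ e), kF h e') ⊆ kF h e := by
    intro e
    induction e using Finset.strongInduction with
    | H e ih =>
      intro he
      have hm : ((e : Set O) ∪ ⋃ (e' : Finset O) (_ : e' ⊂ e), kF h e') ∈ Ctbl A := by
        have hs : ∀ e' : Finset O, e' ⊂ e → kF h e' ∈ Ctbl A := fun e' he' =>
          h1 (ih e' he' ((Finset.coe_subset.2 he'.subset).trans he)).1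
        refine ⟨union_subset he (iUnion₂_subset fun e' he' => (hs e' he').1),
          e.countable_toSet.union ?_⟩
        have hcf : {e' : Finset O | e' ⊂ e}.Countable :=
          (countable_finsets e.countable_toSet).mono fun e' he' =>
            Finset.coe_subset.2 (show e' ⊂ e from he').subset
        exact hcf.biUnion fun e' he' => (hs e' he').2
      rw [kF]
      exact ⟨hh1 _ hm, hh2 _ hm⟩
  have hmono : ∀ e e' : Finset O, (e : Set O) ⊆ A → e' ⊆ e → kF h e' ⊆ kF h e := by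
    intro e e' he hsub
    rcases eq_or_ne e' e with rfl | hne
    · exact subset_rfl
    · refine subset_trans ?_ (key e he).2
      exact (subset_iUnion₂ (s := fun (e' : Finset O) (_ : e' ⊂ e) => kF h e') e'
        (Finset.ssubset_iff_subset_ne.2 ⟨hsub, hne⟩)).trans subset_union_right
  refine ⟨kF h, fun e he => h1 (key e he).1, fun x hx hxc hcl => ?_⟩
  rcases x.eq_empty_or_nonempty with rfl | hne
  · have := hcl ∅ (by simp)
    have h4 := (key ∅ (by simp)).1
    rwa [subset_empty_iff.1 this] at h4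
  · obtain ⟨f, rfl⟩ := hxc.exists_eq_range hne
    let e : ℕ → Finset O := fun n => (Finset.range n).image f
    have he : ∀ n, (e n : Set O) ⊆ range f := fun n => by
      simp only [e, Finset.coe_image]
      exact image_subset_range _ _
    have hem : ∀ n m, n ≤ m → e n ⊆ e m := fun n m h =>
      Finset.image_subset_image (Finset.range_mono h)
    have := h2 (range fun n => kF h (e n)) (by
      rintro _ ⟨n, rfl⟩
      exact (key _ ((he n).trans hx)).1) (range_nonempty _) (countable_range _) (by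
      rintro _ ⟨n, rfl⟩ _ ⟨m, rfl⟩ -
      rcases le_total n m with h | h
      · exact Or.inl (hmono _ _ ((he m).trans hx) (hem _ _ h))
      · exact Or.inr (hmono _ _ ((he n).trans hx) (hem _ _ h)))
    convert this using 1
    apply subset_antisymm
    · rintro _ ⟨n, rfl⟩
      refine ⟨_, ⟨n + 1, rfl⟩, (key _ ((he _).trans hx)).2 (Or.inl ?_)⟩
      simp only [e, Finset.coe_image]
      exact ⟨n, by simp, rfl⟩
    · rintro a ⟨_, ⟨n, rfl⟩, ha⟩
      exact hcl _ (he n) ha

theorem stat_of_stationary {A : Set O} {S : Set (Set O)} (h : IsStationaryIn A S) :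
    Stat A S := by
  intro G hG
  obtain ⟨x, h1, h2⟩ := h.2 _ (club_of_good hG)
  exact ⟨x, h1, h2⟩

theorem stationary_of_stat {A : Set O} {S : Set (Set O)} (hS : S ⊆ Ctbl A) (h : Stat A S) :
    IsStationaryIn A S := by
  refine ⟨hS, fun C hC => ?_⟩
  obtain ⟨G, h1, h2⟩ := good_of_club hC
  obtain ⟨x, hx, h3, h4, h5⟩ := h G h1
  exact ⟨x, hx, h2 x h3 h4 h5⟩

theorem Stat.mono {A : Set O} {S S' : Set (Set O)} (h : Stat A S) (hS : S ⊆ S') : Stat A S' := by
  intro G hG
  obtain ⟨x, h1, h2⟩ := h G hG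
  exact ⟨x, hS h1, h2⟩

theorem Stat.cofinal {A : Set O} {S : Set (Set O)} (h : Stat A S) {a : Set O} (ha : a ⊆ A)
    (hc : a.Countable) : ∃ x ∈ S, a ⊆ x ∧ x ⊆ A := by
  obtain ⟨x, h1, h2, -, h3⟩ := h (fun _ => a) (fun _ _ => ⟨ha, hc⟩)
  exact ⟨x, h1, h3 ∅ (by simp), h2⟩

/-- reflection to ordinals -/
def OrdRefl : Prop :=
  ∀ S : Set (Set O), Stat (Iio (ω_ 2)) S → ∃ α : O, ω₁ ≤ α ∧ α < ω_ 2 ∧ Stat (Iio α) S

theorem ordRefl_of_reflection (hR : Reflection) : OrdRefl := by
  classical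
  intro S hS
  by_contra hno
  push Not at hno
  have h0 : ∀ α : O, ∃ G : Finset O → Set O, (ω₁ ≤ α → α < ω_ 2 → Good (Iio α) G ∧
      ∀ x ∈ S, x ⊆ Iio α → x.Countable → ¬ Cl G x) := by
    intro α
    by_cases h : ω₁ ≤ α ∧ α < ω_ 2
    · have := hno α h.1 h.2
      unfold Stat at this
      push Not at this
      obtain ⟨G, h1, h2⟩ := this
      exact ⟨G, fun _ _ => ⟨h1, h2⟩⟩
    · exact ⟨fun _ => ∅, fun h1 h2 => absurd ⟨h1, h2⟩ h⟩
  choose GG hGG using h0
  obtain ⟨J, hJ1, hJ2⟩ := exists_J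
  let G1 : Finset O → Set O := fun e =>
    ⋃ α ∈ {α : O | α ∈ e ∧ ω₁ ≤ α}, ⋃ e' ∈ {e' : Finset O | (e' : Set O) ⊆ e ∩ Iio α}, GG α e'
  let G2 : Finset O → Set O := fun e => ⋃ ξ ∈ {ξ : O | ξ ∈ e ∧ ξ < ω₁}, Iio ξ
  let G3 : Finset O → Set O := fun e => ⋃ α ∈ (e : Set O), {η | η < α ∧ J α η ∈ e}
  let G4 : Finset O → Set O := fun e => image2 J e e ∪ {ω₁}
  have g1 : Good (Iio (ω_ 2)) G1 := by
    intro e he
    have hc : {α : O | α ∈ e ∧ ω₁ ≤ α}.Countable := e.countable_toSet.mono fun α h => h.1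
    constructor
    · refine iUnion₂_subset fun α hα => iUnion₂_subset fun e' he' => ?_
      exact ((hGG α hα.2 (he hα.1)).1 e' (he'.trans inter_subset_right)).1.trans
        (Iio_subset_Iio (le_of_lt (he hα.1)))
    · refine hc.biUnion fun α hα => ?_
      refine (countable_finsets (e.countable_toSet.mono inter_subset_left)).biUnion
        fun e' he' => ?_
      exact ((hGG α hα.2 (he hα.1)).1 e' (he'.trans inter_subset_right)).2
  have g2 : Good (Iio (ω_ 2)) G2 := by
    intro e he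
    have hc : {α : O | α ∈ e ∧ α < ω₁}.Countable := e.countable_toSet.mono fun α h => h.1
    exact ⟨iUnion₂_subset fun ξ hξ => Iio_subset_Iio (le_of_lt (he hξ.1)),
      hc.biUnion fun ξ hξ => countable_Iio hξ.2⟩
  have g3 : Good (Iio (ω_ 2)) G3 := by
    intro e he
    refine ⟨iUnion₂_subset fun α hα η hη => lt_trans hη.1 (he hα),
      e.countable_toSet.biUnion fun α hα => ?_⟩
    exact MapsTo.countable_of_injOn (f := J α) (t := (e : Set O)) (fun η hη => hη.2)
      ((hJ2 α (he hα)).mono fun η hη => hη.1) e.countable_toSet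
  have g4 : Good (Iio (ω_ 2)) G4 := by
    intro e _
    refine ⟨union_subset ?_ (singleton_subset_iff.2 w1_lt_w2),
      (e.countable_toSet.image2 e.countable_toSet J).union (countable_singleton _)⟩
    rintro _ ⟨a, -, b, -, rfl⟩
    exact (hJ1 a b).trans w1_lt_w2
  let S' : Set (Set O) := {x | x ∈ S ∧ x ⊆ Iio (ω_ 2) ∧ x.Countable ∧
    Cl G1 x ∧ Cl G2 x ∧ Cl G3 x ∧ Cl G4 x}
  have hS' : Stat (Iio (ω_ 2)) S' := by
    intro G hG
    obtain ⟨x, h1, h2, h3, h4⟩ := hS _ (hG.union (g1.union (g2.union (g3.union g4))))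
    exact ⟨x, ⟨h1, h2, h3, h4.right.left, h4.right.right.left, h4.right.right.right.left,
      h4.right.right.right.right⟩, h2, h3, h4.left⟩
  obtain ⟨W, hW1, hW2, hW3⟩ := hR S' (stationary_of_stat (fun x hx => ⟨hx.2.1, hx.2.2.1⟩) hS')
  have hW : Stat W S' := (stat_of_stationary hW3).mono inter_subset_left
  have c2 : ∀ x ∈ S', ∀ ξ ∈ x, ξ < ω₁ → ∀ ζ < ξ, ζ ∈ x := by
    intro x hx ξ hξ h1 ζ hζ
    refine hx.2.2.2.2.1 {ξ} (by simpa using hξ) ?_
    exact mem_iUnion₂.2 ⟨ξ, ⟨by simp, h1⟩, hζ⟩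
  have c3 : ∀ x ∈ S', ∀ α ∈ x, ∀ η < α, J α η ∈ x → η ∈ x := by
    intro x hx α hα η hη hJ
    refine hx.2.2.2.2.2.1 {α, J α η} (by simp [insert_subset_iff, hα, hJ]) ?_
    exact mem_iUnion₂.2 ⟨α, by simp, hη, by simp⟩
  have c4 : ∀ x ∈ S', ∀ α ∈ x, ∀ η ∈ x, J α η ∈ x := by
    intro x hx α hα η hη
    refine hx.2.2.2.2.2.2 {α, η} (by simp [insert_subset_iff, hα, hη]) ?_
    exact Or.inl ⟨α, by simp, η, by simp, rfl⟩
  have c5 : ∀ x ∈ S', ω₁ ∈ x := fun x hx =>
    hx.2.2.2.2.2.2 ∅ (by simp) (Or.inr rfl)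
  have pair : ∀ a ∈ W, ∀ b ∈ W, ∃ x ∈ S', a ∈ x ∧ b ∈ x ∧ x ⊆ W := by
    intro a ha b hb
    obtain ⟨x, h1, h2, h3⟩ := hW.cofinal (a := {a, b}) (by simp [insert_subset_iff, ha, hb])
      (Set.toFinite _).countable
    exact ⟨x, h1, h2 (by simp), h2 (by simp), h3⟩
  by_cases hA : ∀ ξ < ω₁, ξ ∈ W
  · have hinit : ∀ α ∈ W, ∀ η < α, η ∈ W := by
      intro α hα η hη
      obtain ⟨x, h1, h2, h3, h4⟩ := pair α hα _ (hA _ (hJ1 α η))
      exact h4 (c3 x h1 α h2 η hη h3)
    obtain ⟨θ, hθ1, hθ2⟩ := bdd2 hW2.le id hW1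
    have hne : (Wᶜ).Nonempty := ⟨θ, fun h => lt_irrefl _ (hθ2 θ h)⟩
    set α := sInf (Wᶜ) with hα
    have hα1 : α ∉ W := csInf_mem hne
    have hα2 : ∀ η < α, η ∈ W := fun η hη => by
      by_contra h
      exact absurd (csInf_le' (show η ∈ Wᶜ from h)) (not_le.2 hη)
    have hWα : W = Iio α := by
      ext η
      refine ⟨fun h => ?_, hα2 η⟩
      rcases lt_trichotomy η α with h' | h' | h'
      · exact h'
      · exact absurd (h' ▸ h) hα1
      · exact absurd (hinit η h α h') hα1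
    refine hno α ?_ ?_ ?_
    · by_contra h
      exact hα1 (hA α (not_le.1 h))
    · exact lt_of_le_of_lt (csInf_le' (show θ ∈ Wᶜ from fun h => lt_irrefl _ (hθ2 θ h))) hθ1
    · rw [← hWα]
      exact hW.mono fun x hx => hx.1
  · push Not at hA
    obtain ⟨ξ₀, hξ₀, hξW⟩ := hA
    have hb : ∀ ζ ∈ W, ζ < ω₁ → ζ < ξ₀ := by
      intro ζ hζ h1
      rcases lt_trichotomy ζ ξ₀ with h | h | h
      · exact h
      · exact absurd (h ▸ hζ) hξW
      · obtain ⟨x, h2, h3, -, h4⟩ := pair ζ hζ ζ hζ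
        exact absurd (h4 (c2 x h2 ζ h3 h1 ξ₀ h)) hξW
    have hcnt : ∀ α ∈ W, (W ∩ Iio α).Countable := by
      intro α hα
      refine MapsTo.countable_of_injOn (f := J α) (t := Iio ξ₀) (fun η hη => ?_)
        ((hJ2 α (hW1 hα)).mono inter_subset_right) (countable_Iio hξ₀)
      obtain ⟨x, h2, h3, h4, h5⟩ := pair α hα η hη.1
      exact hb _ (h5 (c4 x h2 α h3 η h4)) (hJ1 _ _)
    obtain ⟨x, hx, hxW, hxc, hxcl⟩ := hW (fun e => ⋃ α ∈ (e : Set O), W ∩ Iio α) (fun e he =>
      ⟨iUnion₂_subset fun α _ => inter_subset_left,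
        e.countable_toSet.biUnion fun α hα => hcnt α (he hα)⟩)
    have hne : (W \ x).Nonempty := by
      by_contra h
      rw [not_nonempty_iff_eq_empty, Set.sdiff_eq_empty] at h
      have := le_aleph0_iff_set_countable.2 (hxc.mono h)
      rw [hW2] at this
      exact absurd this (not_le.2 aleph0_lt_aleph_one)
    set α := sInf (W \ x) with hα
    have hα1 : α ∈ W \ x := csInf_mem hne
    have hα2 : ∀ η ∈ W, η < α → η ∈ x := fun η h1 hη => by
      by_contra h
      exact absurd (csInf_le' (show η ∈ W \ x from ⟨h1, h⟩)) (not_le.2 hη)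
    have hxα : x ⊆ Iio α := by
      intro β hβ
      rcases lt_trichotomy β α with h | h | h
      · exact h
      · exact absurd (h ▸ hβ) hα1.2
      · refine absurd (hxcl {β} (by simpa using hβ) ?_) hα1.2
        exact mem_iUnion₂.2 ⟨β, by simp, hα1.1, h⟩
    obtain ⟨y, hy, hxy, hyW⟩ := hW.cofinal (a := insert α x) (insert_subset hα1.1 hxW)
      (hxc.insert α)
    have hw : ω₁ ≤ α := le_of_lt (hxα (c5 x hx))
    refine (hGG α hw (hW1 hα1.1)).2 x hx.1 hxα hxc fun e he η hη => ?_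
    have h1 : η < α := ((hGG α hw (hW1 hα1.1)).1 e (he.trans hxα)).1 hη
    refine hα2 η (hyW (hy.2.2.2.1 (insert α e) ?_ ?_)) h1
    · rw [Finset.coe_insert]
      exact (insert_subset_insert he).trans hxy
    · refine mem_iUnion₂.2 ⟨α, ⟨by simp, hw⟩, mem_iUnion₂.2 ⟨e, ?_, hη⟩⟩
      exact subset_inter (by rw [Finset.coe_insert]; exact subset_insert _ _) (he.trans hxα)

end Pool.Agent.H97Z.TP
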