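import Mathlib

set_option autoImplicit false

open Cardinal Ordinal Set

namespace Pool.Agent.H97Z.TP

/-- `[A]^ω`: the countable subsets of the set of ordinals `A`. -/
def Ctbl (A : Set Ordinal.{0}) : Set (Set Ordinal.{0}) := {x | x ⊆ A ∧ x.Countable}

/-- `C` is a club in `[A]^ω`: it is closed under unions of (nonempty) countable chains and is
cofinal under inclusion. -/
def IsClubIn (A : Set Ordinal.{0}) (C : Set (Set Ordinal.{0})) : Prop :=
  C ⊆ Ctbl A ∧
    (∀ c : Set (Set Ordinal.{0}), c ⊆ C → c.Nonempty → c.Countable → IsChain (· ⊆ ·) c →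
      ⋃₀ c ∈ C) ∧
    ∀ x ∈ Ctbl A, ∃ y ∈ C, x ⊆ y

/-- `S` is a stationary subset of `[A]^ω`: it meets every club of `[A]^ω`. -/
def IsStationaryIn (A : Set Ordinal.{0}) (S : Set (Set Ordinal.{0})) : Prop :=
  S ⊆ Ctbl A ∧ ∀ C : Set (Set Ordinal.{0}), IsClubIn A C → (S ∩ C).Nonempty

/-- Every stationary subset of `[ω₂]^ω` reflects to a set of size `ω₁`. -/
def Reflection : Prop :=
  ∀ S : Set (Set Ordinal.{0}), IsStationaryIn (Iio (ω_ 2)) S →
    ∃ W : Set Ordinal.{0}, W ⊆ Iio (ω_ 2) ∧ #W = ℵ₁ ∧ IsStationaryIn W (S ∩ Ctbl W)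

/-- A tree: a partial order in which the set of predecessors of each node is well ordered. -/
def IsTree (T : Type) [PartialOrder T] : Prop :=
  ∀ t : T, IsWellOrder (Iio t) (· < ·)

/-- The height of a node: the order type of the set of its predecessors. -/
noncomputable def height {T : Type} [PartialOrder T] (h : IsTree T) (t : T) : Ordinal.{0} :=
  @Ordinal.type (Iio t) (· < ·) (h t)

/-- An `ω₂`-Aronszajn tree: its height is `ω₂` (the heights of its nodes are exactly the ordinals
below `ω₂`), all its levels have size `< ℵ₂`, and it has no branch of length `ω₂` (no chain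
meeting every level). -/
def IsAronszajn {T : Type} [PartialOrder T] (h : IsTree T) : Prop :=
  (∀ t : T, height h t < ω_ 2) ∧ (∀ β < ω_ 2, ∃ t : T, height h t = β) ∧
    (∀ β : Ordinal.{0}, #{t : T | height h t = β} < ℵ_ 2) ∧
    ¬ ∃ b : Set T, IsChain (· ≤ ·) b ∧ ∀ β < ω_ 2, ∃ t ∈ b, height h t = β

/-- The tree property at `ω₂`: there is no `ω₂`-Aronszajn tree. -/
def TreeProperty : Prop :=
  ∀ (T : Type) [PartialOrder T] (h : IsTree T), ¬ IsAronszajn h

end Pool.Agent.H97Z.TP
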