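import Pool.Agent.H97Z.TPClub

set_option autoImplicit false

open Cardinal Ordinal Set

namespace Pool.Agent.H97Z.TP

/-- well-founded strategies of the second player -/
inductive Strat : Type 1
  | stop : Strat
  | go : O → (O → Strat) → Strat

open Classical in
def Wins (good : Finset O → Prop) : Strat → Finset O → Prop
  | Strat.stop, p => ¬ good p
  | Strat.go η nx, p => η < ω_ 2 ∧ ∀ β, η < β → β < ω_ 2 → Wins good (nx β) (insert β p)

def Strat.eta : Strat → O
  | Strat.stop => 0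
  | Strat.go η _ => η

def Strat.next : Strat → O → Strat
  | Strat.stop, _ => Strat.stop
  | Strat.go _ nx, β => nx β

/-- closure of a finite set -/
def cl (G : Finset O → Set O) (a : Set O) : Set O := ⋂₀ {y | a ⊆ y ∧ Cl G y}

theorem subset_cl (G : Finset O → Set O) (a : Set O) : a ⊆ cl G a :=
  subset_sInter fun _ hy => hy.1

theorem cl_closed (G : Finset O → Set O) (a : Set O) : Cl G (cl G a) := fun e he =>
  subset_sInter fun _ hy => hy.2 e (he.trans (sInter_subset_of_mem hy))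

theorem cl_subset {G : Finset O → Set O} {a y : Set O} (h1 : a ⊆ y) (h2 : Cl G y) : cl G a ⊆ y :=
  sInter_subset_of_mem ⟨h1, h2⟩

theorem cl_mono (G : Finset O → Set O) {a b : Set O} (h : a ⊆ b) : cl G a ⊆ cl G b :=
  cl_subset (h.trans (subset_cl G b)) (cl_closed G b)

theorem cl_good {A : Set O} {G : Finset O → Set O} (hG : Good A G) {a : Set O}
    (ha : a ⊆ A) (hc : a.Countable) : cl G a ⊆ A ∧ (cl G a).Countable := by
  obtain ⟨y, h1, h2, h3, h4⟩ := exists_closed hG ha hc
  exact ⟨(cl_subset h1 h4).trans h2, h3.mono (cl_subset h1 h4)⟩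

open Classical in
/-- The game lemma: a tree of positions with unbounded branching along which the closure keeps
its trace on `ω₁` below a fixed countable ordinal. -/
theorem game {G : Finset O → Set O} (hG : Good (Iio (ω_ 2)) G) :
    ∃ γ < ω₁, ∃ P : Set (Finset O), ∅ ∈ P ∧
      (∀ p ∈ P, ∀ η < ω_ 2, ∃ β, η < β ∧ β < ω_ 2 ∧ insert β p ∈ P) ∧
      ∀ p ∈ P, ∀ ξ ∈ cl G p, ξ < ω₁ → ξ < γ := by
  let good : O → Finset O → Prop := fun γ p => ∀ ξ ∈ cl G p, ξ < ω₁ → ξ < γ
  by_cases h : ∃ γ < ω₁, ¬ ∃ s, Wins (good γ) s ∅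
  · obtain ⟨γ, h1, h2⟩ := h
    refine ⟨γ, h1, {p | ¬ ∃ s, Wins (good γ) s p}, h2, fun p hp η hη => ?_, fun p hp => ?_⟩
    · by_contra hno
      have h3 : ∀ β, ∃ s, η < β → β < ω_ 2 → Wins (good γ) s (insert β p) := by
        intro β
        by_cases hβ : η < β ∧ β < ω_ 2
        · by_contra h4
          refine hno ⟨β, hβ.1, hβ.2, ?_⟩
          rintro ⟨s, hs⟩
          exact h4 ⟨s, fun _ _ => hs⟩
        · exact ⟨Strat.stop, fun h1 h2 => absurd ⟨h1, h2⟩ hβ⟩
      choose nx hnx using h3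
      exact hp ⟨Strat.go η nx, hη, hnx⟩
    · by_contra hno
      exact hp ⟨Strat.stop, hno⟩
  · exfalso
    push Not at h
    have : Nonempty Strat := ⟨Strat.stop⟩
    choose! s hs using h
    have hb : ∀ σ : O → Strat, ∃ β, β < ω_ 2 ∧
        ((∀ γ < ω₁, (σ γ).eta < ω_ 2) → ∀ γ < ω₁, (σ γ).eta < β) := by
      intro σ
      by_cases hσ : ∀ γ < ω₁, (σ γ).eta < ω_ 2
      · obtain ⟨β, h1, h2⟩ := bdd2 (s := Iio (ω₁ : O)) mk_Iio_w1.le (fun γ => (σ γ).eta) hσ
        exact ⟨β, h1, fun _ => h2⟩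
      · exact ⟨0, w2_pos, fun h => absurd h hσ⟩
    choose bd hbd1 hbd2 using hb
    let st : (O → Strat) × Finset O → (O → Strat) × Finset O := fun z =>
      (fun γ => (z.1 γ).next (bd z.1), insert (bd z.1) z.2)
    let z : ℕ → (O → Strat) × Finset O := fun n => st^[n] (s, ∅)
    have hz : ∀ n, z (n + 1) = st (z n) := fun n => Function.iterate_succ_apply' st n _
    have hsub : ∀ n, ((z n).2 : Set O) ⊆ Iio (ω_ 2) := by
      intro n
      induction n with
      | zero => simp [z]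
      | succ n ih =>
        rw [hz]
        simp only [st, Finset.coe_insert]
        exact insert_subset (hbd1 _) ih
    let B : Set O := ⋃ n, ((z n).2 : Set O)
    have hB := cl_good hG (a := B) (iUnion_subset hsub)
      (countable_iUnion fun n => (z n).2.countable_toSet)
    obtain ⟨γ₀, hγ₀, hγ⟩ := bdd1 hB.2
    have hgood : ∀ n, good γ₀ (z n).2 := fun n ξ hξ =>
      hγ ξ (cl_mono G (subset_iUnion (fun n => ((z n).2 : Set O)) n) hξ)
    -- strategies stay either winning or stopped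
    have hinv : ∀ n, ∀ γ < ω₁, Wins (good γ) ((z n).1 γ) (z n).2 ∨ (z n).1 γ = Strat.stop := by
      intro n
      induction n with
      | zero => exact fun γ hγ => Or.inl (hs γ hγ)
      | succ n ih =>
        have heta : ∀ γ < ω₁, ((z n).1 γ).eta < ω_ 2 := by
          intro γ hγ
          rcases ih γ hγ with h | h
          · cases h' : (z n).1 γ with
            | stop => exact w2_pos
            | go η nx => rw [h'] at h; exact h.1
          · rw [h]; exact w2_pos
        intro γ hγ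
        rw [hz]
        simp only [st]
        cases h' : (z n).1 γ with
        | stop => exact Or.inr rfl
        | go η nx =>
          rcases ih γ hγ with h | h
          · rw [h'] at h
            refine Or.inl (h.2 _ ?_ (hbd1 _))
            have := hbd2 _ heta γ hγ
            rwa [h'] at this
          · rw [h'] at h; cases h
    have heta : ∀ n, ∀ γ < ω₁, ((z n).1 γ).eta < ω_ 2 := by
      intro n γ hγ
      rcases hinv n γ hγ with h | h
      · cases h' : (z n).1 γ with
        | stop => exact w2_pos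
        | go η nx => rw [h'] at h; exact h.1
      · rw [h]; exact w2_pos
    have fin : ∀ t : Strat, ∀ n, (z n).1 γ₀ = t → ¬ Wins (good γ₀) t (z n).2 := by
      intro t
      induction t with
      | stop => exact fun n _ h => h (hgood n)
      | go η nx ih =>
        intro n h1 h2
        refine ih (bd (z n).1) (n + 1) ?_ ?_
        · rw [hz]
          simp only [st, h1]
          rfl
        · rw [hz]
          refine h2.2 _ ?_ (hbd1 _)
          have := hbd2 _ (heta n) γ₀ hγ₀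
          rwa [h1] at this
    exact fin _ 0 rfl (hs γ₀ hγ₀)

/-- `δ` is the least strict upper bound of `x` -/
def SS (x : Set O) (δ : O) : Prop := (∀ β ∈ x, β < δ) ∧ ∀ η < δ, ∃ β ∈ x, η ≤ β

theorem SS.le {x : Set O} {δ α : O} (h : SS x δ) (hx : x ⊆ Iio α) : δ ≤ α := by
  by_contra hlt
  obtain ⟨β, h1, h2⟩ := h.2 α (not_le.1 hlt)
  exact absurd (hx h1) (not_lt.2 h2)

open Classical in
/-- The outcome of a play. -/
theorem play {G : Finset O → Set O} (hG : Good (Iio (ω_ 2)) G) {γ : O} {P : Set (Finset O)}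
    (hP : ∀ p ∈ P, ∀ ξ ∈ cl G p, ξ < ω₁ → ξ < γ) {δ : ℕ → O} {D : O} (hD : D < ω_ 2)
    (h1 : ∀ n, δ n < D) (h3 : ∀ η < D, ∃ n, η < δ n)
    (h4 : ∀ n, ∀ p : Finset O, (p : Set O) ⊆ Iio (δ n) → cl G p ⊆ Iio (δ (n + 1)))
    (p : ℕ → Finset O) (β : ℕ → O) (hp : ∀ n, p n ∈ P) (hp1 : ∀ n, p (n + 1) = insert (β n) (p n))
    (hp2 : ∀ n, (p n : Set O) ⊆ Iio (δ n)) (hβ : ∀ n, δ n ≤ β n) :
    ∃ x : Set O, x ⊆ Iio (ω_ 2) ∧ x.Countable ∧ Cl G x ∧ SS x D ∧ (∀ n, (p n : Set O) ⊆ x) ∧
      ∀ ξ ∈ x, ξ < ω₁ → ξ < γ := by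
  have hm : Monotone fun n => cl G (p n) := monotone_nat_of_le_succ fun n => by
    refine cl_mono G ?_
    rw [hp1, Finset.coe_insert]
    exact subset_insert _ _
  have hlt : ∀ b ∈ ⋃ n, cl G (p n), b < D := by
    intro b hb
    obtain ⟨n, hn⟩ := mem_iUnion.1 hb
    exact lt_trans (h4 n _ (hp2 n) hn) (h1 _)
  have hsub : ∀ n, (p n : Set O) ⊆ ⋃ n, cl G (p n) := fun n =>
    (subset_cl G _).trans (subset_iUnion (fun n => cl G (p n)) n)
  refine ⟨⋃ n, cl G (p n), fun b hb => (hlt b hb).trans hD, countable_iUnion fun n => ?_,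
    Cl.iUnion hm fun n => cl_closed G _, ⟨hlt, fun η hη => ?_⟩, hsub, fun ξ hξ => ?_⟩
  · exact (cl_good hG (fun b hb => lt_trans (lt_trans (hp2 n hb) (h1 n)) hD)
      (p n).countable_toSet).2
  · obtain ⟨n, hn⟩ := h3 η hη
    refine ⟨β n, hsub (n + 1) ?_, hn.le.trans (hβ n)⟩
    rw [hp1]
    simp
  · obtain ⟨n, hn⟩ := mem_iUnion.1 hξ
    exact hP _ (hp n) ξ hn

end Pool.Agent.H97Z.TP
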