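import Pool.Agent.H97Z.TPTree

set_option autoImplicit false

open Cardinal Ordinal Set

namespace Pool.Agent.H97Z.TP

variable {T : Type} [PartialOrder T] {ht I : T → O}

theorem cl_bound {G : Finset O → Set O} (hG : Good (Iio (ω_ 2)) G) (p : Finset O)
    (hp : (p : Set O) ⊆ Iio (ω_ 2)) : ∃ θ < ω_ 2, cl G p ⊆ Iio θ := by
  obtain ⟨h1, h2⟩ := cl_good hG hp p.countable_toSet
  exact bdd2_ctbl h2 h1

/-- Under reflection, an unbounded family of countable subsets of levels of an `ω₂`-Aronszajn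
tree has two members that are totally incomparable. -/
theorem TD.narrow (h : TD T ht I) (hR : OrdRefl) (A : Set O)
    (hA : ∀ η < ω_ 2, ∃ β, η < β ∧ β < ω_ 2 ∧ β ∈ A) (K : O → Set T)
    (hK1 : ∀ β, (K β).Countable) (hK2 : ∀ β, ∀ u ∈ K β, ht u = β) :
    ∃ β₀ ∈ A, ∃ β₁ ∈ A, β₀ < β₁ ∧ β₁ < ω_ 2 ∧ ∀ u ∈ K β₀, ∀ v ∈ K β₁, ¬ u ≤ v := by
  classical
  by_contra hno
  push Not at hno
  choose! nx hnx1 hnx2 hnx3 using hA
  obtain ⟨J, hJ1, hJ2⟩ := exists_J
  let S : Set (Set O) := {x | (∀ β ∈ x, nx β ∈ x) ∧ ∃ δ, SS x δ ∧ (∃ β ∈ x, J δ β ∉ x) ∧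
    ∀ v ∈ K (nx δ), ¬ Cap ht I x v}
  have hS : Stat (Iio (ω_ 2)) S := by
    intro G0 hG0
    have hG1 : Good (Iio (ω_ 2)) (fun e => nx '' (e : Set O)) := by
      intro e he
      refine ⟨?_, e.countable_toSet.image nx⟩
      rintro _ ⟨a, ha, rfl⟩
      exact hnx2 a (he ha)
    have hG := hG0.union hG1
    set G : Finset O → Set O := fun e => G0 e ∪ nx '' (e : Set O) with hGdef
    obtain ⟨γ, hγ, P, hP0, hP1, hP2⟩ := game hG
    obtain ⟨d, hd1, hd2⟩ := unbdd_uncountable {β | insert β ∅ ∈ P} (hP1 ∅ hP0)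
    obtain ⟨δ, D, hD, hδ0, hδ1, hδ2, hδ3, hδ4⟩ := closure_seq
      (fun p ζ θ => cl G p ⊆ Iio θ ∧ (p ∈ P → ∀ t, θ ≤ ht t →
        ∃ u, u ≤ t ∧ insert (ht u) p ∈ P ∧ ζ < ht u ∧ ht u < θ ∧ γ ≤ I u)) (by
      intro p ζ hζ hp
      obtain ⟨θ₁, h1, h2⟩ := cl_bound hG p hp
      by_cases hpP : p ∈ P
      · obtain ⟨θ₂, h3, h4⟩ := h.escape hγ {β | insert β p ∈ P} (hP1 p hpP) ζ hζ
        refine ⟨max θ₁ (θ₂ + 1), max_lt h1 (succ_lt_w2 h3), fun θ' hθ' =>
          ⟨h2.trans (Iio_subset_Iio ((le_max_left _ _).trans hθ')), fun _ t ht' => ?_⟩⟩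
        have h5 : θ₂ < θ' := (lt_add_one' θ₂).trans_le ((le_max_right _ _).trans hθ')
        obtain ⟨u, h6, h7, h8, h9, h10⟩ := h4 t (h5.le.trans ht')
        exact ⟨u, h6, h7, h8, h9.trans_lt h5, h10⟩
      · exact ⟨θ₁, h1, fun θ' hθ' =>
          ⟨h2.trans (Iio_subset_Iio hθ'), fun h' => absurd h' hpP⟩⟩) d hd1
    have hdD : d < D := hδ0 ▸ hδ1 0
    obtain ⟨β₀, hβ₀, hβ₀d, hβ₀J⟩ : ∃ β₀, insert β₀ ∅ ∈ P ∧ β₀ < d ∧ γ ≤ J D β₀ := by
      by_contra hc
      push Not at hc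
      refine hd2 (MapsTo.countable_of_injOn (f := J D) (t := Iio γ)
        (fun β hβ => hc β hβ.1 hβ.2) ((hJ2 D hD).mono fun β hβ => lt_trans hβ.2 hdD)
        (countable_Iio hγ))
    obtain ⟨t₀, ht₀⟩ := h.lev D hD
    obtain ⟨f, hf⟩ := ((hK1 (nx D)).insert t₀).exists_eq_range (insert_nonempty _ _)
    have hfD : ∀ n, D ≤ ht (f n) := by
      intro n
      have : f n ∈ insert t₀ (K (nx D)) := hf ▸ mem_range_self n
      rcases this with e | e
      · rw [e, ht₀]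
      · rw [hK2 _ _ e]; exact (hnx1 D hD).le
    have hstep : ∀ n, ∀ p : Finset O, ∃ u, p ∈ P → (p : Set O) ⊆ Iio (δ n) →
        (u ≤ f n ∧ insert (ht u) p ∈ P ∧ δ n < ht u ∧ ht u < δ (n + 1) ∧ γ ≤ I u) := by
      intro n p
      by_cases hp : p ∈ P ∧ (p : Set O) ⊆ Iio (δ n)
      · obtain ⟨u, hu⟩ := (hδ4 n p hp.2).2 hp.1 (f n) ((hδ1 _).le.trans (hfD n))
        exact ⟨u, fun _ _ => hu⟩
      · exact ⟨t₀, fun a b => absurd ⟨a, b⟩ hp⟩
    choose U hU using hstep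
    obtain ⟨p, hp0, hps⟩ : ∃ p : ℕ → Finset O, p 0 = insert β₀ ∅ ∧
        ∀ n, p (n + 1) = insert (ht (U n (p n))) (p n) :=
      ⟨fun n => Nat.rec (insert β₀ ∅) (fun n q => insert (ht (U n q)) q) n, rfl, fun n => rfl⟩
    have hp : ∀ n, p n ∈ P ∧ ((p n : Finset O) : Set O) ⊆ Iio (δ n) := by
      intro n
      induction n with
      | zero =>
        refine ⟨hp0 ▸ hβ₀, ?_⟩
        rw [hp0, hδ0]
        simpa using hβ₀d
      | succ n ih =>
        obtain ⟨-, h2, -, h4, -⟩ := hU n _ ih.1 ih.2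
        refine ⟨by rw [hps]; exact h2, ?_⟩
        rw [hps, Finset.coe_insert]
        exact insert_subset h4 (ih.2.trans (Iio_subset_Iio (hδ2 n).le))
    obtain ⟨x, hx1, hx2, hx3, hx4, hx5, hx6⟩ := play hG hP2 hD hδ1 hδ3
      (fun n q hq => (hδ4 n q hq).1) p (fun n => ht (U n (p n))) (fun n => (hp n).1) hps
      (fun n => (hp n).2) (fun n => (hU n _ (hp n).1 (hp n).2).2.2.1.le)
    refine ⟨x, ⟨fun β hβ => ?_, D, hx4, ⟨β₀, hx5 0 (by rw [hp0]; simp), fun hc => ?_⟩,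
      fun v hv hc => ?_⟩, hx1, hx2, hx3.left⟩
    · exact hx3.right {β} (by simpa using hβ) ⟨β, by simp, rfl⟩
    · exact absurd (hx6 _ hc (hJ1 _ _)) (not_lt.2 hβ₀J)
    · obtain ⟨n, hn⟩ : v ∈ range f := hf ▸ mem_insert_of_mem _ hv
      obtain ⟨h1, -, -, -, h5⟩ := hU n _ (hp n).1 (hp n).2
      have := hc (U n (p n)) (hn ▸ h1) (hx5 (n + 1) (by rw [hps]; simp))
      exact absurd (hx6 _ this (h.I1 _)) (not_lt.2 h5)
  obtain ⟨α, hα1, hα2, hα3⟩ := hR S hS
  have hcl : ∀ β < α, nx β < α := by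
    intro β hβ
    obtain ⟨x, h1, h2, h3⟩ := hα3.cofinal (a := {β}) (by simpa using hβ) (countable_singleton _)
    exact h3 (h1.1 β (h2 rfl))
  have hG1 : Good (Iio α) (fun e => J α '' (e : Set O)) := by
    intro e _
    refine ⟨?_, e.countable_toSet.image _⟩
    rintro _ ⟨a, -, rfl⟩
    exact (hJ1 _ _).trans_le hα1
  obtain ⟨x, ⟨-, δ, h1, ⟨β, h2, h3⟩, h4⟩, h5, -, h6⟩ :=
    hα3 _ (hG1.union (h.good_cap hα1 (hK1 (nx α))))
  rcases (h1.le h5).eq_or_lt with e | e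
  · exact h3 (h6.left {β} (by simpa using h2) ⟨β, by simp, by rw [e]⟩)
  · obtain ⟨u, hu, v, hv, huv⟩ := hno (nx δ) (hnx3 δ (e.trans hα2)) (nx α) (hnx3 α hα2)
      ((hcl δ e).trans (hnx1 α hα2)) (hnx2 α hα2)
    exact h4 u hu ((cap_of_cl h6.right hv).down huv)

theorem TD.ch (h : TD T ht I) (hR : OrdRefl) : Cardinal.continuum.{0} ≤ ℵ₁ := by
  classical
  by_contra hch
  let S : Set (Set O) := {x | ∃ δ, SS x δ ∧ ∀ t, ht t = δ → ¬ Cap ht I x t}
  have hS : Stat (Iio (ω_ 2)) S := by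
    intro G hG
    obtain ⟨γ, hγ, P, hP0, hP1, hP2⟩ := game hG
    let K : O → Set T := fun β => {t : T | ht t = β ∧ I t < γ}
    obtain ⟨δ, D, hD, hδ0, hδ1, hδ2, hδ3, hδ4⟩ := closure_seq
      (fun p ζ θ => cl G p ⊆ Iio θ ∧ (p ∈ P → ∃ β : Bool → O, (∀ i, insert (β i) p ∈ P ∧
        ζ < β i ∧ β i < θ) ∧ β false < β true ∧
        ∀ u ∈ K (β false), ∀ v ∈ K (β true), ¬ u ≤ v)) (by
      intro p ζ hζ hp
      obtain ⟨θ₁, h1, h2⟩ := cl_bound hG p hp
      by_cases hpP : p ∈ P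
      · obtain ⟨β₀, h3, β₁, h4, h5, h6, h7⟩ := h.narrow hR {β | insert β p ∈ P ∧ ζ < β} (by
          intro η hη
          obtain ⟨β, e1, e2, e3⟩ := hP1 p hpP (max η ζ) (max_lt hη hζ)
          exact ⟨β, (le_max_left _ _).trans_lt e1, e2, e3, (le_max_right _ _).trans_lt e1⟩)
          K (fun β => h.small_countable β hγ) (fun β u hu => hu.1)
        refine ⟨max θ₁ (β₁ + 1), max_lt h1 (succ_lt_w2 h6), fun θ' hθ' =>
          ⟨h2.trans (Iio_subset_Iio ((le_max_left _ _).trans hθ')), fun _ => ?_⟩⟩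
        have h8 : β₁ < θ' := (lt_add_one' β₁).trans_le ((le_max_right _ _).trans hθ')
        refine ⟨fun i => cond i β₁ β₀, fun i => ?_, h5, h7⟩
        cases i
        · exact ⟨h3.1, h3.2, h5.trans h8⟩
        · exact ⟨h4.1, h4.2, h8⟩
      · exact ⟨θ₁, h1, fun θ' hθ' =>
          ⟨h2.trans (Iio_subset_Iio hθ'), fun h' => absurd h' hpP⟩⟩) 0 w2_pos
    have hstep : ∀ n, ∀ p : Finset O, ∃ β : Bool → O, p ∈ P → (p : Set O) ⊆ Iio (δ n) →
        ((∀ i, insert (β i) p ∈ P ∧ δ n < β i ∧ β i < δ (n + 1)) ∧ β false < β true ∧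
        ∀ u ∈ K (β false), ∀ v ∈ K (β true), ¬ u ≤ v) := by
      intro n p
      by_cases hp : p ∈ P ∧ (p : Set O) ⊆ Iio (δ n)
      · obtain ⟨β, hβ⟩ := (hδ4 n p hp.2).2 hp.1
        exact ⟨β, fun _ _ => hβ⟩
      · exact ⟨fun _ => 0, fun a b => absurd ⟨a, b⟩ hp⟩
    choose B hB using hstep
    obtain ⟨p, hp0, hps⟩ : ∃ p : (ℕ → Bool) → ℕ → Finset O, (∀ r, p r 0 = ∅) ∧
        ∀ r n, p r (n + 1) = insert (B n (p r n) (r n)) (p r n) :=
      ⟨fun r n => Nat.rec ∅ (fun n q => insert (B n q (r n)) q) n, fun r => rfl, fun r n => rfl⟩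
    have hp : ∀ r n, p r n ∈ P ∧ ((p r n : Finset O) : Set O) ⊆ Iio (δ n) := by
      intro r n
      induction n with
      | zero => exact ⟨by rw [hp0]; exact hP0, by rw [hp0]; simp⟩
      | succ n ih =>
        obtain ⟨h2, -, h4⟩ := (hB n _ ih.1 ih.2).1 (r n)
        refine ⟨by rw [hps]; exact h2, ?_⟩
        rw [hps, Finset.coe_insert]
        exact insert_subset h4 (ih.2.trans (Iio_subset_Iio (hδ2 n).le))
    have hx := fun r => play hG hP2 hD hδ1 hδ3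
      (fun n q hq => (hδ4 n q hq).1) (p r) (fun n => B n (p r n) (r n)) (fun n => (hp r n).1)
      (hps r) (fun n => (hp r n).2)
      (fun n => ((hB n _ (hp r n).1 (hp r n).2).1 (r n)).2.1.le)
    choose x hx1 hx2 hx3 hx4 hx5 hx6 using hx
    by_contra hno
    have hcap : ∀ r, ∃ t, ht t = D ∧ Cap ht I (x r) t := by
      intro r
      by_contra hc
      push Not at hc
      exact hno ⟨x r, ⟨D, hx4 r, hc⟩, hx1 r, hx2 r, hx3 r⟩
    choose t ht1 ht2 using hcap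
    have hagree : ∀ r r' n, (∀ k < n, r k = r' k) → p r n = p r' n := by
      intro r r' n
      induction n with
      | zero => exact fun _ => by rw [hp0, hp0]
      | succ n ih =>
        intro hk
        rw [hps, hps, ih fun k hk' => hk k (Nat.lt_succ_of_lt hk'), hk n (Nat.lt_succ_self n)]
    have hpass : ∀ r n, ∃ u ∈ K (B n (p r n) (r n)), u ≤ t r := by
      intro r n
      have h1 := ((hB n _ (hp r n).1 (hp r n).2).1 (r n)).2.2
      obtain ⟨u, h2, h3⟩ := h.res (t r) (B n (p r n) (r n))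
        (by rw [ht1]; exact (h1.trans (hδ1 _)).le)
      refine ⟨u, ⟨h3, hx6 r _ (ht2 r u h2 ?_) (h.I1 u)⟩, h2⟩
      rw [h3]
      exact hx5 r (n + 1) (by rw [hps]; simp)
    have hdiff : ∀ r r' n, (∀ k < n, r k = r' k) → r n = false → r' n = true → t r ≠ t r' := by
      intro r r' n h1 h2 h3 e
      obtain ⟨u, hu1, hu2⟩ := hpass r n
      obtain ⟨v, hv1, hv2⟩ := hpass r' n
      rw [h2] at hu1
      rw [h3, ← hagree r r' n h1] at hv1
      obtain ⟨-, h4, h5⟩ := hB n _ (hp r n).1 (hp r n).2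
      exact h5 u hu1 v hv1 (h.cmp hu2 (e ▸ hv2) (by rw [hu1.1, hv1.1]; exact h4.le))
    have hinj : Function.Injective t := by
      intro r r' e
      by_contra hne
      have hex : ∃ n, r n ≠ r' n := by
        by_contra hc
        push Not at hc
        exact hne (funext hc)
      have h1 := Nat.find_spec hex
      have h2 : ∀ k < Nat.find hex, r k = r' k := fun k hk => by
        simpa using Nat.find_min hex hk
      cases e1 : r (Nat.find hex) <;> cases e2 : r' (Nat.find hex)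
      · exact h1 (e1.trans e2.symm)
      · exact hdiff r r' _ h2 e1 e2 e
      · exact hdiff r' r _ (fun k hk => (h2 k hk).symm) e2 e1 e.symm
      · exact h1 (e1.trans e2.symm)
    have := le_of_inj (s := (univ : Set (ℕ → Bool))) (fun r => I (t r)) (fun r _ => h.I1 _)
      (fun r _ r' _ e => hinj (h.Iinj _ _ ((ht1 r).trans (ht1 r').symm) e))
    apply hch
    simpa using this
  obtain ⟨α, hα1, hα2, hα3⟩ := hR S hS
  obtain ⟨t, ht1⟩ := h.lev α hα2
  obtain ⟨x, ⟨δ, h1, h2⟩, h3, -, h4⟩ := hα3 _ (h.good_cap hα1 (countable_singleton t))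
  obtain ⟨s, h5, h6⟩ := h.res t δ (ht1 ▸ h1.le h3)
  exact h2 s h6 ((cap_of_cl h4 (mem_singleton t)).down h5)

theorem height_eq_typein {T : Type} [PartialOrder T] (h : IsTree T) {t u : T} (hu : u < t) :
    height h u = @Ordinal.typein (Iio t) (· < ·) (h t) ⟨u, hu⟩ := by
  have := h t
  have := h u
  rw [← Ordinal.type_subrel]
  unfold height
  refine RelIso.ordinalType_congr ⟨⟨fun a => ⟨⟨a.1, lt_trans a.2 hu⟩, a.2⟩,
    fun a => ⟨a.1.1, a.2⟩, fun a => rfl, fun a => rfl⟩, Iff.rfl⟩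

theorem height_lt {T : Type} [PartialOrder T] (h : IsTree T) {t u : T} (hu : u < t) :
    height h u < height h t := by
  rw [height_eq_typein h hu]
  exact @Ordinal.typein_lt_type (Iio t) (· < ·) (h t) ⟨u, hu⟩

theorem exists_TD {T : Type} [PartialOrder T] (h : IsTree T) (hA : IsAronszajn h) :
    ∃ I : T → O, TD T (height h) I := by
  obtain ⟨h1, h2, h3, h4⟩ := hA
  have h5 := fun β => exists_inj (lt_aleph_two.1 (h3 β))
  choose I hI1 hI2 using h5
  have hmono : ∀ {u v : T}, u ≤ v → height h u ≤ height h v := by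
    intro u v huv
    rcases huv.eq_or_lt with e | e
    · rw [e]
    · exact (height_lt h e).le
  refine ⟨fun t => I (height h t) t, h1, fun t β hβ => ?_, ?_, hmono, h2, fun t => hI1 _ _,
    fun u v e1 e2 => ?_, h4⟩
  · rcases hβ.eq_or_lt with e | e
    · exact ⟨t, le_rfl, e.symm⟩
    · obtain ⟨a, ha⟩ := @Ordinal.typein_surj (Iio t) (· < ·) (h t) β e
      exact ⟨a.1, le_of_lt a.2, (height_eq_typein h a.2).trans ha⟩
  · intro t u v hu hv e
    rcases hv.eq_or_lt with e1 | e1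
    · exact e1 ▸ hu
    rcases hu.eq_or_lt with e2 | e2
    · exact absurd (height_lt h e1) (not_lt.2 (e2 ▸ e))
    have := h t
    rcases trichotomous_of (· < · : Iio t → Iio t → Prop) ⟨u, e2⟩ ⟨v, e1⟩ with e3 | e3 | e3
    · exact le_of_lt e3
    · exact le_of_eq (congrArg Subtype.val e3)
    · exact absurd (height_lt h (show v < u from e3)) (not_lt.2 e)
  · simp only [e1] at e2
    exact hI2 (height h v) e1 rfl e2

theorem main (hCH : Cardinal.continuum.{0} ≠ ℵ₁) (hR : Reflection) : TreeProperty := by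
  intro T _ h hA
  obtain ⟨I, hI⟩ := exists_TD h hA
  exact hCH (le_antisymm (hI.ch (ordRefl_of_reflection hR)) aleph_one_le_continuum)

end Pool.Agent.H97Z.TP
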