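import Pool.Agent.H97Z.TPGame

set_option autoImplicit false

open Cardinal Ordinal Set

namespace Pool.Agent.H97Z.TP

/-- the combinatorial data of an `ω₂`-Aronszajn tree -/
structure TD (T : Type) [PartialOrder T] (ht : T → O) (I : T → O) : Prop where
  lt2 : ∀ t, ht t < ω_ 2
  res : ∀ t β, β ≤ ht t → ∃ u, u ≤ t ∧ ht u = β
  cmp : ∀ {t u v : T}, u ≤ t → v ≤ t → ht u ≤ ht v → u ≤ v
  mono : ∀ {u v : T}, u ≤ v → ht u ≤ ht v
  lev : ∀ β < ω_ 2, ∃ t, ht t = β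
  I1 : ∀ t, I t < ω₁
  Iinj : ∀ u v, ht u = ht v → I u = I v → u = v
  nob : ¬ ∃ b : Set T, IsChain (· ≤ ·) b ∧ ∀ β < ω_ 2, ∃ t ∈ b, ht t = β

variable {T : Type} [PartialOrder T] {ht I : T → O}

theorem TD.uniq (h : TD T ht I) {t u v : T} (hu : u ≤ t) (hv : v ≤ t) (e : ht u = ht v) : u = v :=
  le_antisymm (h.cmp hu hv e.le) (h.cmp hv hu e.ge)

theorem TD.level_le (h : TD T ht I) (β : O) : #{t : T | ht t = β} ≤ ℵ₁ :=
  le_of_inj I (fun a _ => h.I1 a) fun a ha b hb e =>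
    h.Iinj a b ((show ht a = β from ha).trans (show ht b = β from hb).symm) e

theorem TD.small_countable (h : TD T ht I) (β : O) {γ : O} (hγ : γ < ω₁) :
    {t : T | ht t = β ∧ I t < γ}.Countable :=
  MapsTo.countable_of_injOn (f := I) (t := Iio γ) (fun _ ht => ht.2)
    (fun a ha b hb e => h.Iinj a b (ha.1.trans hb.1.symm) e) (countable_Iio hγ)

/-- the nodes with extensions in `U` of unbounded height -/
def core (ht : T → O) (U : Set T) : Set T :=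
  {u | ∀ β < ω_ 2, ∃ t ∈ U, u ≤ t ∧ β ≤ ht t}

theorem TD.core_ext (h : TD T ht I) {U : Set T} (R : T → Prop) {β : O} (hβ : β < ω_ 2)
    (h1 : ∀ θ < ω_ 2, ∃ t ∈ U, R t ∧ θ ≤ ht t)
    (h2 : ∀ t v, R t → v ≤ t → ht v = β → R v) :
    ∃ v ∈ core ht U, R v ∧ ht v = β := by
  by_contra hno
  have h3 : ∀ v : T, ∃ θ, θ < ω_ 2 ∧ (R v → ht v = β → ∀ t ∈ U, v ≤ t → ht t < θ) := by
    intro v
    by_cases hv : R v ∧ ht v = β
    · have : v ∉ core ht U := fun hc => hno ⟨v, hc, hv⟩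
      simp only [core, mem_ofPred_eq] at this
      push Not at this
      obtain ⟨θ, h4, h5⟩ := this
      exact ⟨θ, h4, fun _ _ => h5⟩
    · exact ⟨0, w2_pos, fun a b => absurd ⟨a, b⟩ hv⟩
  choose f hf1 hf2 using h3
  obtain ⟨θ, h4, h5⟩ := bdd2 (h.level_le β) f (fun a _ => hf1 a)
  obtain ⟨t, ht1, ht2, ht3⟩ := h1 (max θ β) (max_lt h4 hβ)
  obtain ⟨v, hv1, hv2⟩ := h.res t β ((le_max_right _ _).trans ht3)
  have := hf2 v (h2 t v ht2 hv1 hv2) hv2 t ht1 hv1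
  exact absurd ((this.trans (h5 v hv2)).trans_le ((le_max_left _ _).trans ht3)) (lt_irrefl _)

theorem TD.core_up (h : TD T ht I) {U : Set T} {u : T} (hu : u ∈ core ht U) {β : O}
    (hβ : β < ω_ 2) (hle : ht u ≤ β) : ∃ v ∈ core ht U, u ≤ v ∧ ht v = β :=
  h.core_ext (fun t => u ≤ t) hβ hu fun _ _ h1 h2 h3 => h.cmp h1 h2 (h3 ▸ hle)

theorem core_down {U : Set T} {u v : T} (hu : u ∈ core ht U) (hv : v ≤ u) : v ∈ core ht U := by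
  intro β hβ
  obtain ⟨t, h1, h2, h3⟩ := hu β hβ
  exact ⟨t, h1, hv.trans h2, h3⟩

theorem TD.split (h : TD T ht I) {U : Set T} {u : T} (hu : u ∈ core ht U) :
    ∃ θ < ω_ 2, ∃ v ∈ core ht U, ∃ w ∈ core ht U, u ≤ v ∧ u ≤ w ∧ ht v = θ ∧ ht w = θ ∧ v ≠ w := by
  by_contra hno
  push Not at hno
  have key : ∀ v ∈ core ht U, ∀ w ∈ core ht U, u ≤ v → u ≤ w → ht v ≤ ht w → v ≤ w := by
    intro v hv w hw h1 h2 h3
    obtain ⟨w', h4, h5⟩ := h.res w (ht v) h3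
    have := hno (ht v) (h.lt2 v) v hv w' (core_down hw h4) h1
      (h.cmp h2 h4 (h5 ▸ h.mono h1)) rfl h5
    exact this ▸ h4
  refine h.nob ⟨{v | v ≤ u ∨ (v ∈ core ht U ∧ u ≤ v)}, ?_, fun β hβ => ?_⟩
  · rintro v (hv | hv) w (hw | hw) -
    · rcases le_total (ht v) (ht w) with e | e
      · exact Or.inl (h.cmp hv hw e)
      · exact Or.inr (h.cmp hw hv e)
    · exact Or.inl (hv.trans hw.2)
    · exact Or.inr (hw.trans hv.2)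
    · rcases le_total (ht v) (ht w) with e | e
      · exact Or.inl (key v hv.1 w hw.1 hv.2 hw.2 e)
      · exact Or.inr (key w hw.1 v hv.1 hw.2 hv.2 e)
  · rcases le_total β (ht u) with e | e
    · obtain ⟨v, h1, h2⟩ := h.res u β e
      exact ⟨v, Or.inl h1, h2⟩
    · obtain ⟨v, h1, h2, h3⟩ := h.core_up hu hβ e
      exact ⟨v, Or.inr ⟨h1, h2⟩, h3⟩

/-- A downward closed set of nodes of unbounded height has uncountable levels from some point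
on. -/
theorem TD.kurepa (h : TD T ht I) {U : Set T} (hU : ∀ t ∈ U, ∀ u, u ≤ t → u ∈ U)
    (hunb : ∀ θ < ω_ 2, ∃ t ∈ U, θ ≤ ht t) :
    ∃ lam < ω_ 2, ∀ β, lam ≤ β → β < ω_ 2 → ¬ {t | t ∈ U ∧ ht t = β}.Countable := by
  have h1 : ∀ u : T, ∃ θ, θ < ω_ 2 ∧ (u ∈ core ht U → ∃ v ∈ core ht U, ∃ w ∈ core ht U,
      u ≤ v ∧ u ≤ w ∧ ht v = θ ∧ ht w = θ ∧ v ≠ w) := by
    intro u
    by_cases hu : u ∈ core ht U
    · obtain ⟨θ, h1, h2⟩ := h.split hu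
      exact ⟨θ, h1, fun _ => h2⟩
    · exact ⟨0, w2_pos, fun h' => absurd h' hu⟩
  choose sp hsp1 hsp2 using h1
  have h2 : ∀ β : O, ∃ θ < ω_ 2, ∀ u, ht u = β → sp u < θ := fun β =>
    bdd2 (h.level_le β) sp (fun a _ => hsp1 a)
  choose g hg1 hg2 using h2
  obtain ⟨b, lam, hl, hb1, hb2⟩ := exists_fast g (fun β _ => hg1 β)
  refine ⟨lam, hl, fun β hβ1 hβ2 hc => not_countable_Iio_w1 ?_⟩
  obtain ⟨t, ht1, -, ht2⟩ := h.core_ext (U := U) (fun _ => True) hβ2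
    (fun θ hθ => by obtain ⟨t, h1, h2⟩ := hunb θ hθ; exact ⟨t, h1, trivial, h2⟩)
    (fun _ _ _ _ _ => trivial)
  have h3 : ∀ ξ < ω₁, ∃ y : T, (y ∈ U ∧ ht y = β) ∧ (∃ u, u ≤ t ∧ u ≤ y ∧ ht u = b ξ) ∧
      ∃ z, z ≤ y ∧ ¬ z ≤ t ∧ ht z < g (b ξ) := by
    intro ξ hξ
    obtain ⟨u, hu1, hu2⟩ := h.res t (b ξ) (ht2 ▸ (hb1 ξ hξ).le.trans hβ1)
    obtain ⟨v, hv, w, hw, e1, e2, e3, e4, e5⟩ := hsp2 u (core_down ht1 hu1)
    have hz : ∃ z ∈ core ht U, u ≤ z ∧ ht z = sp u ∧ ¬ z ≤ t := by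
      by_cases hvt : v ≤ t
      · exact ⟨w, hw, e2, e4, fun hwt => e5 (h.uniq hvt hwt (e3.trans e4.symm))⟩
      · exact ⟨v, hv, e1, e3, hvt⟩
    obtain ⟨z, hz1, hz2, hz3, hz4⟩ := hz
    have hz5 : ht z < g (b ξ) := hz3 ▸ hg2 _ u hu2
    have hz6 : ht z ≤ β := (hz5.trans ((hb2 ξ (ξ + 1) (lt_add_one' ξ) (succ_lt_w1 hξ)).trans
      (hb1 _ (succ_lt_w1 hξ)))).le.trans hβ1
    obtain ⟨y, hy1, hy2, hy3⟩ := h.core_up hz1 hβ2 hz6
    obtain ⟨s, hs1, hs2, -⟩ := hy1 0 w2_pos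
    exact ⟨y, ⟨hU s hs1 y hs2, hy3⟩, ⟨u, hu1, hz2.trans hy2, hu2⟩, z, hy2, hz4, hz5⟩
  have : Nonempty T := ⟨t⟩
  choose! y hy1 hy2 hy3 using h3
  have key : ∀ ζ ξ, ζ < ξ → ξ < ω₁ → y ζ ≠ y ξ := by
    intro ζ ξ h1 h2 e
    obtain ⟨z, hz1, hz2, hz3⟩ := hy3 ζ (h1.trans h2)
    obtain ⟨u, hu1, hu2, hu3⟩ := hy2 ξ h2
    exact hz2 ((h.cmp (e ▸ hz1) hu2 (hu3 ▸ (hz3.trans (hb2 ζ ξ h1 h2)).le)).trans hu1)
  refine MapsTo.countable_of_injOn (f := y) (fun ξ hξ => hy1 ξ hξ) ?_ hc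
  intro ζ hζ ξ hξ e
  rcases lt_trichotomy ζ ξ with h' | h' | h'
  · exact absurd e (key _ _ h' hξ)
  · exact h'
  · exact absurd e.symm (key _ _ h' hζ)

/-- escaping a node: along an unbounded set `B` of levels every high node leaves the first `γ`
nodes of a level in `B`. -/
theorem TD.escape (h : TD T ht I) {γ : O} (hγ : γ < ω₁) (B : Set O)
    (hB : ∀ η < ω_ 2, ∃ β, η < β ∧ β < ω_ 2 ∧ β ∈ B) (ζ : O) (hζ : ζ < ω_ 2) :
    ∃ θ < ω_ 2, ∀ t, θ ≤ ht t → ∃ u, u ≤ t ∧ ht u ∈ B ∧ ζ < ht u ∧ ht u ≤ θ ∧ γ ≤ I u := by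
  let U : Set T := {t | ∀ u, u ≤ t → ht u ∈ B → ζ < ht u → I u < γ}
  by_cases hunb : ∀ θ < ω_ 2, ∃ t ∈ U, θ ≤ ht t
  · exfalso
    obtain ⟨lam, h1, h2⟩ := h.kurepa (U := U)
      (fun t h1 u h2 v h3 => h1 v (h3.trans h2)) hunb
    obtain ⟨β, h3, h4, h5⟩ := hB (max lam ζ) (max_lt h1 hζ)
    refine h2 β ((le_max_left _ _).trans h3.le) h4 ((h.small_countable β hγ).mono ?_)
    rintro t ⟨h6, h7⟩
    exact ⟨h7, h6 t le_rfl (h7 ▸ h5) (h7 ▸ (le_max_right _ _).trans_lt h3)⟩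
  · push Not at hunb
    obtain ⟨θ, h1, h2⟩ := hunb
    refine ⟨θ, h1, fun t h3 => ?_⟩
    obtain ⟨s, h4, h5⟩ := h.res t θ h3
    have h6 : s ∉ U := fun hs => absurd (h2 s hs) (by rw [h5]; exact lt_irrefl _)
    simp only [U, mem_ofPred_eq] at h6
    push Not at h6
    obtain ⟨u, h7, h8, h9, h10⟩ := h6
    exact ⟨u, h7.trans h4, h8, h9, h5 ▸ h.mono h7, h10⟩

/-- `x` captures the node `t` -/
def Cap (ht I : T → O) (x : Set O) (t : T) : Prop := ∀ u, u ≤ t → ht u ∈ x → I u ∈ x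

theorem Cap.down {x : Set O} {t s : T} (h : Cap ht I x t) (hs : s ≤ t) : Cap ht I x s :=
  fun u hu => h u (hu.trans hs)

theorem TD.good_cap (h : TD T ht I) {α : O} (hα : ω₁ ≤ α) {K : Set T} (hK : K.Countable) :
    Good (Iio α) (fun e => ⋃ v ∈ K, I '' {u | u ≤ v ∧ ht u ∈ e}) := by
  intro e _
  refine ⟨iUnion₂_subset fun v _ => ?_, hK.biUnion fun v _ => Set.Countable.image ?_ I⟩
  · rintro _ ⟨u, -, rfl⟩
    exact (h.I1 u).trans_le hα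
  · exact MapsTo.countable_of_injOn (f := ht) (t := (e : Set O)) (fun u hu => hu.2)
      (fun a ha b hb e => h.uniq ha.1 hb.1 e) e.countable_toSet

theorem cap_of_cl {K : Set T} {x : Set O}
    (hx : Cl (fun e => ⋃ v ∈ K, I '' {u | u ≤ v ∧ ht u ∈ e}) x) {v : T} (hv : v ∈ K) :
    Cap ht I x v := by
  intro u hu hux
  refine hx {ht u} (by simpa using hux) ?_
  exact mem_iUnion₂.2 ⟨v, hv, u, ⟨hu, by simp⟩, rfl⟩

end Pool.Agent.H97Z.TP
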